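import Mathlib

set_option autoImplicit false

open Set Filter Topology Metric MeasureTheory

namespace Pool.Agent.H305R3.FC

/-- Euclidean space -/
abbrev E (n : ℕ) := EuclideanSpace ℝ (Fin n)

variable {n : ℕ}

theorem dom_norm {x0 x y : E n} {δ : ℝ} (hx : x ∈ ball x0 δ) (hy : y ∉ ball x0 (2 * δ)) :
    ‖y - x0‖ / 2 ≤ ‖x - y‖ ∧ δ ≤ ‖x - y‖ ∧ 2 * δ ≤ ‖y - x0‖ := by
  rw [mem_ball, dist_eq_norm] at hx
  rw [mem_ball, dist_eq_norm, not_lt] at hy
  have h1 : ‖y - x0‖ ≤ ‖x - y‖ + ‖x - x0‖ := by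
    calc ‖y - x0‖ = ‖(x - x0) - (x - y)‖ := by congr 1; abel
      _ ≤ ‖x - x0‖ + ‖x - y‖ := norm_sub_le _ _
      _ = _ := by ring
  refine ⟨by linarith, by linarith, hy⟩

theorem dom_rpow {p q δ : ℝ} (hδ : 0 < δ) (hp : 0 < p) (hpq : p ≤ q) (x0 : E n) :
    ∃ C : ℝ, 0 ≤ C ∧ ∀ x ∈ ball x0 δ, ∀ y ∉ ball x0 (2 * δ),
      ‖x - y‖ ^ (-q) ≤ C * ‖y - x0‖ ^ (-p) := by
  refine ⟨(1 / 2) ^ (-q) * (2 * δ) ^ (-(q - p)), by positivity, ?_⟩
  intro x hx y hy
  obtain ⟨h1, h2, h3⟩ := dom_norm hx hy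
  have hpos : 0 < ‖y - x0‖ := by linarith
  have h4 : ‖x - y‖ ^ (-q) ≤ (‖y - x0‖ / 2) ^ (-q) :=
    Real.rpow_le_rpow_of_nonpos (by positivity) h1 (by linarith)
  have h5 : (‖y - x0‖ / 2) ^ (-q) = (1 / 2) ^ (-q) * (‖y - x0‖ ^ (-(q - p)) * ‖y - x0‖ ^ (-p)) := by
    rw [← Real.rpow_add hpos, div_eq_mul_one_div, Real.mul_rpow hpos.le (by norm_num), mul_comm]
    congr 2
    ring
  have h6 : ‖y - x0‖ ^ (-(q - p)) ≤ (2 * δ) ^ (-(q - p)) :=
    Real.rpow_le_rpow_of_nonpos (by positivity) h3 (by linarith)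
  rw [h5] at h4
  refine h4.trans ?_
  rw [mul_assoc]
  apply mul_le_mul_of_nonneg_left _ (by positivity)
  exact mul_le_mul_of_nonneg_right h6 (by positivity)

theorem hasDerivAt_norm_rpow (v e : E n) (q t : ℝ) (h : v + t • e ≠ 0) :
    HasDerivAt (fun t : ℝ => ‖v + t • e‖ ^ (-q))
      (-q * (inner ℝ (v + t • e) e * ‖v + t • e‖ ^ (-(q + 2)))) t := by
  have h1 : HasDerivAt (fun t : ℝ => v + t • e) e t := by
    have := ((hasDerivAt_id t).smul_const e).const_add v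
    simpa using this
  have h2 := h1.norm_sq
  have hpos : 0 < ‖v + t • e‖ := norm_pos_iff.2 h
  have h3 : HasDerivAt (fun t : ℝ => (‖v + t • e‖ ^ 2) ^ (-q / 2))
      ((2 * inner ℝ (v + t • e) e) * (-q / 2) * (‖v + t • e‖ ^ 2) ^ (-q / 2 - 1)) t :=
    h2.rpow_const (Or.inl (by positivity))
  have h4 : (fun t : ℝ => (‖v + t • e‖ ^ 2) ^ (-q / 2)) = fun t : ℝ => ‖v + t • e‖ ^ (-q) := by
    funext t
    rw [← Real.rpow_natCast, ← Real.rpow_mul (norm_nonneg _)]
    congr 1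
    push_cast
    ring
  rw [h4] at h3
  convert h3 using 1
  rw [← Real.rpow_natCast, ← Real.rpow_mul (norm_nonneg _)]
  have : ((2 : ℕ) : ℝ) * (-q / 2 - 1) = -(q + 2) := by push_cast; ring
  rw [this]
  ring

variable {w : E n → ℝ} {x0 : E n} {δ p : ℝ}

/-- first derivative -/
theorem deriv_one (hw : AEStronglyMeasurable w volume) (hδ : 0 < δ) (hp : 0 < p)
    (hw0 : ∀ y ∈ ball x0 (2 * δ), w y = 0)
    (hint : Integrable (fun y => w y * ‖y - x0‖ ^ (-p)) volume)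
    {q : ℝ} (hpq : p ≤ q) (hF : ∀ x ∈ ball x0 δ, ∫ y, w y * ‖x - y‖ ^ (-q) = 0) (e : E n) :
    ∀ x ∈ ball x0 δ, ∫ y, w y * (inner ℝ (x - y) e * ‖x - y‖ ^ (-(q + 2))) = 0 := by
  intro z hz
  obtain ⟨C, hC, hdom⟩ := dom_rpow (n := n) hδ hp (show p ≤ q + 1 by linarith) x0
  obtain ⟨C0, hC0, hdom0⟩ := dom_rpow (n := n) hδ hp hpq x0
  set s : Set ℝ := {t : ℝ | z + t • e ∈ ball x0 δ} with hs
  have hsn : s ∈ 𝓝 (0:ℝ) := by
    have hcont : Continuous fun t : ℝ => z + t • e := by fun_prop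
    exact (isOpen_ball.preimage hcont).mem_nhds (by simpa using hz)
  have hmeasF : ∀ t : ℝ, AEStronglyMeasurable (fun y => w y * ‖z + t • e - y‖ ^ (-q)) volume := by
    intro t
    exact hw.mul (by fun_prop : Measurable fun y => ‖z + t • e - y‖ ^ (-q)).aestronglyMeasurable
  have hbdint : Integrable (fun y => ‖w y * ‖y - x0‖ ^ (-p)‖) volume := hint.norm
  have key := hasDerivAt_integral_of_dominated_loc_of_deriv_le (μ := (volume : Measure (E n)))
    (F := fun (t : ℝ) y => w y * ‖z + t • e - y‖ ^ (-q)) (x₀ := (0:ℝ)) (s := s)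
    (bound := fun y => |q| * (‖e‖ * C) * ‖w y * ‖y - x0‖ ^ (-p)‖)
    (F' := fun (t : ℝ) y => w y * (-q * (inner ℝ (z + t • e - y) e *
      ‖z + t • e - y‖ ^ (-(q + 2))))) hsn
    (Eventually.of_forall hmeasF) ?_ ?_ ?_ ?_ ?_
  · have h1 := key.2
    have h2 : (fun t : ℝ => ∫ y, w y * ‖z + t • e - y‖ ^ (-q)) =ᶠ[𝓝 0] fun _ => (0:ℝ) := by
      filter_upwards [hsn] with t ht
      exact hF _ ht
    have h3 := h1.congr_of_eventuallyEq h2.symm
    have h4 := h3.unique (hasDerivAt_const (0:ℝ) (0:ℝ))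
    have h5 : ∫ y, w y * (-q * (inner ℝ (z + (0:ℝ) • e - y) e *
        ‖z + (0:ℝ) • e - y‖ ^ (-(q + 2)))) =
        -q * ∫ y, w y * (inner ℝ (z - y) e * ‖z - y‖ ^ (-(q + 2))) := by
      rw [← integral_const_mul]
      congr 1
      funext y
      rw [zero_smul, add_zero]
      ring
    rw [h5] at h4
    rcases mul_eq_zero.1 h4 with h | h
    · exfalso; linarith
    · exact h
  · -- integrable at 0
    refine Integrable.mono' (hbdint.const_mul C0) (hmeasF 0) (Eventually.of_forall fun y => ?_)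
    by_cases hy : y ∈ ball x0 (2 * δ)
    · rw [hw0 y hy]; simp
    · rw [norm_mul, norm_mul, Real.norm_of_nonneg (Real.rpow_nonneg (norm_nonneg _) _),
        Real.norm_of_nonneg (Real.rpow_nonneg (norm_nonneg _) _)]
      have h1 := hdom0 (z + (0:ℝ) • e) (by simpa using hz) y hy
      have h2 := mul_le_mul_of_nonneg_left h1 (norm_nonneg (w y))
      linarith
  · refine hw.mul (Measurable.aestronglyMeasurable ?_)
    fun_prop
  · refine Eventually.of_forall fun y t ht => ?_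
    by_cases hy : y ∈ ball x0 (2 * δ)
    · simp only [hw0 y hy]; simp
    · have h0 := dom_norm ht hy
      have hpos : 0 < ‖z + t • e - y‖ := by linarith [h0.2.1]
      have h1 := hdom _ ht y hy
      have h2 : |inner ℝ (z + t • e - y) e| ≤ ‖z + t • e - y‖ * ‖e‖ := abs_real_inner_le_norm _ _
      have h3 : ‖z + t • e - y‖ * ‖z + t • e - y‖ ^ (-(q + 2)) = ‖z + t • e - y‖ ^ (-(q + 1)) := by
        rw [← Real.rpow_one_add' hpos.le]
        · congr 1; ring
        · intro h; linarith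
      rw [norm_mul, norm_mul, norm_mul, Real.norm_eq_abs, Real.norm_eq_abs, Real.norm_eq_abs,
        Real.norm_of_nonneg (Real.rpow_nonneg (norm_nonneg _) _), abs_neg, norm_mul,
        Real.norm_eq_abs, Real.norm_of_nonneg (Real.rpow_nonneg (norm_nonneg _) _)]
      have h4 : |inner ℝ (z + t • e - y) e| * ‖z + t • e - y‖ ^ (-(q + 2)) ≤
          ‖e‖ * (C * ‖y - x0‖ ^ (-p)) := by
        calc |inner ℝ (z + t • e - y) e| * ‖z + t • e - y‖ ^ (-(q + 2))
            ≤ (‖z + t • e - y‖ * ‖e‖) * ‖z + t • e - y‖ ^ (-(q + 2)) :=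
              mul_le_mul_of_nonneg_right h2 (by positivity)
          _ = ‖e‖ * (‖z + t • e - y‖ ^ (-(q + 1))) := by rw [← h3]; ring
          _ ≤ _ := mul_le_mul_of_nonneg_left h1 (norm_nonneg _)
      calc |w y| * (|q| * (|inner ℝ (z + t • e - y) e| * ‖z + t • e - y‖ ^ (-(q + 2))))
          ≤ |w y| * (|q| * (‖e‖ * (C * ‖y - x0‖ ^ (-p)))) := by gcongr
        _ = _ := by ring
  · exact hbdint.const_mul _
  · refine Eventually.of_forall fun y t ht => ?_
    by_cases hy : y ∈ ball x0 (2 * δ)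
    · simp only [hw0 y hy, zero_mul]
      exact hasDerivAt_const _ _
    · have h0 := dom_norm ht hy
      have hpos : 0 < ‖z + t • e - y‖ := by linarith [h0.2.1]
      have h1 := hasDerivAt_norm_rpow (z - y) e q t (by
        intro h
        have : z + t • e - y = 0 := by rw [← h]; abel
        rw [this, norm_zero] at hpos
        exact lt_irrefl _ hpos)
      have h2 := h1.const_mul (w y)
      have e1 : (fun t : ℝ => w y * ‖z + t • e - y‖ ^ (-q)) =
          fun t : ℝ => w y * ‖z - y + t • e‖ ^ (-q) := by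
        funext t
        congr 3
        abel
      have e2 : z + t • e - y = z - y + t • e := by abel
      show HasDerivAt (fun t : ℝ => w y * ‖z + t • e - y‖ ^ (-q)) _ t
      rw [e1, e2]
      exact h2

/-- second derivative -/
theorem deriv_two (hw : AEStronglyMeasurable w volume) (hδ : 0 < δ) (hp : 0 < p)
    (hw0 : ∀ y ∈ ball x0 (2 * δ), w y = 0)
    (hint : Integrable (fun y => w y * ‖y - x0‖ ^ (-p)) volume)
    {q : ℝ} (hpq : p ≤ q) (e : E n)
    (hF : ∀ x ∈ ball x0 δ, ∫ y, w y * (inner ℝ (x - y) e * ‖x - y‖ ^ (-(q + 2))) = 0) :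
    ∀ x ∈ ball x0 δ, ∫ y, w y * (‖e‖ ^ 2 * ‖x - y‖ ^ (-(q + 2)) -
      (q + 2) * (inner ℝ (x - y) e ^ 2 * ‖x - y‖ ^ (-(q + 4)))) = 0 := by
  intro z hz
  obtain ⟨C, hC, hdom⟩ := dom_rpow (n := n) hδ hp (show p ≤ q + 2 by linarith) x0
  obtain ⟨C0, hC0, hdom0⟩ := dom_rpow (n := n) hδ hp (show p ≤ q + 1 by linarith) x0
  set s : Set ℝ := {t : ℝ | z + t • e ∈ ball x0 δ} with hs
  have hsn : s ∈ 𝓝 (0:ℝ) := by
    have hcont : Continuous fun t : ℝ => z + t • e := by fun_prop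
    exact (isOpen_ball.preimage hcont).mem_nhds (by simpa using hz)
  have hmeasF : ∀ t : ℝ, AEStronglyMeasurable (fun y => w y *
      (inner ℝ (z + t • e - y) e * ‖z + t • e - y‖ ^ (-(q + 2)))) volume := by
    intro t
    exact hw.mul (by fun_prop : Measurable fun y => inner ℝ (z + t • e - y) e *
      ‖z + t • e - y‖ ^ (-(q + 2))).aestronglyMeasurable
  have hbdint : Integrable (fun y => ‖w y * ‖y - x0‖ ^ (-p)‖) volume := hint.norm
  have key := hasDerivAt_integral_of_dominated_loc_of_deriv_le (μ := (volume : Measure (E n)))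
    (F := fun (t : ℝ) y => w y * (inner ℝ (z + t • e - y) e * ‖z + t • e - y‖ ^ (-(q + 2))))
    (x₀ := (0:ℝ)) (s := s)
    (bound := fun y => (‖e‖ ^ 2 * (1 + |q + 2|) * C) * ‖w y * ‖y - x0‖ ^ (-p)‖)
    (F' := fun (t : ℝ) y => w y * (‖e‖ ^ 2 * ‖z + t • e - y‖ ^ (-(q + 2)) -
      (q + 2) * (inner ℝ (z + t • e - y) e ^ 2 * ‖z + t • e - y‖ ^ (-(q + 4))))) hsn
    (Eventually.of_forall hmeasF) ?_ ?_ ?_ ?_ ?_
  · have h1 := key.2
    have h2 : (fun t : ℝ => ∫ y, w y * (inner ℝ (z + t • e - y) e *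
        ‖z + t • e - y‖ ^ (-(q + 2)))) =ᶠ[𝓝 0] fun _ => (0:ℝ) := by
      filter_upwards [hsn] with t ht
      exact hF _ ht
    have h3 := h1.congr_of_eventuallyEq h2.symm
    have h4 := h3.unique (hasDerivAt_const (0:ℝ) (0:ℝ))
    simpa using h4
  · -- integrable at 0
    refine Integrable.mono' (hbdint.const_mul (‖e‖ * C0)) (hmeasF 0)
      (Eventually.of_forall fun y => ?_)
    by_cases hy : y ∈ ball x0 (2 * δ)
    · rw [hw0 y hy]; simp
    · have h0 := dom_norm hz hy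
      have hpos : 0 < ‖z - y‖ := by linarith [h0.2.1]
      have h1 := hdom0 z hz y hy
      have h2 : |inner ℝ (z - y) e| ≤ ‖z - y‖ * ‖e‖ := abs_real_inner_le_norm _ _
      have h3 : ‖z - y‖ * ‖z - y‖ ^ (-(q + 2)) = ‖z - y‖ ^ (-(q + 1)) := by
        rw [← Real.rpow_one_add' hpos.le]
        · congr 1; ring
        · intro h; linarith
      rw [zero_smul, add_zero, norm_mul, norm_mul, norm_mul, Real.norm_eq_abs (inner ℝ _ _),
        Real.norm_of_nonneg (Real.rpow_nonneg (norm_nonneg _) _),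
        Real.norm_of_nonneg (Real.rpow_nonneg (norm_nonneg _) _)]
      have h4 : |inner ℝ (z - y) e| * ‖z - y‖ ^ (-(q + 2)) ≤ ‖e‖ * (C0 * ‖y - x0‖ ^ (-p)) := by
        calc |inner ℝ (z - y) e| * ‖z - y‖ ^ (-(q + 2))
            ≤ (‖z - y‖ * ‖e‖) * ‖z - y‖ ^ (-(q + 2)) :=
              mul_le_mul_of_nonneg_right h2 (by positivity)
          _ = ‖e‖ * (‖z - y‖ ^ (-(q + 1))) := by rw [← h3]; ring
          _ ≤ _ := mul_le_mul_of_nonneg_left h1 (norm_nonneg _)
      have h5 := mul_le_mul_of_nonneg_left h4 (norm_nonneg (w y))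
      calc _ ≤ _ := h5
        _ = _ := by ring
  · refine hw.mul (Measurable.aestronglyMeasurable ?_)
    fun_prop
  · refine Eventually.of_forall fun y t ht => ?_
    by_cases hy : y ∈ ball x0 (2 * δ)
    · simp only [hw0 y hy]; simp
    · have h0 := dom_norm ht hy
      have hpos : 0 < ‖z + t • e - y‖ := by linarith [h0.2.1]
      have h1 := hdom _ ht y hy
      have h2 : |inner ℝ (z + t • e - y) e| ≤ ‖z + t • e - y‖ * ‖e‖ := abs_real_inner_le_norm _ _
      have h2' : inner ℝ (z + t • e - y) e ^ 2 ≤ ‖z + t • e - y‖ ^ 2 * ‖e‖ ^ 2 := by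
        rw [← sq_abs, ← mul_pow]
        exact pow_le_pow_left₀ (abs_nonneg _) h2 2
      have h3 : ‖z + t • e - y‖ ^ 2 * ‖z + t • e - y‖ ^ (-(q + 4)) =
          ‖z + t • e - y‖ ^ (-(q + 2)) := by
        rw [← Real.rpow_natCast, ← Real.rpow_add hpos]
        congr 1; push_cast; ring
      have h4 : |‖e‖ ^ 2 * ‖z + t • e - y‖ ^ (-(q + 2)) -
          (q + 2) * (inner ℝ (z + t • e - y) e ^ 2 * ‖z + t • e - y‖ ^ (-(q + 4)))| ≤
          ‖e‖ ^ 2 * (1 + |q + 2|) * ‖z + t • e - y‖ ^ (-(q + 2)) := by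
        have a1 : |‖e‖ ^ 2 * ‖z + t • e - y‖ ^ (-(q + 2))| =
            ‖e‖ ^ 2 * ‖z + t • e - y‖ ^ (-(q + 2)) := abs_of_nonneg (by positivity)
        have a2 : |(q + 2) * (inner ℝ (z + t • e - y) e ^ 2 * ‖z + t • e - y‖ ^ (-(q + 4)))| ≤
            |q + 2| * (‖e‖ ^ 2 * ‖z + t • e - y‖ ^ (-(q + 2))) := by
          rw [abs_mul]
          apply mul_le_mul_of_nonneg_left _ (abs_nonneg _)
          rw [abs_of_nonneg (by positivity)]
          calc inner ℝ (z + t • e - y) e ^ 2 * ‖z + t • e - y‖ ^ (-(q + 4))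
              ≤ (‖z + t • e - y‖ ^ 2 * ‖e‖ ^ 2) * ‖z + t • e - y‖ ^ (-(q + 4)) :=
                mul_le_mul_of_nonneg_right h2' (by positivity)
            _ = ‖e‖ ^ 2 * (‖z + t • e - y‖ ^ 2 * ‖z + t • e - y‖ ^ (-(q + 4))) := by ring
            _ = _ := by rw [h3]
        refine (abs_sub _ _).trans ?_
        rw [a1]
        calc _ ≤ ‖e‖ ^ 2 * ‖z + t • e - y‖ ^ (-(q + 2)) +
              |q + 2| * (‖e‖ ^ 2 * ‖z + t • e - y‖ ^ (-(q + 2))) := by linarith
          _ = _ := by ring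
      rw [norm_mul, Real.norm_eq_abs, Real.norm_eq_abs, norm_mul, Real.norm_eq_abs,
        Real.norm_of_nonneg (Real.rpow_nonneg (norm_nonneg _) _)]
      calc |w y| * |‖e‖ ^ 2 * ‖z + t • e - y‖ ^ (-(q + 2)) -
          (q + 2) * (inner ℝ (z + t • e - y) e ^ 2 * ‖z + t • e - y‖ ^ (-(q + 4)))|
          ≤ |w y| * (‖e‖ ^ 2 * (1 + |q + 2|) * ‖z + t • e - y‖ ^ (-(q + 2))) := by gcongr
        _ ≤ |w y| * (‖e‖ ^ 2 * (1 + |q + 2|) * (C * ‖y - x0‖ ^ (-p))) := by gcongr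
        _ = _ := by ring
  · exact hbdint.const_mul _
  · refine Eventually.of_forall fun y t ht => ?_
    by_cases hy : y ∈ ball x0 (2 * δ)
    · simp only [hw0 y hy, zero_mul]
      exact hasDerivAt_const _ _
    · have h0 := dom_norm ht hy
      have hpos : 0 < ‖z + t • e - y‖ := by linarith [h0.2.1]
      have h1 := hasDerivAt_norm_rpow (z - y) e (q + 2) t (by
        intro h
        have : z + t • e - y = 0 := by rw [← h]; abel
        rw [this, norm_zero] at hpos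
        exact lt_irrefl _ hpos)
      have h1' : HasDerivAt (fun t : ℝ => inner ℝ (z - y + t • e) e) (‖e‖ ^ 2) t := by
        have a1 : HasDerivAt (fun t : ℝ => z - y + t • e) e t := by
          have := ((hasDerivAt_id t).smul_const e).const_add (z - y)
          simpa using this
        have a2 := a1.inner ℝ (hasDerivAt_const t e)
        simpa [real_inner_self_eq_norm_sq] using a2
      have h2 := (h1'.mul h1).const_mul (w y)
      have e1 : (fun t : ℝ => w y * (inner ℝ (z + t • e - y) e *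
          ‖z + t • e - y‖ ^ (-(q + 2)))) =
          fun t : ℝ => w y * (inner ℝ (z - y + t • e) e * ‖z - y + t • e‖ ^ (-(q + 2))) := by
        funext t
        have : z + t • e - y = z - y + t • e := by abel
        rw [this]
      have e2 : z + t • e - y = z - y + t • e := by abel
      show HasDerivAt (fun t : ℝ => w y * (inner ℝ (z + t • e - y) e *
          ‖z + t • e - y‖ ^ (-(q + 2)))) _ t
      rw [e1, e2]
      refine h2.congr_deriv ?_
      have e3 : q + 2 + 2 = q + 4 := by ring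
      rw [e3]
      ring

/-- raising the exponent by two -/
theorem raise (hw : AEStronglyMeasurable w volume) (hδ : 0 < δ) (hp : 0 < p)
    (hpn : (n : ℝ) < p + 2)
    (hw0 : ∀ y ∈ ball x0 (2 * δ), w y = 0)
    (hint : Integrable (fun y => w y * ‖y - x0‖ ^ (-p)) volume)
    {q : ℝ} (hpq : p ≤ q) (hF : ∀ x ∈ ball x0 δ, ∫ y, w y * ‖x - y‖ ^ (-q) = 0) :
    ∀ x ∈ ball x0 δ, ∫ y, w y * ‖x - y‖ ^ (-(q + 2)) = 0 := by
  intro x hx
  let b := EuclideanSpace.basisFun (Fin n) ℝ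
  have h1 : ∀ i, ∫ y, w y * (‖b i‖ ^ 2 * ‖x - y‖ ^ (-(q + 2)) -
      (q + 2) * (inner ℝ (x - y) (b i) ^ 2 * ‖x - y‖ ^ (-(q + 4)))) = 0 := fun i =>
    deriv_two hw hδ hp hw0 hint hpq (b i)
      (deriv_one hw hδ hp hw0 hint hpq hF (b i)) x hx
  obtain ⟨C, hC, hdom⟩ := dom_rpow (n := n) hδ hp (show p ≤ q + 2 by linarith) x0
  have hint2 : Integrable (fun y => w y * ‖x - y‖ ^ (-(q + 2))) volume := by
    refine Integrable.mono' (hint.norm.const_mul C) (hw.mul (by fun_prop : Measurable fun y =>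
      ‖x - y‖ ^ (-(q + 2))).aestronglyMeasurable) (Eventually.of_forall fun y => ?_)
    by_cases hy : y ∈ ball x0 (2 * δ)
    · rw [hw0 y hy]; simp
    · rw [norm_mul, norm_mul, Real.norm_of_nonneg (Real.rpow_nonneg (norm_nonneg _) _),
        Real.norm_of_nonneg (Real.rpow_nonneg (norm_nonneg _) _)]
      have h1 := hdom x hx y hy
      have h2 := mul_le_mul_of_nonneg_left h1 (norm_nonneg (w y))
      linarith
  have hint3 : ∀ i, Integrable (fun y => w y * (inner ℝ (x - y) (b i) ^ 2 *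
      ‖x - y‖ ^ (-(q + 4)))) volume := by
    intro i
    refine Integrable.mono' (hint2.norm) (hw.mul (by fun_prop : Measurable fun y =>
      inner ℝ (x - y) (b i) ^ 2 * ‖x - y‖ ^ (-(q + 4))).aestronglyMeasurable)
      (Eventually.of_forall fun y => ?_)
    by_cases hy : y ∈ ball x0 (2 * δ)
    · rw [hw0 y hy]; simp
    · have h0 := dom_norm hx hy
      have hpos : 0 < ‖x - y‖ := by linarith [h0.2.1]
      have h2 : |inner ℝ (x - y) (b i)| ≤ ‖x - y‖ * ‖b i‖ := abs_real_inner_le_norm _ _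
      rw [b.norm_eq_one i, mul_one] at h2
      have h2' : inner ℝ (x - y) (b i) ^ 2 ≤ ‖x - y‖ ^ 2 := by
        rw [← sq_abs]
        exact pow_le_pow_left₀ (abs_nonneg _) h2 2
      have h3 : ‖x - y‖ ^ 2 * ‖x - y‖ ^ (-(q + 4)) = ‖x - y‖ ^ (-(q + 2)) := by
        rw [← Real.rpow_natCast, ← Real.rpow_add hpos]
        congr 1; push_cast; ring
      rw [norm_mul (w y), norm_mul (w y)]
      apply mul_le_mul_of_nonneg_left _ (norm_nonneg _)
      rw [Real.norm_of_nonneg (by positivity), Real.norm_of_nonneg (by positivity), ← h3]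
      exact mul_le_mul_of_nonneg_right h2' (by positivity)
  have h2 : ∀ i, ∫ y, w y * (‖b i‖ ^ 2 * ‖x - y‖ ^ (-(q + 2)) -
      (q + 2) * (inner ℝ (x - y) (b i) ^ 2 * ‖x - y‖ ^ (-(q + 4)))) =
      (∫ y, w y * ‖x - y‖ ^ (-(q + 2))) - (q + 2) * ∫ y, w y * (inner ℝ (x - y) (b i) ^ 2 *
        ‖x - y‖ ^ (-(q + 4))) := by
    intro i
    rw [← integral_const_mul, ← integral_sub hint2 ((hint3 i).const_mul _)]
    congr 1
    funext y
    rw [b.norm_eq_one i]
    ring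
  have h3 : ∑ i, ((∫ y, w y * ‖x - y‖ ^ (-(q + 2))) - (q + 2) *
      ∫ y, w y * (inner ℝ (x - y) (b i) ^ 2 * ‖x - y‖ ^ (-(q + 4)))) = 0 := by
    apply Finset.sum_eq_zero
    intro i _
    rw [← h2 i, h1 i]
  rw [Finset.sum_sub_distrib, Finset.sum_const, Finset.card_univ, Fintype.card_fin,
    ← Finset.mul_sum, ← integral_finsetSum _ (fun i _ => hint3 i)] at h3
  have h4 : (fun y => ∑ i, w y * (inner ℝ (x - y) (b i) ^ 2 * ‖x - y‖ ^ (-(q + 4)))) =
      fun y => w y * ‖x - y‖ ^ (-(q + 2)) := by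
    funext y
    rw [← Finset.mul_sum, ← Finset.sum_mul]
    by_cases hy : y ∈ ball x0 (2 * δ)
    · rw [hw0 y hy, zero_mul, zero_mul]
    · have h0 := dom_norm hx hy
      have hpos : 0 < ‖x - y‖ := by linarith [h0.2.1]
      have h5 : ∑ i, inner ℝ (x - y) (b i) ^ 2 = ‖x - y‖ ^ 2 := by
        have := b.sum_sq_norm_inner_left (x - y)
        rw [← this]
        apply Finset.sum_congr rfl
        intro i _
        rw [Real.norm_eq_abs, sq_abs]
      have h3 : ‖x - y‖ ^ 2 * ‖x - y‖ ^ (-(q + 4)) = ‖x - y‖ ^ (-(q + 2)) := by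
        rw [← Real.rpow_natCast, ← Real.rpow_add hpos]
        congr 1; push_cast; ring
      rw [h5, h3]
  rw [h4, nsmul_eq_mul] at h3
  have h5 : ((n:ℝ) - (q + 2)) * ∫ y, w y * ‖x - y‖ ^ (-(q + 2)) = 0 := by
    rw [sub_mul]; exact h3
  rcases mul_eq_zero.1 h5 with h | h
  · exfalso; linarith
  · exact h

end Pool.Agent.H305R3.FC
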