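import Mathlib
import Pool.Agent.H305R3.FC0

set_option autoImplicit false

open Set Filter Topology Metric MeasureTheory

namespace Pool.Agent.H305R3.FC

variable {n : ℕ}

/-- auxiliary continuous function -/
noncomputable def psi (p : ℝ) (t : ℝ) : ℝ := if t ≤ 0 then 0 else t ^ (-(p / 2)) * Real.exp (-t⁻¹)

theorem psi_pos {p t : ℝ} (ht : 0 < t) : psi p t = t ^ (-(p / 2)) * Real.exp (-t⁻¹) :=
  if_neg (not_le.2 ht)

theorem continuous_psi (p : ℝ) : Continuous (psi p) := by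
  rw [continuous_iff_continuousAt]
  intro t
  rcases lt_trichotomy t 0 with ht | ht | ht
  · have : psi p =ᶠ[𝓝 t] fun _ => 0 := by
      filter_upwards [Iio_mem_nhds ht] with s hs
      exact if_pos (le_of_lt hs)
    exact (continuousAt_const).congr this.symm
  · subst ht
    have h0 : psi p 0 = 0 := if_pos le_rfl
    have key : Tendsto (psi p) (𝓝[≤] (0:ℝ) ⊔ 𝓝[>] (0:ℝ)) (𝓝 0) := by
      rw [tendsto_sup]
      constructor
      · refine tendsto_const_nhds.congr' ?_
        filter_upwards [self_mem_nhdsWithin] with s hs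
        exact (if_pos hs).symm
      · have h1 : Tendsto (fun x : ℝ => x ^ (p / 2) * Real.exp (-1 * x)) atTop (𝓝 0) :=
          tendsto_rpow_mul_exp_neg_mul_atTop_nhds_zero (p / 2) 1 one_pos
        have h2 := h1.comp tendsto_inv_nhdsGT_zero
        refine h2.congr' ?_
        filter_upwards [self_mem_nhdsWithin] with s hs
        have hs' : 0 < s := hs
        rw [psi_pos hs']
        simp only [Function.comp]
        rw [Real.inv_rpow hs'.le, Real.rpow_neg hs'.le, neg_one_mul]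
    rw [nhdsLE_sup_nhdsGT] at key
    rw [ContinuousAt, h0]
    exact key
  · have : psi p =ᶠ[𝓝 t] fun s => s ^ (-(p / 2)) * Real.exp (-s⁻¹) := by
      filter_upwards [Ioi_mem_nhds ht] with s hs
      exact psi_pos hs
    refine ContinuousAt.congr ?_ this.symm
    have h1 : ContinuousAt (fun s : ℝ => s ^ (-(p / 2))) t :=
      Real.continuousAt_rpow_const t _ (Or.inl ht.ne')
    have h2 : ContinuousAt (fun s : ℝ => Real.exp (-s⁻¹)) t :=
      (Real.continuous_exp.continuousAt).comp ((continuousAt_inv₀ ht.ne').neg)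
    exact h1.mul h2

variable {w : E n → ℝ} {x0 : E n} {δ p : ℝ}

theorem integrable_pow (hw : AEStronglyMeasurable w volume) (hδ : 0 < δ) (hp : 0 < p)
    (hw0 : ∀ y ∈ ball x0 (2 * δ), w y = 0)
    (hint : Integrable (fun y => w y * ‖y - x0‖ ^ (-p)) volume)
    {q : ℝ} (hpq : p ≤ q) {x : E n} (hx : x ∈ ball x0 δ) :
    Integrable (fun y => w y * ‖x - y‖ ^ (-q)) volume := by
  obtain ⟨C, hC, hdom⟩ := dom_rpow (n := n) hδ hp hpq x0
  refine Integrable.mono' (hint.norm.const_mul C) (hw.mul (by fun_prop : Measurable fun y =>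
    ‖x - y‖ ^ (-q)).aestronglyMeasurable) (Eventually.of_forall fun y => ?_)
  by_cases hy : y ∈ ball x0 (2 * δ)
  · rw [hw0 y hy]; simp
  · rw [norm_mul, norm_mul, Real.norm_of_nonneg (Real.rpow_nonneg (norm_nonneg _) _),
      Real.norm_of_nonneg (Real.rpow_nonneg (norm_nonneg _) _)]
    have h1 := hdom x hx y hy
    have h2 := mul_le_mul_of_nonneg_left h1 (norm_nonneg (w y))
    linarith

theorem all_pow (hw : AEStronglyMeasurable w volume) (hδ : 0 < δ) (hp : 0 < p)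
    (hpn : (n : ℝ) < p + 2)
    (hw0 : ∀ y ∈ ball x0 (2 * δ), w y = 0)
    (hint : Integrable (fun y => w y * ‖y - x0‖ ^ (-p)) volume)
    (hF : ∀ x ∈ ball x0 δ, ∫ y, w y * ‖x - y‖ ^ (-p) = 0) (j : ℕ) :
    ∀ x ∈ ball x0 δ, ∫ y, w y * ‖x - y‖ ^ (-(p + 2 * j)) = 0 := by
  induction j with
  | zero => simpa using hF
  | succ j ih =>
    have h := raise hw hδ hp hpn hw0 hint (q := p + 2 * j)
      (by have : (0:ℝ) ≤ j := Nat.cast_nonneg j; linarith) ih
    intro x hx
    have h1 := h x hx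
    have e : -(p + 2 * (j:ℝ) + 2) = -(p + 2 * ((j + 1 : ℕ) : ℝ)) := by push_cast; ring
    rw [e] at h1
    exact h1

theorem gauss_zero (hw : AEStronglyMeasurable w volume) (hδ : 0 < δ) (hp : 0 < p)
    (hpn : (n : ℝ) < p + 2)
    (hw0 : ∀ y ∈ ball x0 (2 * δ), w y = 0)
    (hint : Integrable (fun y => w y * ‖y - x0‖ ^ (-p)) volume)
    (hF : ∀ x ∈ ball x0 δ, ∫ y, w y * ‖x - y‖ ^ (-p) = 0) :
    ∀ x ∈ ball x0 δ, ∫ y, w y * Real.exp (-‖x - y‖ ^ 2) = 0 := by
  intro x hx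
  have hI : ∀ j : ℕ, Integrable (fun y => w y * ‖x - y‖ ^ (-(p + 2 * (j:ℝ)))) volume := fun j =>
    integrable_pow hw hδ hp hw0 hint (by have : (0:ℝ) ≤ j := Nat.cast_nonneg j; linarith) hx
  have hI0 : Integrable (fun y => w y * ‖x - y‖ ^ (-p)) volume :=
    integrable_pow hw hδ hp hw0 hint le_rfl hx
  -- powers
  have hpow : ∀ (j : ℕ) (y : E n), w y * ‖x - y‖ ^ (-p) * ((‖x - y‖ ^ 2)⁻¹) ^ j =
      w y * ‖x - y‖ ^ (-(p + 2 * (j:ℝ))) := by
    intro j y
    by_cases hy : y ∈ ball x0 (2 * δ)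
    · rw [hw0 y hy]; simp
    · have hpos : 0 < ‖x - y‖ := by linarith [(dom_norm hx hy).2.1]
      rw [mul_assoc]
      congr 1
      rw [← inv_pow, ← pow_mul, ← Real.rpow_natCast, Real.inv_rpow hpos.le,
        ← Real.rpow_neg hpos.le, ← Real.rpow_add hpos]
      congr 1
      push_cast
      ring
  have hpoly : ∀ P : Polynomial ℝ, Integrable (fun y => w y * ‖x - y‖ ^ (-p) *
      P.eval ((‖x - y‖ ^ 2)⁻¹)) volume ∧
      ∫ y, w y * ‖x - y‖ ^ (-p) * P.eval ((‖x - y‖ ^ 2)⁻¹) = 0 := by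
    intro P
    induction P using Polynomial.induction_on' with
    | add P Q hP hQ =>
      have e : (fun y => w y * ‖x - y‖ ^ (-p) * (P + Q).eval ((‖x - y‖ ^ 2)⁻¹)) =
          fun y => w y * ‖x - y‖ ^ (-p) * P.eval ((‖x - y‖ ^ 2)⁻¹) +
            w y * ‖x - y‖ ^ (-p) * Q.eval ((‖x - y‖ ^ 2)⁻¹) := by
        funext y
        rw [Polynomial.eval_add]; ring
      rw [e]
      refine ⟨hP.1.add hQ.1, ?_⟩
      rw [integral_add hP.1 hQ.1, hP.2, hQ.2, add_zero]
    | monomial j c =>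
      have e : (fun y => w y * ‖x - y‖ ^ (-p) *
          (Polynomial.monomial j c).eval ((‖x - y‖ ^ 2)⁻¹)) =
          fun y => c * (w y * ‖x - y‖ ^ (-(p + 2 * (j:ℝ)))) := by
        funext y
        rw [Polynomial.eval_monomial, ← hpow j y]; ring
      rw [e]
      refine ⟨(hI j).const_mul c, ?_⟩
      rw [integral_const_mul, all_pow hw hδ hp hpn hw0 hint hF j x hx, mul_zero]
  -- Weierstrass
  have hψ : (fun y => w y * Real.exp (-‖x - y‖ ^ 2)) =
      fun y => w y * ‖x - y‖ ^ (-p) * psi p ((‖x - y‖ ^ 2)⁻¹) := by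
    funext y
    by_cases hy : y ∈ ball x0 (2 * δ)
    · rw [hw0 y hy]; simp
    · have hpos : 0 < ‖x - y‖ := by linarith [(dom_norm hx hy).2.1]
      have e1 : ((‖x - y‖ ^ 2)⁻¹) ^ (-(p / 2)) = ‖x - y‖ ^ p := by
        rw [Real.inv_rpow (by positivity), ← Real.rpow_neg (by positivity), neg_neg,
          ← Real.rpow_natCast, ← Real.rpow_mul hpos.le]
        congr 1; push_cast; ring
      rw [psi_pos (by positivity), inv_inv, mul_assoc, e1]
      congr 1
      rw [← mul_assoc, ← Real.rpow_add hpos, neg_add_cancel, Real.rpow_zero, one_mul]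
  rw [hψ]
  set T : ℝ := (δ ^ 2)⁻¹ with hT
  have hrange : ∀ y, w y ≠ 0 → (‖x - y‖ ^ 2)⁻¹ ∈ Icc (0:ℝ) T := by
    intro y hy
    have hy' : y ∉ ball x0 (2 * δ) := fun h => hy (hw0 y h)
    have h1 := (dom_norm hx hy').2.1
    refine ⟨by positivity, ?_⟩
    rw [hT]
    apply inv_anti₀ (by positivity)
    exact pow_le_pow_left₀ hδ.le h1 2
  set A : ℝ := ∫ y, ‖w y * ‖x - y‖ ^ (-p)‖ with hA
  have hA0 : 0 ≤ A := integral_nonneg fun y => norm_nonneg _
  have hbound : ∀ ε > 0, ‖∫ y, w y * ‖x - y‖ ^ (-p) * psi p ((‖x - y‖ ^ 2)⁻¹)‖ ≤ ε * A := by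
    intro ε hε
    obtain ⟨P, hP⟩ := exists_polynomial_near_of_continuousOn 0 T (psi p)
      (continuous_psi p).continuousOn ε hε
    have hle : ∀ y, ‖w y * ‖x - y‖ ^ (-p) * psi p ((‖x - y‖ ^ 2)⁻¹) -
        w y * ‖x - y‖ ^ (-p) * P.eval ((‖x - y‖ ^ 2)⁻¹)‖ ≤ ε * ‖w y * ‖x - y‖ ^ (-p)‖ := by
      intro y
      by_cases hy : w y = 0
      · rw [hy]; simp
      · have h1 := hP _ (hrange y hy)
        rw [← mul_sub, norm_mul, mul_comm]
        apply mul_le_mul_of_nonneg_right _ (norm_nonneg _)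
        rw [Real.norm_eq_abs, abs_sub_comm]
        exact h1.le
    have hint1 : Integrable (fun y => w y * ‖x - y‖ ^ (-p) * psi p ((‖x - y‖ ^ 2)⁻¹) -
        w y * ‖x - y‖ ^ (-p) * P.eval ((‖x - y‖ ^ 2)⁻¹)) volume := by
      refine Integrable.mono' (hI0.norm.const_mul ε) ?_ (Eventually.of_forall hle)
      have hcψ := (continuous_psi p).measurable
      have hcP : Measurable fun t : ℝ => P.eval t := P.continuous.measurable
      have m1 : Measurable fun y : E n => (‖x - y‖ ^ 2)⁻¹ := by fun_prop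
      exact (hI0.aestronglyMeasurable.mul (hcψ.comp m1).aestronglyMeasurable).sub
        (hI0.aestronglyMeasurable.mul (hcP.comp m1).aestronglyMeasurable)
    have h1 : ∫ y, w y * ‖x - y‖ ^ (-p) * psi p ((‖x - y‖ ^ 2)⁻¹) =
        ∫ y, (w y * ‖x - y‖ ^ (-p) * psi p ((‖x - y‖ ^ 2)⁻¹) -
        w y * ‖x - y‖ ^ (-p) * P.eval ((‖x - y‖ ^ 2)⁻¹)) := by
      have h2 := integral_add hint1 (hpoly P).1
      rw [(hpoly P).2, add_zero] at h2
      rw [← h2]
      congr 1
      funext y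
      ring
    rw [h1]
    refine (norm_integral_le_integral_norm _).trans ?_
    rw [hA, ← integral_const_mul]
    exact integral_mono hint1.norm (hI0.norm.const_mul ε) hle
  have h0 : ‖∫ y, w y * ‖x - y‖ ^ (-p) * psi p ((‖x - y‖ ^ 2)⁻¹)‖ ≤ 0 := by
    apply le_of_forall_pos_le_add
    intro ε hε
    have h1 := hbound (ε / (A + 1)) (by positivity)
    refine h1.trans ?_
    rw [zero_add, div_mul_eq_mul_div, div_le_iff₀ (by positivity)]
    nlinarith
  exact norm_le_zero_iff.1 h0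

end Pool.Agent.H305R3.FC
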