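import Mathlib
import Pool.Agent.H305R3.FC1

set_option autoImplicit false

open Set Filter Topology Metric MeasureTheory

namespace Pool.Agent.H305R3.FC

variable {n : ℕ} {w : E n → ℝ} {x0 : E n} {δ p : ℝ}

theorem bound_exp (hp : 0 < p) (A : ℝ) {r : ℝ} (hr : 0 < r) :
    Real.exp (-r ^ 2 + A * r) ≤ Real.exp ((A + p) ^ 2 / 4) * r ^ (-p) := by
  have h1 : r ^ p ≤ Real.exp (p * r) := by
    have h2 : r ≤ Real.exp r := by linarith [Real.add_one_le_exp r]
    calc r ^ p ≤ (Real.exp r) ^ p := Real.rpow_le_rpow hr.le h2 hp.le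
      _ = Real.exp (p * r) := by rw [← Real.exp_mul, mul_comm]
  have h3 : 0 < r ^ p := Real.rpow_pos_of_pos hr p
  rw [Real.rpow_neg hr.le, ← div_eq_mul_inv, le_div_iff₀ h3]
  calc Real.exp (-r ^ 2 + A * r) * r ^ p ≤ Real.exp (-r ^ 2 + A * r) * Real.exp (p * r) :=
        mul_le_mul_of_nonneg_left h1 (Real.exp_pos _).le
    _ = Real.exp (-r ^ 2 + A * r + p * r) := by rw [← Real.exp_add]
    _ ≤ Real.exp ((A + p) ^ 2 / 4) := by
        apply Real.exp_le_exp.2
        nlinarith [sq_nonneg (r - (A + p) / 2)]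

theorem integrable_exp (hw : AEStronglyMeasurable w volume) (hδ : 0 < δ) (hp : 0 < p)
    (hw0 : ∀ y ∈ ball x0 (2 * δ), w y = 0)
    (hint : Integrable (fun y => w y * ‖y - x0‖ ^ (-p)) volume) (A : ℝ) :
    Integrable (fun y => w y * Real.exp (-‖y - x0‖ ^ 2 + A * ‖y - x0‖)) volume := by
  refine Integrable.mono' (hint.norm.const_mul (Real.exp ((A + p) ^ 2 / 4)))
    (hw.mul (by fun_prop : Measurable fun y : E n =>
      Real.exp (-‖y - x0‖ ^ 2 + A * ‖y - x0‖)).aestronglyMeasurable)
    (Eventually.of_forall fun y => ?_)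
  by_cases hy : y ∈ ball x0 (2 * δ)
  · rw [hw0 y hy]; simp
  · rw [mem_ball, dist_eq_norm, not_lt] at hy
    have hpos : 0 < ‖y - x0‖ := by linarith
    rw [norm_mul, norm_mul, Real.norm_of_nonneg (Real.exp_pos _).le,
      Real.norm_of_nonneg (Real.rpow_nonneg (norm_nonneg _) _)]
    have h1 := bound_exp hp A hpos
    have h2 := mul_le_mul_of_nonneg_left h1 (norm_nonneg (w y))
    linarith

theorem gauss_unique (hw : AEStronglyMeasurable w volume) (hδ : 0 < δ) (hp : 0 < p)
    (hw0 : ∀ y ∈ ball x0 (2 * δ), w y = 0)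
    (hint : Integrable (fun y => w y * ‖y - x0‖ ^ (-p)) volume)
    (hG : ∀ x ∈ ball x0 δ, ∫ y, w y * Real.exp (-‖x - y‖ ^ 2) = 0) : w =ᵐ[volume] 0 := by
  set V : E n → ℝ := fun y => w y * Real.exp (-‖y - x0‖ ^ 2) with hV
  have hVm : AEStronglyMeasurable V volume :=
    hw.mul (by fun_prop : Measurable fun y : E n => Real.exp (-‖y - x0‖ ^ 2)).aestronglyMeasurable
  have hVi : Integrable V volume := by
    have := integrable_exp hw hδ hp hw0 hint 0
    simpa using this
  -- the entire function
  have hchar : ∀ ξ : E n, ∫ y, (V y : ℂ) * Complex.exp (Complex.I * (inner ℝ ξ (y - x0) : ℝ)) = 0 := by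
    intro ξ
    set X : E n → ℝ := fun y => inner ℝ ξ (y - x0) with hX
    have hXm : Measurable X := by
      simp only [hX]
      fun_prop
    have hXle : ∀ y, |X y| ≤ ‖ξ‖ * ‖y - x0‖ := fun y => abs_real_inner_le_norm _ _
    let Φ : ℂ → ℂ := fun z => ∫ y, (V y : ℂ) * Complex.exp (z * (X y : ℝ))
    have hmeas : ∀ z : ℂ, AEStronglyMeasurable (fun y => (V y : ℂ) * Complex.exp (z * (X y : ℝ)))
        volume := by
      intro z
      refine (Complex.continuous_ofReal.comp_aestronglyMeasurable hVm).mul ?_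
      exact (by fun_prop : Measurable fun y => Complex.exp (z * (X y : ℝ))).aestronglyMeasurable
    have hnorm : ∀ (z : ℂ) (y : E n), ‖(V y : ℂ) * Complex.exp (z * (X y : ℝ))‖ ≤
        ‖w y * Real.exp (-‖y - x0‖ ^ 2 + (‖z‖ * ‖ξ‖) * ‖y - x0‖)‖ := by
      intro z y
      rw [norm_mul, Complex.norm_real, Complex.norm_exp, norm_mul]
      simp only [norm_mul, Real.norm_of_nonneg (Real.exp_pos _).le]
      rw [mul_assoc, Real.exp_add]
      apply mul_le_mul_of_nonneg_left _ (norm_nonneg _)
      apply mul_le_mul_of_nonneg_left _ (Real.exp_pos _).le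
      apply Real.exp_le_exp.2
      have h1 : (z * (X y : ℝ)).re = z.re * X y := by simp
      rw [h1]
      calc z.re * X y ≤ |z.re * X y| := le_abs_self _
        _ = |z.re| * |X y| := abs_mul _ _
        _ ≤ ‖z‖ * (‖ξ‖ * ‖y - x0‖) :=
            mul_le_mul (Complex.abs_re_le_norm z) (hXle y) (abs_nonneg _) (norm_nonneg _)
        _ = _ := by ring
    have hΦd : Differentiable ℂ Φ := by
      intro z0
      have key := hasDerivAt_integral_of_dominated_loc_of_deriv_le
        (μ := (volume : Measure (E n)))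
        (F := fun (z : ℂ) y => (V y : ℂ) * Complex.exp (z * (X y : ℝ))) (x₀ := z0)
        (s := ball z0 1)
        (bound := fun y => ‖w y * Real.exp (-‖y - x0‖ ^ 2 +
          ((‖z0‖ + 1) * ‖ξ‖ + ‖ξ‖) * ‖y - x0‖)‖)
        (F' := fun (z : ℂ) y => (V y : ℂ) * (Complex.exp (z * (X y : ℝ)) * (X y : ℝ)))
        (ball_mem_nhds z0 one_pos) (Eventually.of_forall hmeas) ?_ ?_ ?_ ?_ ?_
      · exact key.2.differentiableAt
      · exact Integrable.mono' (integrable_exp hw hδ hp hw0 hint (‖z0‖ * ‖ξ‖)).norm (hmeas z0)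
          (Eventually.of_forall fun y => hnorm z0 y)
      · refine (Complex.continuous_ofReal.comp_aestronglyMeasurable hVm).mul ?_
        exact (by fun_prop : Measurable fun y => Complex.exp (z0 * (X y : ℝ)) *
          ((X y : ℝ) : ℂ)).aestronglyMeasurable
      · refine Eventually.of_forall fun y z hz => ?_
        rw [mem_ball, dist_eq_norm] at hz
        have hzn : ‖z‖ ≤ ‖z0‖ + 1 := by
          calc ‖z‖ = ‖(z - z0) + z0‖ := by ring_nf
            _ ≤ ‖z - z0‖ + ‖z0‖ := norm_add_le _ _
            _ ≤ _ := by linarith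
        rw [← mul_assoc, norm_mul, Complex.norm_real]
        have h1 := hnorm z y
        have h2 : ‖X y‖ ≤ Real.exp (‖ξ‖ * ‖y - x0‖) := by
          rw [Real.norm_eq_abs]
          have := Real.add_one_le_exp (‖ξ‖ * ‖y - x0‖)
          linarith [hXle y]
        calc ‖(V y : ℂ) * Complex.exp (z * (X y : ℝ))‖ * ‖X y‖
            ≤ ‖w y * Real.exp (-‖y - x0‖ ^ 2 + (‖z‖ * ‖ξ‖) * ‖y - x0‖)‖ *
              Real.exp (‖ξ‖ * ‖y - x0‖) := mul_le_mul h1 h2 (norm_nonneg _) (norm_nonneg _)
          _ = ‖w y‖ * Real.exp (-‖y - x0‖ ^ 2 + (‖z‖ * ‖ξ‖ + ‖ξ‖) * ‖y - x0‖) := by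
              rw [norm_mul, Real.norm_of_nonneg (Real.exp_pos _).le, mul_assoc, ← Real.exp_add]
              congr 2
              ring
          _ ≤ ‖w y‖ * Real.exp (-‖y - x0‖ ^ 2 + ((‖z0‖ + 1) * ‖ξ‖ + ‖ξ‖) * ‖y - x0‖) := by
              apply mul_le_mul_of_nonneg_left _ (norm_nonneg _)
              apply Real.exp_le_exp.2
              have h5 : ‖z‖ * ‖ξ‖ ≤ (‖z0‖ + 1) * ‖ξ‖ :=
                mul_le_mul_of_nonneg_right hzn (norm_nonneg _)
              have h6 : (‖z‖ * ‖ξ‖ + ‖ξ‖) * ‖y - x0‖ ≤ ((‖z0‖ + 1) * ‖ξ‖ + ‖ξ‖) * ‖y - x0‖ :=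
                mul_le_mul_of_nonneg_right (by linarith) (norm_nonneg _)
              linarith
          _ = _ := by rw [norm_mul, Real.norm_of_nonneg (Real.exp_pos _).le]
      · exact (integrable_exp hw hδ hp hw0 hint _).norm
      · refine Eventually.of_forall fun y z _ => ?_
        have h1 : HasDerivAt (fun z : ℂ => z * ((X y : ℝ) : ℂ)) ((X y : ℝ) : ℂ) z := by
          simpa using (hasDerivAt_id z).mul_const ((X y : ℝ) : ℂ)
        exact (h1.cexp).const_mul _
    -- vanishing for small real t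
    have hreal : ∀ᶠ t : ℝ in 𝓝 (0:ℝ), Φ (t : ℂ) = 0 := by
      have hcont : Continuous fun t : ℝ => x0 + (t / 2) • ξ := by fun_prop
      have hnear : ∀ᶠ t in 𝓝 (0:ℝ), x0 + (t / 2) • ξ ∈ ball x0 δ :=
        (isOpen_ball.preimage hcont).mem_nhds (by simpa using hδ)
      filter_upwards [hnear] with t ht
      have h1 := hG _ ht
      have h2 : ∀ y, w y * Real.exp (-‖x0 + (t / 2) • ξ - y‖ ^ 2) =
          Real.exp (-(t ^ 2 / 4) * ‖ξ‖ ^ 2) * (V y * Real.exp (t * X y)) := by
        intro y
        have e1 : ‖x0 + (t / 2) • ξ - y‖ ^ 2 = ‖y - x0‖ ^ 2 - t * X y + (t ^ 2 / 4) * ‖ξ‖ ^ 2 := by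
          have e2 : x0 + (t / 2) • ξ - y = (t / 2) • ξ - (y - x0) := by abel
          rw [e2, norm_sub_sq_real, inner_smul_left, norm_smul, hX]
          simp only [Real.norm_eq_abs, mul_pow, sq_abs, conj_trivial]
          ring
        rw [e1, hV]
        simp only
        rw [mul_left_comm, mul_assoc, ← Real.exp_add, ← Real.exp_add]
        congr 2
        ring
      simp only [h2] at h1
      rw [integral_const_mul] at h1
      have h3 : ∫ y, V y * Real.exp (t * X y) = 0 := by
        rcases mul_eq_zero.1 h1 with h | h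
        · exact absurd h (Real.exp_pos _).ne'
        · exact h
      have h4 : Φ (t : ℂ) = ((∫ y, V y * Real.exp (t * X y) : ℝ) : ℂ) := by
        rw [← integral_complex_ofReal]
        show ∫ y, (V y : ℂ) * Complex.exp ((t : ℂ) * (X y : ℝ)) = _
        congr 1
        funext y
        push_cast
        rfl
      rw [h4, h3, Complex.ofReal_zero]
    have hfreq : ∃ᶠ z in 𝓝[≠] (0:ℂ), Φ z = 0 := by
      have h1 : ∀ᶠ t : ℝ in 𝓝[≠] (0:ℝ), Φ (t : ℂ) = 0 := hreal.filter_mono nhdsWithin_le_nhds
      have h2 : Tendsto (fun t : ℝ => (t : ℂ)) (𝓝[≠] (0:ℝ)) (𝓝[≠] (0:ℂ)) := by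
        apply tendsto_nhdsWithin_of_tendsto_nhds_of_eventually_within
        · have : Tendsto (fun t : ℝ => (t : ℂ)) (𝓝 (0:ℝ)) (𝓝 ((0:ℝ) : ℂ)) :=
            Complex.continuous_ofReal.tendsto 0
          rw [Complex.ofReal_zero] at this
          exact this.mono_left nhdsWithin_le_nhds
        · filter_upwards [self_mem_nhdsWithin] with t ht
          simpa using ht
      exact h2.frequently h1.frequently
    have hzero : EqOn Φ 0 univ :=
      AnalyticOnNhd.eqOn_zero_of_preconnected_of_frequently_eq_zero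
        (fun z _ => hΦd.analyticAt z) isPreconnected_univ (mem_univ 0) hfreq
    exact hzero (mem_univ Complex.I)
  -- two finite measures with the same characteristic function
  let fp : E n → ENNReal := fun y => ENNReal.ofReal (V y)
  let fm : E n → ENNReal := fun y => ENNReal.ofReal (-V y)
  have hfpm : AEMeasurable fp volume := hVm.aemeasurable.ennreal_ofReal
  have hfmm : AEMeasurable fm volume := hVm.aemeasurable.neg.ennreal_ofReal
  let μp : Measure (E n) := volume.withDensity fp
  let μm : Measure (E n) := volume.withDensity fm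
  have hfinp : IsFiniteMeasure μp := isFiniteMeasure_withDensity_ofReal hVi.2
  have hfinm : IsFiniteMeasure μm := isFiniteMeasure_withDensity_ofReal hVi.neg.2
  have heq : μp = μm := by
    apply Measure.ext_of_charFun
    funext ξ
    rw [charFun_apply, charFun_apply]
    have hp1 : ∫ y, Complex.exp (((inner ℝ y ξ : ℝ) : ℂ) * Complex.I) ∂μp =
        ∫ y, (fp y).toReal • Complex.exp (((inner ℝ y ξ : ℝ) : ℂ) * Complex.I) :=
      integral_withDensity_eq_integral_toReal_smul₀ hfpm
        (Eventually.of_forall fun y => ENNReal.ofReal_lt_top) _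
    have hm1 : ∫ y, Complex.exp (((inner ℝ y ξ : ℝ) : ℂ) * Complex.I) ∂μm =
        ∫ y, (fm y).toReal • Complex.exp (((inner ℝ y ξ : ℝ) : ℂ) * Complex.I) :=
      integral_withDensity_eq_integral_toReal_smul₀ hfmm
        (Eventually.of_forall fun y => ENNReal.ofReal_lt_top) _
    rw [hp1, hm1, ← sub_eq_zero]
    have hme : AEStronglyMeasurable (fun y : E n =>
        Complex.exp (((inner ℝ y ξ : ℝ) : ℂ) * Complex.I)) volume :=
      (by fun_prop : Measurable fun y : E n =>
        Complex.exp (((inner ℝ y ξ : ℝ) : ℂ) * Complex.I)).aestronglyMeasurable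
    have hnorm1 : ∀ y : E n, ‖Complex.exp (((inner ℝ y ξ : ℝ) : ℂ) * Complex.I)‖ = 1 :=
      fun y => Complex.norm_exp_ofReal_mul_I _
    have hip : Integrable (fun y => (fp y).toReal •
        Complex.exp (((inner ℝ y ξ : ℝ) : ℂ) * Complex.I)) volume := by
      refine Integrable.mono' hVi.norm ?_ (Eventually.of_forall fun y => ?_)
      · exact (hfpm.ennreal_toReal.aestronglyMeasurable).smul hme
      · rw [norm_smul, hnorm1, mul_one, Real.norm_of_nonneg ENNReal.toReal_nonneg]
        simp only [fp, ENNReal.toReal_ofReal']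
        exact max_le (le_abs_self _) (abs_nonneg _)
    have him : Integrable (fun y => (fm y).toReal •
        Complex.exp (((inner ℝ y ξ : ℝ) : ℂ) * Complex.I)) volume := by
      refine Integrable.mono' hVi.norm ?_ (Eventually.of_forall fun y => ?_)
      · exact (hfmm.ennreal_toReal.aestronglyMeasurable).smul hme
      · rw [norm_smul, hnorm1, mul_one, Real.norm_of_nonneg ENNReal.toReal_nonneg]
        simp only [fm, ENNReal.toReal_ofReal']
        exact max_le (neg_le_abs _) (abs_nonneg _)
    rw [← integral_sub hip him]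
    have h1 := hchar ξ
    have h2 : ∀ y, (fp y).toReal • Complex.exp (((inner ℝ y ξ : ℝ) : ℂ) * Complex.I) -
        (fm y).toReal • Complex.exp (((inner ℝ y ξ : ℝ) : ℂ) * Complex.I) =
        Complex.exp (((inner ℝ x0 ξ : ℝ) : ℂ) * Complex.I) * ((V y : ℂ) *
          Complex.exp (Complex.I * (inner ℝ ξ (y - x0) : ℝ))) := by
      intro y
      rw [← sub_smul]
      have e1 : (fp y).toReal - (fm y).toReal = V y := by
        simp only [fp, fm, ENNReal.toReal_ofReal']
        rcases le_total 0 (V y) with h | h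
        · rw [max_eq_left h, max_eq_right (by linarith)]; ring
        · rw [max_eq_right h, max_eq_left (by linarith)]; ring
      rw [e1, Complex.real_smul, mul_left_comm, ← Complex.exp_add]
      congr 2
      rw [inner_sub_right, real_inner_comm ξ y, real_inner_comm ξ x0]
      push_cast
      ring
    simp only [h2]
    rw [integral_const_mul, h1, mul_zero]
  have hae : fp =ᵐ[volume] fm := by
    refine (withDensity_eq_iff hfpm hfmm ?_).1 heq
    have := hfinp.measure_univ_lt_top
    rw [withDensity_apply _ MeasurableSet.univ, Measure.restrict_univ] at this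
    exact this.ne
  filter_upwards [hae] with y hy
  have hV0 : V y = 0 := by
    simp only [fp, fm] at hy
    by_contra hne
    rcases lt_or_gt_of_ne hne with h | h
    · rw [ENNReal.ofReal_of_nonpos h.le] at hy
      have := ENNReal.ofReal_pos.2 (show 0 < -V y by linarith)
      rw [← hy] at this
      exact lt_irrefl _ this
    · rw [ENNReal.ofReal_of_nonpos (show -V y ≤ 0 by linarith)] at hy
      have := ENNReal.ofReal_pos.2 h
      rw [hy] at this
      exact lt_irrefl _ this
  rcases mul_eq_zero.1 hV0 with h | h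
  · exact h
  · exact absurd h (Real.exp_pos _).ne'

/-- Antilocality, first form. -/
theorem antilocal_aux (hw : AEStronglyMeasurable w volume) (hδ : 0 < δ) (hp : 0 < p)
    (hpn : (n : ℝ) < p + 2)
    (hw0 : ∀ y ∈ ball x0 (2 * δ), w y = 0)
    (hint : Integrable (fun y => w y * ‖y - x0‖ ^ (-p)) volume)
    (hF : ∀ x ∈ ball x0 δ, ∫ y, w y * ‖x - y‖ ^ (-p) = 0) : w =ᵐ[volume] 0 :=
  gauss_unique hw hδ hp hw0 hint (gauss_zero hw hδ hp hpn hw0 hint hF)

/-- Antilocality: if `w` vanishes a.e. on a ball and its Riesz type potential of exponent `-p`,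
`p > n - 2`, vanishes a.e. near the centre, then `w` vanishes a.e. -/
theorem antilocal (hw : AEStronglyMeasurable w volume) (hδ : 0 < δ) (hp : 0 < p)
    (hpn : (n : ℝ) < p + 2)
    (hw0 : ∀ᵐ y, y ∈ ball x0 (2 * δ) → w y = 0)
    (hint : Integrable (fun y => w y * ‖y - x0‖ ^ (-p)) volume)
    (hF : ∀ᵐ x, x ∈ ball x0 δ → ∫ y, w y * ‖x - y‖ ^ (-p) = 0) : w =ᵐ[volume] 0 := by
  classical
  set w' : E n → ℝ := (ball x0 (2 * δ))ᶜ.indicator w with hw'
  have hww' : w' =ᵐ[volume] w := by
    filter_upwards [hw0] with y hy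
    by_cases h : y ∈ ball x0 (2 * δ)
    · rw [hw', indicator_of_notMem (by simpa using h), hy h]
    · rw [hw', indicator_of_mem (by simpa using h)]
  have hw'm : AEStronglyMeasurable w' volume := hw.congr hww'.symm
  have hw'0 : ∀ y ∈ ball x0 (2 * δ), w' y = 0 := by
    intro y hy
    rw [hw', indicator_of_notMem (by simpa using hy)]
  have hint' : Integrable (fun y => w' y * ‖y - x0‖ ^ (-p)) volume := by
    refine hint.congr ?_
    filter_upwards [hww'] with y hy
    rw [hy]
  have hF' : ∀ x, ∫ y, w' y * ‖x - y‖ ^ (-p) = ∫ y, w y * ‖x - y‖ ^ (-p) := by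
    intro x
    apply integral_congr_ae
    filter_upwards [hww'] with y hy
    rw [hy]
  have hcont : ContinuousOn (fun x => ∫ y, w' y * ‖x - y‖ ^ (-p)) (ball x0 δ) := by
    obtain ⟨C, hC, hdom⟩ := dom_rpow (n := n) hδ hp (le_refl p) x0
    intro x hx
    refine ContinuousAt.continuousWithinAt ?_
    apply continuousAt_of_dominated (bound := fun y => C * ‖w' y * ‖y - x0‖ ^ (-p)‖)
    · refine Eventually.of_forall fun x => ?_
      exact hw'm.mul (by fun_prop : Measurable fun y => ‖x - y‖ ^ (-p)).aestronglyMeasurable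
    · filter_upwards [isOpen_ball.mem_nhds hx] with x hx
      refine Eventually.of_forall fun y => ?_
      by_cases hy : y ∈ ball x0 (2 * δ)
      · rw [hw'0 y hy]; simp
      · rw [norm_mul, norm_mul, Real.norm_of_nonneg (Real.rpow_nonneg (norm_nonneg _) _),
          Real.norm_of_nonneg (Real.rpow_nonneg (norm_nonneg _) _)]
        have h1 := hdom x hx y hy
        have h2 := mul_le_mul_of_nonneg_left h1 (norm_nonneg (w' y))
        linarith
    · exact hint'.norm.const_mul C
    · refine Eventually.of_forall fun y => ?_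
      by_cases hy : y ∈ ball x0 (2 * δ)
      · simp only [hw'0 y hy, zero_mul]
        exact continuousAt_const
      · have hpos : 0 < ‖x - y‖ := by linarith [(dom_norm hx hy).2.1]
        refine continuousAt_const.mul ?_
        refine ContinuousAt.rpow_const ?_ (Or.inl hpos.ne')
        fun_prop
  have hall : EqOn (fun x => ∫ y, w' y * ‖x - y‖ ^ (-p)) (fun _ => (0:ℝ)) (ball x0 δ) := by
    refine Measure.eqOn_open_of_ae_eq (μ := (volume : Measure (E n))) ?_ isOpen_ball hcont
      continuousOn_const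
    rw [Filter.EventuallyEq, ae_restrict_iff' measurableSet_ball]
    filter_upwards [hF] with x hx hxb
    rw [hF' x]
    exact hx hxb
  have := antilocal_aux hw'm hδ hp hpn hw'0 hint' (fun x hx => hall hx)
  exact hww'.symm.trans this

end Pool.Agent.H305R3.FC
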