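import Pool.Agent.H305R3.FCDefs
import Pool.Agent.H305R3.FC2

set_option autoImplicit false

open Set Filter Topology Metric MeasureTheory

namespace Pool.Agent.H305R3.FC

variable {n : ℕ} {s : ℝ}

/-- truncated kernel, away from the diagonal -/
noncomputable def kap (n : ℕ) (s d : ℝ) (t : ℝ) : ℝ :=
  if d ≤ t then t ^ (-((n : ℝ) + 2 * s)) else 0

/-- regularised kernel -/
noncomputable def kmin (n : ℕ) (s : ℝ) (t : ℝ) : ℝ :=
  min (t ^ 2) 1 * t ^ (-((n : ℝ) + 2 * s))

theorem kap_nonneg {d t : ℝ} (ht : 0 ≤ t) : 0 ≤ kap n s d t := by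
  unfold kap
  split_ifs
  · positivity
  · exact le_refl _

theorem kmin_nonneg {t : ℝ} (ht : 0 ≤ t) : 0 ≤ kmin n s t := by
  unfold kmin
  positivity

theorem measurable_kap {d : ℝ} : Measurable (kap n s d) := by
  unfold kap
  exact Measurable.ite measurableSet_Ici (by fun_prop) measurable_const

theorem measurable_kmin : Measurable (kmin n s) := by
  unfold kmin
  fun_prop

theorem measurable_ker : Measurable (ker (n := n) s) := by
  unfold ker
  fun_prop

theorem ker_nonneg (p : E n × E n) : 0 ≤ ker s p := by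
  unfold ker
  positivity

theorem ker_swap (p : E n × E n) : ker s p.swap = ker s p := by
  unfold ker
  rw [Prod.fst_swap, Prod.snd_swap, norm_sub_rev]

theorem integrable_kap (hs : 0 < s) {d : ℝ} (hd : 0 < d) :
    Integrable (fun h : E n => kap n s d ‖h‖) volume := by
  have h1 : Integrable (fun h : E n => (1 + ‖h‖) ^ (-((n : ℝ) + 2 * s))) volume := by
    apply integrable_one_add_norm
    rw [finrank_euclideanSpace_fin]
    linarith
  refine (h1.const_mul ((1 / d + 1) ^ ((n : ℝ) + 2 * s))).mono'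
    (measurable_kap.comp measurable_norm).aestronglyMeasurable (Eventually.of_forall fun h => ?_)
  rw [Real.norm_of_nonneg (kap_nonneg (norm_nonneg _))]
  unfold kap
  split_ifs with hh
  · have hpos : 0 < ‖h‖ := by linarith
    have h2 : (1 + ‖h‖) ≤ (1 / d + 1) * ‖h‖ := by
      have : 1 ≤ 1 / d * ‖h‖ := by
        rw [one_div, inv_mul_eq_div, le_div_iff₀ hd]
        linarith
      linarith
    have h3 : ((1 / d + 1) * ‖h‖) ^ (-((n : ℝ) + 2 * s)) ≤ (1 + ‖h‖) ^ (-((n : ℝ) + 2 * s)) :=
      Real.rpow_le_rpow_of_nonpos (by positivity) h2 (by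
        have : (0:ℝ) ≤ n := n.cast_nonneg
        linarith)
    rw [Real.mul_rpow (by positivity) hpos.le] at h3
    calc ‖h‖ ^ (-((n : ℝ) + 2 * s)) = (1 / d + 1) ^ ((n : ℝ) + 2 * s) *
        ((1 / d + 1) ^ (-((n : ℝ) + 2 * s)) * ‖h‖ ^ (-((n : ℝ) + 2 * s))) := by
          rw [← mul_assoc, ← Real.rpow_add (by positivity)]
          simp
      _ ≤ _ := mul_le_mul_of_nonneg_left h3 (by positivity)
  · positivity

theorem integrable_kmin (hn : 1 ≤ n) (hs : 0 < s) (hs1 : s < 1) :
    Integrable (fun h : E n => kmin n s ‖h‖) volume := by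
  have hm : AEStronglyMeasurable (fun h : E n => kmin n s ‖h‖) volume :=
    (measurable_kmin.comp measurable_norm).aestronglyMeasurable
  have h1 : IntegrableOn (fun h : E n => kmin n s ‖h‖) (ball 0 1) volume := by
    refine integrableOn_ball_of_norm_le_rpow (C := 1) (α := (n : ℝ) + 2 * s - 2)
      (by rw [finrank_euclideanSpace_fin]; exact hn)
      (by rw [finrank_euclideanSpace_fin]; linarith) (Eventually.of_forall fun h => ?_) hm
    rw [Real.norm_of_nonneg (kmin_nonneg (norm_nonneg _)), one_mul]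
    unfold kmin
    rcases eq_or_lt_of_le (norm_nonneg h) with h0 | h0
    · rw [← h0]
      simp
      positivity
    · calc min (‖h‖ ^ 2) 1 * ‖h‖ ^ (-((n : ℝ) + 2 * s)) ≤ ‖h‖ ^ (2 : ℝ) * ‖h‖ ^ (-((n : ℝ) + 2 * s)) := by
            apply mul_le_mul_of_nonneg_right _ (by positivity)
            rw [Real.rpow_two]
            exact min_le_left _ _
        _ = ‖h‖ ^ (-((n : ℝ) + 2 * s - 2)) := by
            rw [← Real.rpow_add h0]
            congr 1
            ring
  have h2 : IntegrableOn (fun h : E n => kmin n s ‖h‖) (ball 0 1)ᶜ volume := by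
    refine (integrable_kap (n := n) hs one_pos).integrableOn.congr_fun ?_
      measurableSet_ball.compl
    intro h hh
    have : 1 ≤ ‖h‖ := by simpa using hh
    simp only [kap, kmin]
    rw [if_pos this, min_eq_right (by nlinarith), one_mul]
  rw [← integrableOn_univ, ← union_compl_self (ball (0 : E n) 1)]
  exact h1.union h2

/-- product integrability of `G(x) κ(|x-y|)` -/
theorem integrable_conv {G : E n → ℝ} (hG : Integrable G volume) {κ : ℝ → ℝ}
    (hκm : Measurable κ) (hκ : Integrable (fun h : E n => κ ‖h‖) volume) :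
    Integrable (fun p : E n × E n => G p.1 * κ ‖p.1 - p.2‖) (volume.prod volume) ∧
    ∫ p : E n × E n, G p.1 * κ ‖p.1 - p.2‖ ∂(volume.prod volume) =
      (∫ x, G x) * ∫ h : E n, κ ‖h‖ := by
  have hmp := measurePreserving_prod_sub (volume : Measure (E n)) (volume : Measure (E n))
  have h1 : Integrable (fun p : E n × E n => G p.1 * κ ‖p.2‖) (volume.prod volume) :=
    hG.mul_prod hκ
  have h2 : (fun p : E n × E n => G p.1 * κ ‖p.1 - p.2‖) =
      (fun p : E n × E n => G p.1 * κ ‖p.2‖) ∘ (fun z : E n × E n => (z.1, z.2 - z.1)) := by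
    funext p
    simp only [Function.comp]
    rw [norm_sub_rev]
  constructor
  · rw [h2]
    exact hmp.integrable_comp_of_integrable h1
  · have h3 : ∫ p, (fun p : E n × E n => G p.1 * κ ‖p.2‖) p ∂(Measure.map
        (fun z : E n × E n => (z.1, z.2 - z.1)) (volume.prod volume)) =
        ∫ z, (fun p : E n × E n => G p.1 * κ ‖p.2‖) ((fun z : E n × E n => (z.1, z.2 - z.1)) z)
          ∂(volume.prod volume) :=
      integral_map hmp.measurable.aemeasurable (by rw [hmp.map_eq]; exact h1.1)
    rw [h2]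
    rw [hmp.map_eq] at h3
    exact h3.symm.trans (integral_prod_mul G (fun h : E n => κ ‖h‖))

/-- the swap of variables -/
theorem integral_swap' {H : E n × E n → ℝ} :
    ∫ p, H p.swap ∂(volume.prod volume) = ∫ p, H p ∂(volume.prod volume) := by
  exact integral_prod_swap H

theorem integrable_swap' {H : E n × E n → ℝ} (h : Integrable H (volume.prod volume)) :
    Integrable (fun p => H p.swap) ((volume : Measure (E n)).prod (volume : Measure (E n))) := by
  exact h.swap

theorem ae_fst {P : E n → Prop} (h : ∀ᵐ x ∂(volume : Measure (E n)), P x) :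
    ∀ᵐ p : E n × E n ∂(volume.prod volume), P p.1 :=
  Measure.quasiMeasurePreserving_fst.ae h

theorem ae_snd {P : E n → Prop} (h : ∀ᵐ x ∂(volume : Measure (E n)), P x) :
    ∀ᵐ p : E n × E n ∂(volume.prod volume), P p.2 :=
  Measure.quasiMeasurePreserving_snd.ae h

/-- The basic estimate for separated supports. -/
theorem sep_bound (hs : 0 < s) {G w w1 : E n → ℝ} (hG : Integrable G volume)
    (hw : AEStronglyMeasurable w volume) (hw1 : Integrable w1 volume) {T : ℝ}
    (hww : ∀ᵐ y ∂(volume : Measure (E n)), |w y| ≤ w1 y + T)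
    (hw1n : ∀ y, 0 ≤ w1 y) (hT : 0 ≤ T) {d : ℝ} (hd : 0 < d)
    (hsep : ∀ᵐ p : E n × E n ∂(volume.prod volume), G p.1 ≠ 0 → w p.2 ≠ 0 → d ≤ ‖p.1 - p.2‖) :
    Integrable (fun p : E n × E n => G p.1 * w p.2 * ker s p) (volume.prod volume) ∧
    |∫ p : E n × E n, G p.1 * w p.2 * ker s p ∂(volume.prod volume)| ≤
      (∫ x, |G x|) * (d ^ (-((n : ℝ) + 2 * s)) * (∫ y, w1 y) + T * ∫ h : E n, kap n s d ‖h‖) := by
  have hk := integrable_conv hG.abs (measurable_kap (n := n) (s := s) (d := d))
    (integrable_kap (n := n) hs hd)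
  have hprod : Integrable (fun p : E n × E n => |G p.1| * w1 p.2) (volume.prod volume) :=
    hG.abs.mul_prod hw1
  have hbd : Integrable (fun p : E n × E n =>
      d ^ (-((n : ℝ) + 2 * s)) * (|G p.1| * w1 p.2) + T * (|G p.1| * kap n s d ‖p.1 - p.2‖))
      (volume.prod volume) := (hprod.const_mul _).add (hk.1.const_mul _)
  have hle : ∀ᵐ p : E n × E n ∂(volume.prod volume), ‖G p.1 * w p.2 * ker s p‖ ≤
      d ^ (-((n : ℝ) + 2 * s)) * (|G p.1| * w1 p.2) + T * (|G p.1| * kap n s d ‖p.1 - p.2‖) := by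
    filter_upwards [hsep, ae_snd hww] with p hp1 hp2
    have hn0 : (0:ℝ) ≤ n := n.cast_nonneg
    by_cases hG0 : G p.1 = 0
    · rw [hG0]; simp
    by_cases hw0 : w p.2 = 0
    · rw [hw0]; simp only [mul_zero, zero_mul, norm_zero]
      have := kap_nonneg (n := n) (s := s) (d := d) (norm_nonneg (p.1 - p.2))
      have := hw1n p.2
      positivity
    have hdd := hp1 hG0 hw0
    have hkap : kap n s d ‖p.1 - p.2‖ = ker s p := by
      unfold kap ker
      rw [if_pos hdd]
    rw [hkap, norm_mul, norm_mul, Real.norm_of_nonneg (ker_nonneg p), Real.norm_eq_abs,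
      Real.norm_eq_abs]
    have hker : ker s p ≤ d ^ (-((n : ℝ) + 2 * s)) :=
      Real.rpow_le_rpow_of_nonpos hd hdd (by linarith)
    have h0 := ker_nonneg (s := s) p
    calc |G p.1| * |w p.2| * ker s p ≤ |G p.1| * (w1 p.2 + T) * ker s p := by
          apply mul_le_mul_of_nonneg_right _ h0
          exact mul_le_mul_of_nonneg_left hp2 (abs_nonneg _)
      _ = (|G p.1| * w1 p.2) * ker s p + T * (|G p.1| * ker s p) := by ring
      _ ≤ _ := by
          have := mul_le_mul_of_nonneg_left hker
            (mul_nonneg (abs_nonneg (G p.1)) (hw1n p.2))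
          linarith
  have hmeas : AEStronglyMeasurable (fun p : E n × E n => G p.1 * w p.2 * ker s p)
      (volume.prod volume) :=
    (hG.1.comp_fst.mul hw.comp_snd).mul measurable_ker.aestronglyMeasurable
  have hint : Integrable (fun p : E n × E n => G p.1 * w p.2 * ker s p) (volume.prod volume) :=
    hbd.mono' hmeas hle
  refine ⟨hint, ?_⟩
  calc |∫ p : E n × E n, G p.1 * w p.2 * ker s p ∂(volume.prod volume)|
      ≤ ∫ p : E n × E n, (d ^ (-((n : ℝ) + 2 * s)) * (|G p.1| * w1 p.2) +
        T * (|G p.1| * kap n s d ‖p.1 - p.2‖)) ∂(volume.prod volume) :=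
        norm_integral_le_of_norm_le hbd hle
    _ = d ^ (-((n : ℝ) + 2 * s)) * ((∫ x, |G x|) * ∫ y, w1 y) +
        T * ((∫ x, |G x|) * ∫ h : E n, kap n s d ‖h‖) := by
        rw [integral_add (hprod.const_mul _) (hk.1.const_mul _), integral_const_mul,
          integral_const_mul, hk.2, integral_prod_mul (fun x => |G x|) w1]
    _ = _ := by ring

end Pool.Agent.H305R3.FC
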