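import Pool.Agent.H305R3.FC3

set_option autoImplicit false

open Set Filter Topology Metric MeasureTheory

namespace Pool.Agent.H305R3.FC

variable {n : ℕ} {s : ℝ}

/-- a measurable weight with everywhere bounds -/
structure Wt (a : E n → ℝ) (m M : ℝ) : Prop where
  meas : Measurable a
  pos : 0 < m
  lo : ∀ x, m ≤ a x
  hi : ∀ x, a x ≤ M

theorem Wt.nonneg {a : E n → ℝ} {m M : ℝ} (h : Wt a m M) (x : E n) : 0 < a x :=
  lt_of_lt_of_le h.pos (h.lo x)

theorem Wt.Mpos {a : E n → ℝ} {m M : ℝ} (h : Wt a m M) : 0 < M :=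
  lt_of_lt_of_le (h.nonneg 0) (h.hi 0)

theorem exists_wt {γ : E n → ℝ} (h : Elliptic γ) :
    ∃ (a : E n → ℝ) (m M : ℝ), Wt a m M ∧ ∀ᵐ x ∂(volume : Measure (E n)), √(γ x) = a x := by
  obtain ⟨hm, c, b, hc, hcb, hb⟩ := h
  set γ' := hm.mk γ with hγ'
  refine ⟨fun x => √(max c (min (γ' x) b)), √c, √b, ⟨?_, Real.sqrt_pos.2 hc, ?_, ?_⟩, ?_⟩
  · have : Measurable γ' := hm.stronglyMeasurable_mk.measurable
    fun_prop
  · intro x
    exact Real.sqrt_le_sqrt (le_max_left _ _)
  · intro x
    exact Real.sqrt_le_sqrt (max_le hcb.le (min_le_right _ _))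
  · filter_upwards [hb, hm.ae_eq_mk] with x hx hx2
    show √(γ x) = √(max c (min (hm.mk γ x) b))
    rw [← hx2, min_eq_left hx.2, max_eq_right hx.1]

/-- the bilinear form without the constant -/
noncomputable def Bf (s : ℝ) (a u v : E n → ℝ) : ℝ :=
  ∫ p, a p.1 * a p.2 * ((u p.1 - u p.2) * (v p.1 - v p.2)) * ker s p ∂(volume.prod volume)

theorem Bform_eq {γ a : E n → ℝ} (h : ∀ᵐ x ∂(volume : Measure (E n)), √(γ x) = a x)
    (u v : E n → ℝ) : Bform s γ u v = fracConst n s / 2 * Bf s a u v := by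
  unfold Bform Bf
  congr 1
  apply integral_congr_ae
  filter_upwards [ae_fst h, ae_snd h] with p h1 h2
  rw [h1, h2]

theorem Bf_symm {a u v : E n → ℝ} : Bf s a u v = Bf s a v u := by
  unfold Bf
  congr 1
  funext p
  ring

theorem aesm_diff {u : E n → ℝ} (hu : AEStronglyMeasurable u volume) :
    AEStronglyMeasurable (fun p : E n × E n => u p.1 - u p.2) (volume.prod volume) :=
  hu.comp_fst.sub hu.comp_snd

theorem integrable_Bf {a : E n → ℝ} {m M : ℝ} (ha : Wt a m M) {u v : E n → ℝ}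
    (hu : MemHs s u) (hv : MemHs s v) :
    Integrable (fun p : E n × E n =>
      a p.1 * a p.2 * ((u p.1 - u p.2) * (v p.1 - v p.2)) * ker s p) (volume.prod volume) := by
  refine ((hu.2.add hv.2).const_mul (M * M)).mono' ?_ (Eventually.of_forall fun p => ?_)
  · refine ((((ha.meas.comp measurable_fst).mul (ha.meas.comp measurable_snd)).aestronglyMeasurable).mul
      ((aesm_diff hu.1.1).mul (aesm_diff hv.1.1))).mul measurable_ker.aestronglyMeasurable
  · have h0 := ker_nonneg (s := s) p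
    rw [norm_mul, Real.norm_of_nonneg h0, norm_mul, Real.norm_of_nonneg
      (mul_nonneg (ha.nonneg _).le (ha.nonneg _).le), Real.norm_eq_abs]
    have h1 : a p.1 * a p.2 ≤ M * M :=
      mul_le_mul (ha.hi _) (ha.hi _) (ha.nonneg _).le ha.Mpos.le
    have h2 : |(u p.1 - u p.2) * (v p.1 - v p.2)| ≤ (u p.1 - u p.2) ^ 2 + (v p.1 - v p.2) ^ 2 := by
      rw [abs_le]
      constructor
      · nlinarith [sq_nonneg (u p.1 - u p.2 + (v p.1 - v p.2)), sq_nonneg (u p.1 - u p.2),
          sq_nonneg (v p.1 - v p.2)]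
      · nlinarith [sq_nonneg (u p.1 - u p.2 - (v p.1 - v p.2)), sq_nonneg (u p.1 - u p.2),
          sq_nonneg (v p.1 - v p.2)]
    have h3 : a p.1 * a p.2 * |(u p.1 - u p.2) * (v p.1 - v p.2)| ≤
        M * M * ((u p.1 - u p.2) ^ 2 + (v p.1 - v p.2) ^ 2) :=
      mul_le_mul h1 h2 (abs_nonneg _) (mul_self_nonneg _)
    have h4 := mul_le_mul_of_nonneg_right h3 h0
    simp only [Pi.add_apply]
    linarith

theorem MemHs.sub {u v : E n → ℝ} (hu : MemHs s u) (hv : MemHs s v) :
    MemHs s (fun x => u x - v x) := by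
  refine ⟨hu.1.sub hv.1, ?_⟩
  refine ((hu.2.add hv.2).const_mul 2).mono' ?_ (Eventually.of_forall fun p => ?_)
  · exact ((aesm_diff (hu.1.sub hv.1).1).pow 2).mul measurable_ker.aestronglyMeasurable
  · have h0 := ker_nonneg (s := s) p
    rw [Real.norm_of_nonneg (mul_nonneg (sq_nonneg _) h0)]
    simp only [Pi.add_apply]
    nlinarith [mul_nonneg (sq_nonneg (u p.1 - u p.2 + (v p.1 - v p.2))) h0]

theorem MemHs.add {u v : E n → ℝ} (hu : MemHs s u) (hv : MemHs s v) :
    MemHs s (fun x => u x + v x) := by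
  refine ⟨hu.1.add hv.1, ?_⟩
  refine ((hu.2.add hv.2).const_mul 2).mono' ?_ (Eventually.of_forall fun p => ?_)
  · exact ((aesm_diff (hu.1.add hv.1).1).pow 2).mul measurable_ker.aestronglyMeasurable
  · have h0 := ker_nonneg (s := s) p
    rw [Real.norm_of_nonneg (mul_nonneg (sq_nonneg _) h0)]
    simp only [Pi.add_apply]
    nlinarith [mul_nonneg (sq_nonneg (u p.1 - u p.2 - (v p.1 - v p.2))) h0]

theorem Bf_sub {a : E n → ℝ} {m M : ℝ} (ha : Wt a m M) {u f v : E n → ℝ}
    (hu : MemHs s u) (hf : MemHs s f) (hv : MemHs s v) :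
    Bf s a (fun x => u x - f x) v = Bf s a u v - Bf s a f v := by
  unfold Bf
  rw [← integral_sub (integrable_Bf ha hu hv) (integrable_Bf ha hf hv)]
  congr 1
  funext p
  ring

/-- test functions lie in `H^s` -/
theorem TestFun.memHs (hn : 1 ≤ n) (hs : 0 < s) (hs1 : s < 1) {U : Set (E n)} {φ : E n → ℝ}
    (h : TestFun U φ) : MemHs s φ := by
  obtain ⟨hφ, hc, -⟩ := h
  refine ⟨hφ.continuous.memLp_of_hasCompactSupport hc, ?_⟩
  obtain ⟨L, hL⟩ := hφ.lipschitzWith_of_hasCompactSupport hc (by simp)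
  obtain ⟨B, hB⟩ := hc.exists_bound_of_continuous hφ.continuous
  set K := tsupport φ with hK
  have hKc : IsCompact K := hc
  have hKm : MeasurableSet K := (isClosed_tsupport φ).measurableSet
  set G : E n → ℝ := K.indicator (fun _ => (1:ℝ)) with hG
  have hGi : Integrable G volume := by
    rw [hG, integrable_indicator_iff hKm]
    exact integrableOn_const hKc.measure_lt_top.ne
  have hG0 : ∀ x, 0 ≤ G x := fun x => indicator_nonneg (fun _ _ => zero_le_one) x
  have h1 := (integrable_conv hGi (measurable_kmin (n := n) (s := s))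
    (integrable_kmin hn hs hs1)).1
  have h2 := integrable_swap' h1
  set C : ℝ := L ^ 2 + 4 * B ^ 2 with hC
  refine ((h1.add h2).const_mul C).mono' ?_ (Eventually.of_forall fun p => ?_)
  · exact ((aesm_diff hφ.continuous.aestronglyMeasurable).pow 2).mul
      measurable_ker.aestronglyMeasurable
  · have h0 := ker_nonneg (s := s) p
    rw [Real.norm_of_nonneg (mul_nonneg (sq_nonneg _) h0)]
    simp only [Pi.add_apply, Prod.fst_swap, Prod.snd_swap]
    rw [norm_sub_rev p.2 p.1]
    unfold kmin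
    have hker : ‖p.1 - p.2‖ ^ (-((n : ℝ) + 2 * s)) = ker s p := rfl
    rw [hker]
    by_cases hp1 : p.1 ∈ K ∨ p.2 ∈ K
    · have hsum : 1 ≤ G p.1 + G p.2 := by
        rcases hp1 with h | h
        · have e1 : G p.1 = 1 := indicator_of_mem h _
          have := hG0 p.2
          linarith
        · have e1 : G p.2 = 1 := indicator_of_mem h _
          have := hG0 p.1
          linarith
      have hl : |φ p.1 - φ p.2| ≤ L * ‖p.1 - p.2‖ := by
        have := hL.dist_le_mul p.1 p.2
        rwa [Real.dist_eq, dist_eq_norm] at this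
      have hb : |φ p.1 - φ p.2| ≤ 2 * B := by
        have e1 := hB p.1
        have e2 := hB p.2
        rw [Real.norm_eq_abs] at e1 e2
        have := abs_sub (φ p.1) (φ p.2)
        linarith
      have hsq1 : (φ p.1 - φ p.2) ^ 2 ≤ L ^ 2 * ‖p.1 - p.2‖ ^ 2 := by
        rw [← sq_abs]
        calc |φ p.1 - φ p.2| ^ 2 ≤ (L * ‖p.1 - p.2‖) ^ 2 := by gcongr
          _ = _ := by ring
      have hsq2 : (φ p.1 - φ p.2) ^ 2 ≤ 4 * B ^ 2 := by
        rw [← sq_abs]
        calc |φ p.1 - φ p.2| ^ 2 ≤ (2 * B) ^ 2 := by gcongr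
          _ = _ := by ring
      have hsq : (φ p.1 - φ p.2) ^ 2 ≤ C * min (‖p.1 - p.2‖ ^ 2) 1 := by
        rcases le_total (‖p.1 - p.2‖ ^ 2) 1 with h | h
        · rw [min_eq_left h]
          have : 0 ≤ 4 * B ^ 2 * ‖p.1 - p.2‖ ^ 2 := by positivity
          rw [hC]
          linarith
        · rw [min_eq_right h]
          have : (0:ℝ) ≤ (L:ℝ) ^ 2 := by positivity
          rw [hC]
          linarith
      have hX : 0 ≤ C * min (‖p.1 - p.2‖ ^ 2) 1 * ker s p := by positivity
      calc (φ p.1 - φ p.2) ^ 2 * ker s p ≤ C * min (‖p.1 - p.2‖ ^ 2) 1 * ker s p :=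
            mul_le_mul_of_nonneg_right hsq h0
        _ ≤ C * min (‖p.1 - p.2‖ ^ 2) 1 * ker s p * (G p.1 + G p.2) :=
            le_mul_of_one_le_right hX hsum
        _ = _ := by ring
    · push Not at hp1
      have e1 : φ p.1 = 0 := image_eq_zero_of_notMem_tsupport hp1.1
      have e2 : φ p.2 = 0 := image_eq_zero_of_notMem_tsupport hp1.2
      have g1 := hG0 p.1
      have g2 := hG0 p.2
      rw [e1, e2]
      simp only [sub_self, ne_eq, OfNat.ofNat_ne_zero, not_false_eq_true, zero_pow, zero_mul]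
      positivity

/-- Poincare inequality in a slab. -/
theorem poincare (hs : 0 < s) {e : E n} {c r : ℝ} (he : ‖e‖ = 1) (hr : 0 < r) :
    ∃ CP : ℝ, 0 < CP ∧ ∀ v : E n → ℝ, MemHs s v →
      (∀ᵐ x ∂(volume : Measure (E n)), ¬ (|inner ℝ e x - c| ≤ r) → v x = 0) →
      ∫ x, v x ^ 2 ≤ CP * ∫ p, (v p.1 - v p.2) ^ 2 * ker s p ∂(volume.prod volume) := by
  have hn0 : (0:ℝ) ≤ n := n.cast_nonneg
  set ω : ℝ := volume.real (ball (0 : E n) 1) with hω
  have hωpos : 0 < ω := by
    rw [hω, measureReal_def]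
    exact ENNReal.toReal_pos (measure_ball_pos _ _ one_pos).ne' measure_ball_lt_top.ne
  set κ : ℝ := (2 * r + 3) ^ (-((n : ℝ) + 2 * s)) with hκ
  have hκpos : 0 < κ := by positivity
  refine ⟨1 / (κ * ω), by positivity, fun v hv hv0 => ?_⟩
  have hfub : ∫ p, (v p.1 - v p.2) ^ 2 * ker s p ∂(volume.prod volume) =
      ∫ x, ∫ y, (v x - v y) ^ 2 * ker s (x, y) := integral_prod _ hv.2
  have hsec : ∀ᵐ x ∂(volume : Measure (E n)),
      Integrable (fun y => (v x - v y) ^ 2 * ker s (x, y)) volume := hv.2.prod_right_ae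
  have hmain : ∫ x, κ * ω * v x ^ 2 ≤ ∫ x, ∫ y, (v x - v y) ^ 2 * ker s (x, y) := by
    refine integral_mono_ae (hv.1.integrable_sq.const_mul _) hv.2.integral_prod_left ?_
    filter_upwards [hsec, hv0] with x hx hx0
    by_cases hvx : v x = 0
    · rw [hvx]
      simp only [ne_eq, OfNat.ofNat_ne_zero, not_false_eq_true, zero_pow, mul_zero]
      exact integral_nonneg fun y => mul_nonneg (sq_nonneg _) (ker_nonneg _)
    have hxs : |inner ℝ e x - c| ≤ r := by
      by_contra h
      exact hvx (hx0 h)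
    set z : E n := x + (2 * r + 2) • e with hz
    have hball : volume.real (ball z 1) = ω := by
      rw [hω, measureReal_def, measureReal_def, Measure.addHaar_ball_center]
    have hint1 : ∫ y, (ball z 1).indicator (fun _ => κ * v x ^ 2) y = κ * ω * v x ^ 2 := by
      rw [integral_indicator measurableSet_ball, setIntegral_const, hball, smul_eq_mul]
      ring
    show κ * ω * v x ^ 2 ≤ ∫ y, (v x - v y) ^ 2 * ker s (x, y)
    rw [← hint1]
    refine integral_mono_ae ?_ hx ?_
    · rw [integrable_indicator_iff measurableSet_ball]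
      exact integrableOn_const measure_ball_lt_top.ne
    · filter_upwards [hv0] with y hy
      by_cases hyb : y ∈ ball z 1
      · rw [indicator_of_mem hyb]
        rw [mem_ball, dist_eq_norm] at hyb
        have hdec : inner ℝ e y = inner ℝ e x + (2 * r + 2) + inner ℝ e (y - z) := by
          rw [hz, inner_sub_right, inner_add_right, inner_smul_right, real_inner_self_eq_norm_sq, he]
          ring
        have hin : |inner ℝ e (y - z)| ≤ 1 := by
          have := abs_real_inner_le_norm e (y - z)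
          rw [he, one_mul] at this
          linarith
        have hvy : v y = 0 := by
          apply hy
          intro hcon
          rw [abs_le] at hxs hin hcon
          linarith [hcon.1, hcon.2, hxs.1, hxs.2, hin.1, hin.2]
        have hxy : ‖x - y‖ ≤ 2 * r + 3 := by
          calc ‖x - y‖ = ‖-((2 * r + 2) • e) - (y - z)‖ := by
                congr 1
                rw [hz]
                abel
            _ ≤ ‖-((2 * r + 2) • e)‖ + ‖y - z‖ := norm_sub_le _ _
            _ ≤ (2 * r + 2) + 1 := by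
                rw [norm_neg, norm_smul, he, Real.norm_of_nonneg (by positivity)]
                linarith
            _ = _ := by ring
        have hxy0 : 0 < ‖x - y‖ := by
          rw [norm_pos_iff, sub_ne_zero]
          rintro rfl
          exact hvx hvy
        have hk : κ ≤ ker s (x, y) :=
          Real.rpow_le_rpow_of_nonpos hxy0 hxy (by linarith)
        rw [hvy, sub_zero]
        have := mul_le_mul_of_nonneg_left hk (sq_nonneg (v x))
        linarith
      · rw [indicator_of_notMem hyb]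
        exact mul_nonneg (sq_nonneg _) (ker_nonneg _)
  rw [integral_const_mul] at hmain
  rw [hfub, one_div, inv_mul_eq_div, le_div_iff₀ (by positivity)]
  linarith

/-- elements of the closure vanish outside of `Ω` -/
theorem MemHt.ae_zero {Ω : Set (E n)} (hΩ : MeasurableSet Ω) {v : E n → ℝ} (hv : MemHt s Ω v)
    (htf : ∀ φ : E n → ℝ, TestFun Ω φ → MemHs s φ) :
    ∀ᵐ x ∂(volume : Measure (E n)), x ∉ Ω → v x = 0 := by
  have hsq := hv.1.1.integrable_sq
  have hle : ∀ ε : ℝ, 0 < ε → ∫ x in Ωᶜ, v x ^ 2 ≤ ε := by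
    intro ε hε
    obtain ⟨φ, hφ, hlt⟩ := hv.2 ε hε
    have hd := (hv.1.sub (htf φ hφ))
    have hdsq := hd.1.integrable_sq
    have h1 : ∫ x in Ωᶜ, v x ^ 2 = ∫ x in Ωᶜ, (v x - φ x) ^ 2 := by
      apply setIntegral_congr_fun hΩ.compl
      intro x hx
      have : φ x = 0 := image_eq_zero_of_notMem_tsupport (fun h => hx (hφ.2.2 h))
      simp only [this, sub_zero]
    rw [h1]
    have h2 : ∫ x in Ωᶜ, (v x - φ x) ^ 2 ≤ ∫ x, (v x - φ x) ^ 2 :=
      setIntegral_le_integral hdsq (Eventually.of_forall fun x => sq_nonneg _)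
    have h3 : 0 ≤ ∫ p, ((v p.1 - φ p.1) - (v p.2 - φ p.2)) ^ 2 * ker s p
        ∂((volume : Measure (E n)).prod volume) :=
      integral_nonneg fun p => mul_nonneg (sq_nonneg _) (ker_nonneg _)
    have h4 : hsSq s (fun x => v x - φ x) = (∫ x, (v x - φ x) ^ 2) +
      ∫ p, ((v p.1 - φ p.1) - (v p.2 - φ p.2)) ^ 2 * ker s p
        ∂((volume : Measure (E n)).prod volume) := rfl
    linarith
  have h0 : ∫ x in Ωᶜ, v x ^ 2 = 0 := by
    apply le_antisymm
    · exact le_of_forall_pos_le_add fun ε hε => by linarith [hle ε hε]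
    · exact integral_nonneg fun x => sq_nonneg _
  rw [integral_eq_zero_iff_of_nonneg (fun x => sq_nonneg _) hsq.integrableOn] at h0
  rw [Filter.EventuallyEq, ae_restrict_iff' hΩ.compl] at h0
  filter_upwards [h0] with x hx hxΩ
  have := hx hxΩ
  simpa using this

/-- the off-diagonal form -/
noncomputable def Qf (s : ℝ) (a v g : E n → ℝ) : ℝ :=
  ∫ p, (g p.1 * a p.1) * (v p.2 * a p.2) * ker s p ∂(volume.prod volume)

theorem Wt.integrable_mul {a : E n → ℝ} {m M : ℝ} (ha : Wt a m M) {g : E n → ℝ}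
    (hg : Integrable g volume) : Integrable (fun x => g x * a x) volume :=
  hg.mul_bdd (c := M) ha.meas.aestronglyMeasurable (Eventually.of_forall fun x => by
    rw [Real.norm_of_nonneg (ha.nonneg x).le]; exact ha.hi x)

theorem Qf_bound (hs : 0 < s) {a : E n → ℝ} {m M : ℝ} (ha : Wt a m M) {v g w1 : E n → ℝ}
    (hg : Integrable g volume) (hv : AEStronglyMeasurable v volume) (hw1 : Integrable w1 volume)
    {T : ℝ} (hww : ∀ᵐ y ∂(volume : Measure (E n)), |v y| ≤ w1 y + T)
    (hw1n : ∀ y, 0 ≤ w1 y) (hT : 0 ≤ T) {d : ℝ} (hd : 0 < d)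
    (hsep : ∀ᵐ p : E n × E n ∂(volume.prod volume), g p.1 ≠ 0 → v p.2 ≠ 0 → d ≤ ‖p.1 - p.2‖) :
    Integrable (fun p : E n × E n => (g p.1 * a p.1) * (v p.2 * a p.2) * ker s p)
      (volume.prod volume) ∧
    |Qf s a v g| ≤ M ^ 2 * (∫ x, |g x|) * (d ^ (-((n : ℝ) + 2 * s)) * (∫ y, w1 y) +
      T * ∫ h : E n, kap n s d ‖h‖) := by
  have h := sep_bound hs (G := fun x => g x * a x) (w := fun y => v y * a y)
    (w1 := fun y => M * w1 y) (ha.integrable_mul hg) (hv.mul ha.meas.aestronglyMeasurable)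
    (hw1.const_mul M) (T := M * T) (by
      filter_upwards [hww] with y hy
      rw [abs_mul, abs_of_pos (ha.nonneg y)]
      have := mul_le_mul hy (ha.hi y) (ha.nonneg y).le (by have := hw1n y; positivity)
      linarith) (fun y => mul_nonneg ha.Mpos.le (hw1n y)) (mul_nonneg ha.Mpos.le hT) hd (by
      filter_upwards [hsep] with p hp h1 h2
      exact hp (left_ne_zero_of_mul h1) (left_ne_zero_of_mul h2))
  refine ⟨h.1, h.2.trans ?_⟩
  have hgM : ∫ x, |g x * a x| ≤ M * ∫ x, |g x| := by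
    rw [← integral_const_mul]
    apply integral_mono (ha.integrable_mul hg).abs (hg.abs.const_mul M)
    intro x
    show |g x * a x| ≤ M * |g x|
    rw [abs_mul, abs_of_pos (ha.nonneg x), mul_comm]
    exact mul_le_mul_of_nonneg_right (ha.hi x) (abs_nonneg _)
  have hnn : 0 ≤ d ^ (-((n : ℝ) + 2 * s)) * (∫ y, w1 y) + T * ∫ h : E n, kap n s d ‖h‖ := by
    have e1 : 0 ≤ ∫ y, w1 y := integral_nonneg hw1n
    have e2 : 0 ≤ ∫ h : E n, kap n s d ‖h‖ := integral_nonneg fun h => kap_nonneg (norm_nonneg _)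
    positivity
  rw [integral_const_mul]
  calc (∫ x, |g x * a x|) * (d ^ (-((n : ℝ) + 2 * s)) * (M * ∫ y, w1 y) +
        M * T * ∫ h : E n, kap n s d ‖h‖)
      = (∫ x, |g x * a x|) * (M * (d ^ (-((n : ℝ) + 2 * s)) * (∫ y, w1 y) +
        T * ∫ h : E n, kap n s d ‖h‖)) := by ring
    _ ≤ (M * ∫ x, |g x|) * (M * (d ^ (-((n : ℝ) + 2 * s)) * (∫ y, w1 y) +
        T * ∫ h : E n, kap n s d ‖h‖)) :=
        mul_le_mul_of_nonneg_right hgM (mul_nonneg ha.Mpos.le hnn)
    _ = _ := by ring

/-- off-diagonal formula -/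
theorem Bf_offdiag {a v g : E n → ℝ}
    (hint : Integrable (fun p : E n × E n => (g p.1 * a p.1) * (v p.2 * a p.2) * ker s p)
      (volume.prod volume))
    (h0 : ∀ᵐ x ∂(volume : Measure (E n)), v x * g x = 0) :
    Bf s a v g = -2 * Qf s a v g := by
  have h2 := integrable_swap' hint
  have e1 : Bf s a v g = ∫ p, -((g p.1 * a p.1) * (v p.2 * a p.2) * ker s p +
      (g p.swap.1 * a p.swap.1) * (v p.swap.2 * a p.swap.2) * ker s p.swap)
      ∂(volume.prod volume) := by
    unfold Bf
    apply integral_congr_ae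
    filter_upwards [ae_fst h0, ae_snd h0] with p hp1 hp2
    rw [ker_swap, Prod.fst_swap, Prod.snd_swap]
    linear_combination (a p.1 * a p.2 * ker s p) * hp1 + (a p.1 * a p.2 * ker s p) * hp2
  rw [e1, integral_neg, integral_add hint h2]
  have e2 := integral_swap' (n := n) (H := fun p : E n × E n =>
    (g p.1 * a p.1) * (v p.2 * a p.2) * ker s p)
  rw [e2]
  unfold Qf
  ring

/-- Fubini for the off-diagonal form -/
theorem Qf_fubini {a v g : E n → ℝ}
    (hint : Integrable (fun p : E n × E n => (g p.1 * a p.1) * (v p.2 * a p.2) * ker s p)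
      (volume.prod volume)) :
    Qf s a v g = ∫ x, g x * (a x * ∫ y, (v y * a y) * ‖x - y‖ ^ (-((n : ℝ) + 2 * s))) := by
  unfold Qf
  rw [integral_prod _ hint]
  congr 1
  funext x
  rw [← mul_assoc, ← integral_const_mul]
  congr 1
  funext y
  show (g x * a x) * (v y * a y) * ker s (x, y) = _
  unfold ker
  ring

end Pool.Agent.H305R3.FC
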