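import Pool.Agent.H305R3.FC4

set_option autoImplicit false

open Set Filter Topology Metric MeasureTheory

namespace Pool.Agent.H305R3.FC

variable {n : ℕ} {s : ℝ}

theorem Bf_lower {a : E n → ℝ} {m M : ℝ} (ha : Wt a m M) {u : E n → ℝ} (hu : MemHs s u) :
    m ^ 2 * ∫ p, (u p.1 - u p.2) ^ 2 * ker s p ∂(volume.prod volume) ≤ Bf s a u u := by
  unfold Bf
  rw [← integral_const_mul]
  refine integral_mono (hu.2.const_mul _) (integrable_Bf ha hu hu) fun p => ?_
  have h0 := ker_nonneg (s := s) p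
  have h1 : m ^ 2 ≤ a p.1 * a p.2 := by
    rw [sq]
    exact mul_le_mul (ha.lo _) (ha.lo _) ha.pos.le (ha.nonneg _).le
  have h2 := mul_le_mul_of_nonneg_right h1 (mul_nonneg (sq_nonneg (u p.1 - u p.2)) h0)
  show m ^ 2 * ((u p.1 - u p.2) ^ 2 * ker s p) ≤ _
  nlinarith [h2]

theorem Bf_upper {a : E n → ℝ} {m M : ℝ} (ha : Wt a m M) {u : E n → ℝ} (hu : MemHs s u) :
    Bf s a u u ≤ M ^ 2 * ∫ p, (u p.1 - u p.2) ^ 2 * ker s p ∂(volume.prod volume) := by
  unfold Bf
  rw [← integral_const_mul]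
  refine integral_mono (integrable_Bf ha hu hu) (hu.2.const_mul _) fun p => ?_
  have h0 := ker_nonneg (s := s) p
  have h1 : a p.1 * a p.2 ≤ M ^ 2 := by
    rw [sq]
    exact mul_le_mul (ha.hi _) (ha.hi _) (ha.nonneg _).le ha.Mpos.le
  have h2 := mul_le_mul_of_nonneg_right h1 (mul_nonneg (sq_nonneg (u p.1 - u p.2)) h0)
  show _ ≤ M ^ 2 * ((u p.1 - u p.2) ^ 2 * ker s p)
  nlinarith [h2]

theorem norm_sq_of_ae {α : Type*} [MeasurableSpace α] {μ : Measure α} (h : Lp ℝ 2 μ) {g : α → ℝ}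
    (hg : h =ᵐ[μ] g) : ‖h‖ ^ 2 = ∫ x, g x ^ 2 ∂μ := by
  rw [← real_inner_self_eq_norm_sq, L2.inner_def]
  apply integral_congr_ae
  filter_upwards [hg] with x hx
  rw [hx]
  simp [sq]

theorem inner_of_ae {α : Type*} [MeasurableSpace α] {μ : Measure α} (h k : Lp ℝ 2 μ) {g l : α → ℝ}
    (hg : h =ᵐ[μ] g) (hl : k =ᵐ[μ] l) : inner ℝ h k = ∫ x, g x * l x ∂μ := by
  rw [L2.inner_def]
  apply integral_congr_ae
  filter_upwards [hg, hl] with x hx hx2
  rw [hx, hx2]
  simp [mul_comm]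

/-- weighted difference -/
noncomputable def Dd (s : ℝ) (a u : E n → ℝ) (p : E n × E n) : ℝ :=
  (u p.1 - u p.2) * √(a p.1 * a p.2 * ker s p)

theorem Dd_mul {a : E n → ℝ} {m M : ℝ} (ha : Wt a m M) (u v : E n → ℝ) (p : E n × E n) :
    Dd s a u p * Dd s a v p = a p.1 * a p.2 * ((u p.1 - u p.2) * (v p.1 - v p.2)) * ker s p := by
  unfold Dd
  have h : √(a p.1 * a p.2 * ker s p) * √(a p.1 * a p.2 * ker s p) = a p.1 * a p.2 * ker s p :=
    Real.mul_self_sqrt (mul_nonneg (mul_nonneg (ha.nonneg _).le (ha.nonneg _).le) (ker_nonneg p))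
  linear_combination ((u p.1 - u p.2) * (v p.1 - v p.2)) * h

theorem memLp_Dd {a : E n → ℝ} {m M : ℝ} (ha : Wt a m M) {u : E n → ℝ} (hu : MemHs s u) :
    MemLp (Dd s a u) 2 (volume.prod volume) := by
  have hm : AEStronglyMeasurable (Dd s a u) (volume.prod volume) := by
    unfold Dd
    have h1 : Measurable fun p : E n × E n => √(a p.1 * a p.2 * ker s p) := by
      have := ha.meas
      have := measurable_ker (n := n) (s := s)
      fun_prop
    exact (aesm_diff hu.1.1).mul h1.aestronglyMeasurable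
  rw [memLp_two_iff_integrable_sq hm]
  refine (integrable_Bf ha hu hu).congr (Eventually.of_forall fun p => ?_)
  show _ = Dd s a u p ^ 2
  rw [sq, Dd_mul ha]

/-- existence of solutions, reduced form -/
theorem exists_sol_aux (hn : 1 ≤ n) (hs : 0 < s) (hs1 : s < 1) {Ω : Set (E n)}
    (hb : BddOneDir Ω) {a : E n → ℝ} {m M : ℝ} (ha : Wt a m M) {f : E n → ℝ} (hf : MemHs s f) :
    ∃ v, MemHt s Ω v ∧ ∀ φ, MemHt s Ω φ → Bf s a (fun x => f x + v x) φ = 0 := by
  classical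
  obtain ⟨e, c, r, he, hr, hΩs⟩ := hb
  obtain ⟨CP, hCP, hpoin⟩ := poincare (n := n) (c := c) hs he hr
  have htf : ∀ φ : E n → ℝ, TestFun Ω φ → MemHs s φ := fun φ hφ => hφ.memHs hn hs hs1
  let μ : Measure (E n × E n) := (volume : Measure (E n)).prod volume
  -- the subspace
  let T : Submodule ℝ (Lp ℝ 2 μ) :=
    { carrier := {h | ∃ φ, TestFun Ω φ ∧ (h : E n × E n → ℝ) =ᵐ[μ] Dd s a φ}
      add_mem' := by
        rintro h1 h2 ⟨φ1, hφ1, e1⟩ ⟨φ2, hφ2, e2⟩
        refine ⟨fun x => φ1 x + φ2 x, ⟨hφ1.1.add hφ2.1, hφ1.2.1.add hφ2.2.1, ?_⟩, ?_⟩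
        · exact (tsupport_add φ1 φ2).trans (union_subset hφ1.2.2 hφ2.2.2)
        · filter_upwards [Lp.coeFn_add h1 h2, e1, e2] with p hp hp1 hp2
          rw [hp, Pi.add_apply, hp1, hp2]
          unfold Dd
          ring
      zero_mem' := by
        refine ⟨fun _ => 0, ⟨contDiff_const, HasCompactSupport.zero, ?_⟩, ?_⟩
        · have h0 : tsupport (fun _ : E n => (0:ℝ)) = ∅ := tsupport_eq_empty_iff.2 rfl
          rw [h0]
          exact empty_subset _
        · filter_upwards [Lp.coeFn_zero ℝ 2 μ] with p hp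
          rw [hp]
          simp [Dd]
      smul_mem' := by
        rintro t h ⟨φ, hφ, e1⟩
        refine ⟨fun x => t * φ x, ⟨contDiff_const.mul hφ.1, hφ.2.1.mul_left, ?_⟩, ?_⟩
        · exact (tsupport_mul_subset_right).trans hφ.2.2
        · filter_upwards [Lp.coeFn_smul t h, e1] with p hp hp1
          rw [hp, Pi.smul_apply, hp1, smul_eq_mul]
          unfold Dd
          ring }
  have hTmem : ∀ h : Lp ℝ 2 μ, h ∈ T ↔ ∃ φ, TestFun Ω φ ∧ (h : E n × E n → ℝ) =ᵐ[μ] Dd s a φ :=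
    fun h => Iff.rfl
  let F : Lp ℝ 2 μ := (memLp_Dd ha hf).toLp _
  have hF : (F : E n × E n → ℝ) =ᵐ[μ] Dd s a f := (memLp_Dd ha hf).coeFn_toLp
  have hKc : IsComplete ((T.topologicalClosure : Submodule ℝ (Lp ℝ 2 μ)) : Set (Lp ℝ 2 μ)) :=
    T.isClosed_topologicalClosure.isComplete
  obtain ⟨h, hhK, hhmin⟩ := T.topologicalClosure.exists_norm_eq_iInf_of_complete_subspace hKc (-F)
  rw [T.topologicalClosure.norm_eq_iInf_iff_real_inner_eq_zero hhK] at hhmin
  have hhK' : h ∈ closure (T : Set (Lp ℝ 2 μ)) := hhK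
  obtain ⟨x, hxT, hxlim⟩ := mem_closure_iff_seq_limit.1 hhK'
  have hx' : ∀ j, ∃ φ, TestFun Ω φ ∧ (x j : E n × E n → ℝ) =ᵐ[μ] Dd s a φ := fun j => hxT j
  choose φ hφ hxφ using hx'
  have hφH : ∀ j, MemHs s (φ j) := fun j => htf _ (hφ j)
  let ψ : ℕ → Lp ℝ 2 (volume : Measure (E n)) := fun j => (hφH j).1.toLp (φ j)
  have hψ : ∀ j, (ψ j : E n → ℝ) =ᵐ[volume] φ j := fun j => (hφH j).1.coeFn_toLp
  -- key estimate
  have hkey : ∀ i j, ‖ψ i - ψ j‖ ^ 2 ≤ CP / m ^ 2 * ‖x i - x j‖ ^ 2 := by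
    intro i j
    have hd := (hφH i).sub (hφH j)
    have e1 : ‖ψ i - ψ j‖ ^ 2 = ∫ y, (φ i y - φ j y) ^ 2 := by
      apply norm_sq_of_ae
      filter_upwards [Lp.coeFn_sub (ψ i) (ψ j), hψ i, hψ j] with y h1 h2 h3
      rw [h1, Pi.sub_apply, h2, h3]
    have e2 : ‖x i - x j‖ ^ 2 = Bf s a (fun y => φ i y - φ j y) (fun y => φ i y - φ j y) := by
      rw [norm_sq_of_ae (x i - x j) (g := Dd s a (fun y => φ i y - φ j y))]
      · unfold Bf
        congr 1
        funext p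
        rw [sq, Dd_mul ha]
      · filter_upwards [Lp.coeFn_sub (x i) (x j), hxφ i, hxφ j] with y h1 h2 h3
        rw [h1, Pi.sub_apply, h2, h3]
        unfold Dd
        ring
    rw [e1, e2]
    have h1 := hpoin _ hd (Eventually.of_forall fun y hy => by
      have hyΩ : y ∉ Ω := fun h => hy (hΩs y h)
      have z1 : φ i y = 0 := image_eq_zero_of_notMem_tsupport (fun h => hyΩ ((hφ i).2.2 h))
      have z2 : φ j y = 0 := image_eq_zero_of_notMem_tsupport (fun h => hyΩ ((hφ j).2.2 h))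
      rw [z1, z2, sub_zero])
    have h2 := Bf_lower ha hd
    have hm2 : 0 < m ^ 2 := pow_pos ha.pos 2
    have hm0 : m ≠ 0 := ha.pos.ne'
    calc ∫ y, (φ i y - φ j y) ^ 2 ≤ _ := h1
      _ = CP / m ^ 2 * (m ^ 2 * ∫ p, ((fun y => φ i y - φ j y) p.1 -
          (fun y => φ i y - φ j y) p.2) ^ 2 * ker s p ∂(volume.prod volume)) := by
          field_simp
      _ ≤ _ := mul_le_mul_of_nonneg_left h2 (by positivity)
  have hcauchy : CauchySeq ψ := by
    have hxc : CauchySeq x := hxlim.cauchySeq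
    rw [Metric.cauchySeq_iff] at hxc ⊢
    intro ε hε
    set A : ℝ := √(CP / m ^ 2) with hA
    obtain ⟨N, hN⟩ := hxc (ε / (A + 1)) (by positivity)
    refine ⟨N, fun i hi j hj => ?_⟩
    have h1 := hN i hi j hj
    rw [dist_eq_norm] at h1 ⊢
    have h2 : ‖ψ i - ψ j‖ ≤ A * ‖x i - x j‖ := by
      have h3 := Real.sqrt_le_sqrt (hkey i j)
      rw [Real.sqrt_sq (norm_nonneg _), Real.sqrt_mul (by positivity),
        Real.sqrt_sq (norm_nonneg _)] at h3
      exact h3
    have hA0 : 0 ≤ A := Real.sqrt_nonneg _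
    rw [lt_div_iff₀ (by positivity)] at h1
    nlinarith [norm_nonneg (x i - x j)]
  obtain ⟨V, hV⟩ := cauchySeq_tendsto_of_complete hcauchy
  let v : E n → ℝ := fun y => V y
  -- a.e. convergence
  obtain ⟨ns, hns, hnsae⟩ := (tendstoInMeasure_of_tendsto_Lp hV).exists_seq_tendsto_ae
  have hxlim' : Tendsto (fun i => x (ns i)) atTop (𝓝 h) := hxlim.comp hns.tendsto_atTop
  obtain ⟨ms, hms, hmsae⟩ := (tendstoInMeasure_of_tendsto_Lp hxlim').exists_seq_tendsto_ae
  have hvae : ∀ᵐ y ∂(volume : Measure (E n)), Tendsto (fun i => φ (ns i) y) atTop (𝓝 (v y)) := by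
    filter_upwards [hnsae, ae_all_iff.2 hψ] with y h1 h2
    refine h1.congr fun i => ?_
    exact h2 (ns i)
  have hhD : (h : E n × E n → ℝ) =ᵐ[μ] Dd s a v := by
    filter_upwards [hmsae, ae_all_iff.2 hxφ, ae_fst hvae, ae_snd hvae] with p h1 h2 h3 h4
    refine tendsto_nhds_unique h1 ?_
    have h5 : Tendsto (fun i => Dd s a (φ (ns i)) p) atTop (𝓝 (Dd s a v p)) := by
      unfold Dd
      exact (h3.sub h4).mul_const _
    have h6 := h5.comp hms.tendsto_atTop
    refine h6.congr fun i => ?_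
    exact (h2 (ns (ms i))).symm
  have hvLp : MemLp v 2 volume := Lp.memLp V
  have hm2 : 0 < m ^ 2 := pow_pos ha.pos 2
  have hvH : MemHs s v := by
    refine ⟨hvLp, ?_⟩
    have h1 : Integrable (fun p => Dd s a v p ^ 2) μ := by
      have h2 : Integrable (fun p => (h : E n × E n → ℝ) p ^ 2) μ := (Lp.memLp h).integrable_sq
      refine h2.congr ?_
      filter_upwards [hhD] with p hp
      rw [hp]
    refine (h1.const_mul (1 / m ^ 2)).mono' ?_ (Eventually.of_forall fun p => ?_)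
    · exact ((aesm_diff hvLp.1).pow 2).mul measurable_ker.aestronglyMeasurable
    · have h0 := ker_nonneg (s := s) p
      rw [Real.norm_of_nonneg (mul_nonneg (sq_nonneg _) h0), sq (Dd s a v p), Dd_mul ha]
      have h3 : m ^ 2 ≤ a p.1 * a p.2 := by
        rw [sq]
        exact mul_le_mul (ha.lo _) (ha.lo _) ha.pos.le (ha.nonneg _).le
      have h4 := mul_le_mul_of_nonneg_right h3 (mul_nonneg (sq_nonneg (v p.1 - v p.2)) h0)
      rw [one_div, inv_mul_eq_div, le_div_iff₀ hm2]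
      nlinarith [h4]
  have hvHt : MemHt s Ω v := by
    refine ⟨hvH, fun ε hε => ?_⟩
    have hlim : Tendsto (fun j => ‖V - ψ j‖ ^ 2 + 1 / m ^ 2 * ‖h - x j‖ ^ 2) atTop (𝓝 0) := by
      have l1 : Tendsto (fun j => ‖V - ψ j‖) atTop (𝓝 0) := by
        have := (tendsto_const_nhds (x := V)).sub hV
        rw [sub_self] at this
        simpa using this.norm
      have l2 : Tendsto (fun j => ‖h - x j‖) atTop (𝓝 0) := by
        have := (tendsto_const_nhds (x := h)).sub hxlim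
        rw [sub_self] at this
        simpa using this.norm
      have := (l1.pow 2).add ((l2.pow 2).const_mul (1 / m ^ 2))
      simpa using this
    obtain ⟨j, hj⟩ := (hlim.eventually (gt_mem_nhds hε)).exists
    refine ⟨φ j, hφ j, lt_of_le_of_lt ?_ hj⟩
    have hd := hvH.sub (hφH j)
    have e1 : ‖V - ψ j‖ ^ 2 = ∫ y, (v y - φ j y) ^ 2 := by
      apply norm_sq_of_ae
      filter_upwards [Lp.coeFn_sub V (ψ j), hψ j] with y h1 h2
      rw [h1, Pi.sub_apply, h2]
    have e2 : ‖h - x j‖ ^ 2 = Bf s a (fun y => v y - φ j y) (fun y => v y - φ j y) := by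
      rw [norm_sq_of_ae (h - x j) (g := Dd s a (fun y => v y - φ j y))]
      · unfold Bf
        congr 1
        funext p
        rw [sq, Dd_mul ha]
      · filter_upwards [Lp.coeFn_sub h (x j), hhD, hxφ j] with y h1 h2 h3
        rw [h1, Pi.sub_apply, h2, h3]
        unfold Dd
        ring
    rw [e1, e2]
    unfold hsSq
    have h2 := Bf_lower ha hd
    have h3 : ∫ p, ((v p.1 - φ j p.1) - (v p.2 - φ j p.2)) ^ 2 * ker s p
        ∂((volume : Measure (E n)).prod volume) ≤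
        1 / m ^ 2 * Bf s a (fun y => v y - φ j y) (fun y => v y - φ j y) := by
      rw [one_div, inv_mul_eq_div, le_div_iff₀ hm2, mul_comm]
      exact h2
    exact add_le_add (le_refl _) h3
  refine ⟨v, hvHt, fun g hg => ?_⟩
  -- orthogonality
  let G : Lp ℝ 2 μ := (memLp_Dd ha hg.1).toLp _
  have hG : (G : E n × E n → ℝ) =ᵐ[μ] Dd s a g := (memLp_Dd ha hg.1).coeFn_toLp
  have hGK : G ∈ T.topologicalClosure := by
    show G ∈ closure (T : Set (Lp ℝ 2 μ))
    rw [Metric.mem_closure_iff]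
    intro ε hε
    obtain ⟨φ', hφ', hlt⟩ := hg.2 (ε ^ 2 / (M ^ 2)) (by have := ha.Mpos; positivity)
    have hφ'H := htf _ hφ'
    refine ⟨(memLp_Dd ha hφ'H).toLp _, (hTmem _).2 ⟨φ', hφ', (memLp_Dd ha hφ'H).coeFn_toLp⟩, ?_⟩
    rw [dist_eq_norm]
    have hd := hg.1.sub hφ'H
    have e2 : ‖G - (memLp_Dd ha hφ'H).toLp _‖ ^ 2 =
        Bf s a (fun y => g y - φ' y) (fun y => g y - φ' y) := by
      rw [norm_sq_of_ae (G - (memLp_Dd ha hφ'H).toLp _) (g := Dd s a (fun y => g y - φ' y))]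
      · unfold Bf
        congr 1
        funext p
        rw [sq, Dd_mul ha]
      · filter_upwards [Lp.coeFn_sub G ((memLp_Dd ha hφ'H).toLp _), hG,
          (memLp_Dd ha hφ'H).coeFn_toLp] with y h1 h2 h3
        rw [h1, Pi.sub_apply, h2, h3]
        unfold Dd
        ring
    have h5 := Bf_upper ha hd
    have h6 : 0 ≤ ∫ x, (g x - φ' x) ^ 2 := integral_nonneg fun x => sq_nonneg _
    have h7 : hsSq s (fun x => g x - φ' x) = (∫ x, (g x - φ' x) ^ 2) +
      ∫ p, ((g p.1 - φ' p.1) - (g p.2 - φ' p.2)) ^ 2 * ker s p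
        ∂((volume : Measure (E n)).prod volume) := rfl
    have hM2 : 0 < M ^ 2 := pow_pos ha.Mpos 2
    rw [lt_div_iff₀ hM2] at hlt
    have h8 : ‖G - (memLp_Dd ha hφ'H).toLp _‖ ^ 2 < ε ^ 2 := by
      rw [e2]
      refine lt_of_le_of_lt h5 (lt_of_le_of_lt ?_ hlt)
      rw [mul_comm]
      apply mul_le_mul_of_nonneg_right _ hM2.le
      rw [h7]
      linarith
    exact lt_of_pow_lt_pow_left₀ 2 hε.le h8
  have horth := hhmin G hGK
  rw [inner_sub_left, inner_neg_left, inner_of_ae F G hF hG, inner_of_ae h G hhD hG] at horth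
  have i1 : Integrable (fun p => Dd s a f p * Dd s a g p) μ := by
    simp only [Dd_mul ha]
    exact integrable_Bf ha hf hg.1
  have i2 : Integrable (fun p => Dd s a v p * Dd s a g p) μ := by
    simp only [Dd_mul ha]
    exact integrable_Bf ha hvH hg.1
  have e3 : Bf s a (fun x => f x + v x) g = (∫ p, Dd s a f p * Dd s a g p ∂μ) +
      ∫ p, Dd s a v p * Dd s a g p ∂μ := by
    rw [← integral_add i1 i2]
    unfold Bf
    congr 1
    funext p
    rw [Dd_mul ha, Dd_mul ha]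
    ring
  rw [e3]
  linarith

/-- existence of solutions -/
theorem exists_sol (hn : 1 ≤ n) (hs : 0 < s) (hs1 : s < 1) {Ω : Set (E n)}
    (hb : BddOneDir Ω) {γ : E n → ℝ} (hγ : Elliptic γ) {f : E n → ℝ} (hf : MemHs s f) :
    ∃ u, IsSol s Ω γ f u := by
  obtain ⟨a, m, M, ha, hae⟩ := exists_wt hγ
  obtain ⟨v, hv, hv2⟩ := exists_sol_aux hn hs hs1 hb ha hf
  refine ⟨fun x => f x + v x, hf.add hv.1, ?_, fun φ hφ => ?_⟩
  · have : (fun x => (f x + v x) - f x) = v := by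
      funext x
      ring
    rw [this]
    exact hv
  · rw [Bform_eq hae, hv2 φ hφ, mul_zero]

end Pool.Agent.H305R3.FC
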