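import Pool.Agent.H305R3.FC5

set_option autoImplicit false

open Set Filter Topology Metric MeasureTheory

namespace Pool.Agent.H305R3.FC

variable {n : ℕ} {s : ℝ}

theorem Bf_add {a : E n → ℝ} {m M : ℝ} (ha : Wt a m M) {f v g : E n → ℝ}
    (hf : MemHs s f) (hv : MemHs s v) (hg : MemHs s g) :
    Bf s a (fun x => f x + v x) g = Bf s a f g + Bf s a v g := by
  unfold Bf
  rw [← integral_add (integrable_Bf ha hf hg) (integrable_Bf ha hv hg)]
  congr 1
  funext p
  ring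

/-- Poincare constant of a set -/
def PoinC (s : ℝ) (Ω : Set (E n)) (CP : ℝ) : Prop :=
  0 < CP ∧ ∀ v : E n → ℝ, MemHs s v → (∀ᵐ x ∂(volume : Measure (E n)), x ∉ Ω → v x = 0) →
    ∫ x, v x ^ 2 ≤ CP * ∫ p, (v p.1 - v p.2) ^ 2 * ker s p ∂(volume.prod volume)

theorem exists_PoinC (hs : 0 < s) {Ω : Set (E n)} (hb : BddOneDir Ω) : ∃ CP, PoinC s Ω CP := by
  obtain ⟨e, c, r, he, hr, hΩs⟩ := hb
  obtain ⟨CP, hCP, hpoin⟩ := poincare (n := n) (c := c) hs he hr
  refine ⟨CP, hCP, fun v hv hv0 => hpoin v hv ?_⟩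
  filter_upwards [hv0] with x hx hx2
  exact hx fun h => hx2 (hΩs x h)

/-- corrector -/
structure Corr (s : ℝ) (Ω : Set (E n)) (a f v : E n → ℝ) : Prop where
  ht : MemHt s Ω v
  eq : ∀ φ, MemHt s Ω φ → Bf s a (fun x => f x + v x) φ = 0

/-- separation of the support of `f` from `Ω` -/
def SepD (d : ℝ) (f : E n → ℝ) (Ω : Set (E n)) : Prop :=
  ∀ x, f x ≠ 0 → ∀ y ∈ Ω, d ≤ ‖x - y‖

theorem sep_ae {d : ℝ} {f v : E n → ℝ} {Ω : Set (E n)} (hsep : SepD d f Ω)
    (hv : ∀ᵐ x ∂(volume : Measure (E n)), x ∉ Ω → v x = 0) :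
    ∀ᵐ p : E n × E n ∂(volume.prod volume), f p.1 ≠ 0 → v p.2 ≠ 0 → d ≤ ‖p.1 - p.2‖ := by
  filter_upwards [ae_snd hv] with p hp h1 h2
  apply hsep _ h1
  by_contra h
  exact h2 (hp h)

theorem mul_zero_ae {d : ℝ} (hd : 0 < d) {f v : E n → ℝ} {Ω : Set (E n)} (hsep : SepD d f Ω)
    (hv : ∀ᵐ x ∂(volume : Measure (E n)), x ∉ Ω → v x = 0) :
    ∀ᵐ x ∂(volume : Measure (E n)), v x * f x = 0 := by
  filter_upwards [hv] with x hx
  by_cases h : f x = 0
  · rw [h, mul_zero]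
  · have : x ∉ Ω := by
      intro hxΩ
      have := hsep x h x hxΩ
      rw [sub_self, norm_zero] at this
      linarith
    rw [hx this, zero_mul]

/-- the constant `d^(-p)` -/
noncomputable def cD (n : ℕ) (s d : ℝ) : ℝ := d ^ (-((n : ℝ) + 2 * s))

/-- the constant `∫ κ_d` -/
noncomputable def cK (n : ℕ) (s d : ℝ) : ℝ := ∫ h : E n, kap n s d ‖h‖

theorem cK_nonneg (d : ℝ) : 0 ≤ cK n s d := integral_nonneg fun _ => kap_nonneg (norm_nonneg _)

theorem corr_offdiag (hs : 0 < s) {Ω : Set (E n)} {a : E n → ℝ} {m M : ℝ} (ha : Wt a m M)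
    {v g : E n → ℝ} (hv : MemHs s v) (hv0 : ∀ᵐ x ∂(volume : Measure (E n)), x ∉ Ω → v x = 0)
    (hg : Integrable g volume) {d : ℝ} (hd : 0 < d) (hsep : SepD d g Ω) :
    Integrable (fun p : E n × E n => (g p.1 * a p.1) * (v p.2 * a p.2) * ker s p)
      (volume.prod volume) ∧ Bf s a v g = -2 * Qf s a v g ∧
    ∀ T : ℝ, 0 < T → |Qf s a v g| ≤ M ^ 2 * (∫ x, |g x|) *
      (cD n s d * ((1 / (2 * T)) * ∫ y, v y ^ 2) + T / 2 * cK n s d) := by
  have key : ∀ T : ℝ, 0 < T →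
      Integrable (fun p : E n × E n => (g p.1 * a p.1) * (v p.2 * a p.2) * ker s p)
        (volume.prod volume) ∧ |Qf s a v g| ≤ M ^ 2 * (∫ x, |g x|) *
      (cD n s d * ((1 / (2 * T)) * ∫ y, v y ^ 2) + T / 2 * cK n s d) := by
    intro T hT
    have h := Qf_bound hs ha hg hv.1.1 (w1 := fun y => (1 / (2 * T)) * v y ^ 2)
      (hv.1.integrable_sq.const_mul _) (T := T / 2) (Eventually.of_forall fun y => by
        have h1 : (1 / (2 * T)) * v y ^ 2 + T / 2 - |v y| = (|v y| - T) ^ 2 / (2 * T) := by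
          rw [← sq_abs (v y)]
          field_simp
          ring
        have h2 : 0 ≤ (|v y| - T) ^ 2 / (2 * T) := by positivity
        show |v y| ≤ (1 / (2 * T)) * v y ^ 2 + T / 2
        linarith) (fun y => by positivity) (by positivity) hd (sep_ae hsep hv0)
    rw [integral_const_mul] at h
    exact h
  refine ⟨(key 1 one_pos).1, Bf_offdiag (key 1 one_pos).1 (mul_zero_ae hd hsep hv0),
    fun T hT => (key T hT).2⟩

/-- the constant in the corrector bound -/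
noncomputable def cV (n : ℕ) (s d m M CP : ℝ) : ℝ :=
  4 * M ^ 4 * cD n s d * cK n s d * (CP / m ^ 2) ^ 2

theorem corr_bound (hs : 0 < s) {Ω : Set (E n)}
    {CP : ℝ} (hP : PoinC s Ω CP) {a : E n → ℝ} {m M : ℝ} (ha : Wt a m M)
    {f v : E n → ℝ} (hf : MemHs s f) (hfi : Integrable f volume) (hc : Corr s Ω a f v)
    (hv0 : ∀ᵐ x ∂(volume : Measure (E n)), x ∉ Ω → v x = 0)
    {d : ℝ} (hd : 0 < d) (hsep : SepD d f Ω) :
    ∫ x, v x ^ 2 ≤ cV n s d m M CP * (∫ x, |f x|) ^ 2 := by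
  have hv := hc.ht.1
  obtain ⟨-, h1, h2⟩ := corr_offdiag hs ha hv hv0 hfi hd hsep
  have h3 := hc.eq v hc.ht
  rw [Bf_add ha hf hv hv, Bf_symm (u := f), h1] at h3
  have h4 := Bf_lower ha hv
  have h5 := hP.2 v hv hv0
  have hCP := hP.1
  have hM := ha.Mpos
  have hm := ha.pos
  set V := ∫ x, v x ^ 2 with hV
  set L := ∫ x, |f x| with hL
  have hL0 : 0 ≤ L := integral_nonneg fun x => abs_nonneg _
  have hV0 : 0 ≤ V := integral_nonneg fun x => sq_nonneg _
  have hD : 0 < cD n s d := by unfold cD; positivity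
  have hK : 0 ≤ cK n s d := cK_nonneg d
  set B := ∫ p, (v p.1 - v p.2) ^ 2 * ker s p ∂((volume : Measure (E n)).prod volume) with hB
  set c0 := m ^ 2 / CP with hc0
  have hc0pos : 0 < c0 := by positivity
  have h6 : c0 * V ≤ 2 * |Qf s a v f| := by
    have e1 : c0 * V ≤ m ^ 2 * B := by
      rw [hc0, div_mul_eq_mul_div, div_le_iff₀ hCP]
      nlinarith [sq_nonneg m, h5]
    have e2 := le_abs_self (Qf s a v f)
    linarith
  have hcV : cV n s d m M CP = 4 * M ^ 4 * cD n s d * cK n s d / c0 ^ 2 := by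
    unfold cV
    rw [hc0]
    field_simp
  rw [hcV]
  rcases eq_or_lt_of_le hL0 with hz | hpos
  · have := h2 1 one_pos
    rw [← hz] at this
    simp only [mul_zero, zero_mul] at this
    have e3 : c0 * V ≤ 0 := by linarith
    have e4 : V ≤ 0 := by
      by_contra hcon
      push Not at hcon
      have := mul_pos hc0pos hcon
      linarith
    rw [← hz]
    simpa using e4
  · have hT : 0 < 2 * M ^ 2 * L * cD n s d / c0 := by positivity
    have h7 := h2 _ hT
    have h8 : M ^ 2 * L * (cD n s d * ((1 / (2 * (2 * M ^ 2 * L * cD n s d / c0))) * V) +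
        (2 * M ^ 2 * L * cD n s d / c0) / 2 * cK n s d) =
        c0 * V / 4 + M ^ 4 * L ^ 2 * cD n s d * cK n s d / c0 := by
      field_simp
      ring
    rw [h8] at h7
    have h9 : c0 * V ≤ 4 * (M ^ 4 * L ^ 2 * cD n s d * cK n s d / c0) := by linarith
    rw [div_mul_eq_mul_div, le_div_iff₀ (by positivity)]
    have h10 := mul_le_mul_of_nonneg_left h9 hc0pos.le
    have h11 : c0 * (4 * (M ^ 4 * L ^ 2 * cD n s d * cK n s d / c0)) =
        4 * M ^ 4 * L ^ 2 * cD n s d * cK n s d := by field_simp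
    rw [h11] at h10
    nlinarith [h10]

/-- the constant in the bound of the off-diagonal pairing -/
noncomputable def cQ (n : ℕ) (s d m M CP : ℝ) : ℝ :=
  M ^ 2 * (cD n s d * cV n s d m M CP + cK n s d) / 2

theorem Q_corr_bound (hs : 0 < s) {Ω : Set (E n)}
    {CP : ℝ} (hP : PoinC s Ω CP) {a : E n → ℝ} {m M : ℝ} (ha : Wt a m M)
    {f g v : E n → ℝ} (hf : MemHs s f) (hfi : Integrable f volume) (hfpos : 0 < ∫ x, |f x|)
    (hg : Integrable g volume) (hc : Corr s Ω a f v)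
    (hv0 : ∀ᵐ x ∂(volume : Measure (E n)), x ∉ Ω → v x = 0)
    {d : ℝ} (hd : 0 < d) (hsep : SepD d f Ω) (hsepg : SepD d g Ω) :
    Bf s a v g = -2 * Qf s a v g ∧
    |Qf s a v g| ≤ cQ n s d m M CP * (∫ x, |f x|) * ∫ x, |g x| := by
  obtain ⟨-, h1, h2⟩ := corr_offdiag hs ha hc.ht.1 hv0 hg hd hsepg
  refine ⟨h1, (h2 _ hfpos).trans ?_⟩
  have h3 := corr_bound hs hP ha hf hfi hc hv0 hd hsep
  set V := ∫ x, v x ^ 2 with hV
  set L := ∫ x, |f x| with hL
  set G := ∫ x, |g x| with hG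
  have hG0 : 0 ≤ G := integral_nonneg fun x => abs_nonneg _
  have hD : 0 < cD n s d := by unfold cD; positivity
  have h4 : cD n s d * (1 / (2 * L) * V) + L / 2 * cK n s d ≤
      L * (cD n s d * cV n s d m M CP + cK n s d) / 2 := by
    have e1 : 1 / (2 * L) * V ≤ cV n s d m M CP * L / 2 := by
      rw [one_div, inv_mul_eq_div, div_le_div_iff₀ (by positivity) (by norm_num)]
      nlinarith [h3]
    have e2 := mul_le_mul_of_nonneg_left e1 hD.le
    linarith
  calc M ^ 2 * G * (cD n s d * (1 / (2 * L) * V) + L / 2 * cK n s d) ≤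
      M ^ 2 * G * (L * (cD n s d * cV n s d m M CP + cK n s d) / 2) :=
        mul_le_mul_of_nonneg_left h4 (by positivity)
    _ = _ := by unfold cQ; ring

end Pool.Agent.H305R3.FC
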