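import Pool.Agent.H305R3.FC6

set_option autoImplicit false

open Set Filter Topology Metric MeasureTheory

namespace Pool.Agent.H305R3.FC

variable {n : ℕ} {s : ℝ}

/-- bump-like function -/
structure Bmp (x0 : E n) (ρ : ℝ) (f : E n → ℝ) : Prop where
  int : Integrable f volume
  nn : ∀ x, 0 ≤ f x
  le : ∀ x, f x ≤ 1
  one : ∀ x ∈ closedBall x0 (ρ / 2), f x = 1
  out : ∀ x, x ∉ closedBall x0 ρ → f x = 0

theorem vol_ball (x : E n) {ρ : ℝ} (hρ : 0 ≤ ρ) :
    volume.real (closedBall x ρ) = ρ ^ n * volume.real (ball (0 : E n) 1) := by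
  rw [Measure.addHaar_real_closedBall volume x hρ, finrank_euclideanSpace_fin]

theorem Bmp.int_le {x0 : E n} {ρ : ℝ} {f : E n → ℝ} (h : Bmp x0 ρ f) :
    ∫ x, f x ≤ volume.real (closedBall x0 ρ) := by
  have h1 : ∫ x, (closedBall x0 ρ).indicator (fun _ => (1:ℝ)) x = volume.real (closedBall x0 ρ) := by
    rw [integral_indicator measurableSet_closedBall, setIntegral_const, smul_eq_mul, mul_one]
  rw [← h1]
  apply integral_mono h.int
  · rw [integrable_indicator_iff measurableSet_closedBall]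
    exact integrableOn_const measure_closedBall_lt_top.ne
  · intro x
    by_cases hx : x ∈ closedBall x0 ρ
    · rw [indicator_of_mem hx]; exact h.le x
    · rw [indicator_of_notMem hx, h.out x hx]

theorem Bmp.le_int {x0 : E n} {ρ : ℝ} {f : E n → ℝ} (h : Bmp x0 ρ f) :
    volume.real (closedBall x0 (ρ / 2)) ≤ ∫ x, f x := by
  have h1 : ∫ x, (closedBall x0 (ρ / 2)).indicator (fun _ => (1:ℝ)) x =
      volume.real (closedBall x0 (ρ / 2)) := by
    rw [integral_indicator measurableSet_closedBall, setIntegral_const, smul_eq_mul, mul_one]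
  rw [← h1]
  apply integral_mono _ h.int
  · intro x
    by_cases hx : x ∈ closedBall x0 (ρ / 2)
    · rw [indicator_of_mem hx, h.one x hx]
    · rw [indicator_of_notMem hx]; exact h.nn x
  · rw [integrable_indicator_iff measurableSet_closedBall]
    exact integrableOn_const measure_closedBall_lt_top.ne

/-- mean oscillation about the value `c` -/
noncomputable def osc (a : E n → ℝ) (c : ℝ) (x : E n) (ρ : ℝ) : ℝ :=
  ⨍ y in closedBall x ρ, ‖a y - c‖

theorem Bmp.osc_le {x0 : E n} {ρ : ℝ} {f : E n → ℝ} (h : Bmp x0 ρ f) (hρ : 0 < ρ)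
    {a : E n → ℝ} {m M : ℝ} (ha : Wt a m M) (c : ℝ) :
    Integrable (fun x => f x * |a x - c|) volume ∧
    ∫ x, f x * |a x - c| ≤ volume.real (closedBall x0 ρ) * osc a c x0 ρ := by
  have hbd : ∀ x, |a x - c| ≤ M + |c| := fun x => by
    have := abs_sub (a x) c
    rw [abs_of_pos (ha.nonneg x)] at this
    linarith [ha.hi x]
  have hm : Measurable fun x => |a x - c| := by
    have := ha.meas
    fun_prop
  have hi : Integrable (fun x => f x * |a x - c|) volume :=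
    h.int.mul_bdd (c := M + |c|) hm.aestronglyMeasurable (Eventually.of_forall fun x => by
      rw [Real.norm_eq_abs, abs_abs]; exact hbd x)
  refine ⟨hi, ?_⟩
  have hpos : 0 < volume.real (closedBall x0 ρ) := by
    rw [measureReal_def]
    exact ENNReal.toReal_pos (measure_closedBall_pos _ _ hρ).ne' measure_closedBall_lt_top.ne
  have hIO : IntegrableOn (fun x => |a x - c|) (closedBall x0 ρ) volume := by
    refine Measure.integrableOn_of_bounded (M := M + |c|) measure_closedBall_lt_top.ne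
      hm.aestronglyMeasurable (Eventually.of_forall fun x => ?_)
    rw [Real.norm_eq_abs, abs_abs]; exact hbd x
  have h1 : volume.real (closedBall x0 ρ) * osc a c x0 ρ = ∫ x in closedBall x0 ρ, |a x - c| := by
    unfold osc
    rw [setAverage_eq, smul_eq_mul, ← mul_assoc, mul_inv_cancel₀ hpos.ne', one_mul]
    rfl
  rw [h1, ← integral_indicator measurableSet_closedBall]
  apply integral_mono hi
  · rw [integrable_indicator_iff measurableSet_closedBall]
    exact hIO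
  · intro x
    show f x * |a x - c| ≤ _
    by_cases hx : x ∈ closedBall x0 ρ
    · rw [indicator_of_mem hx]
      exact mul_le_of_le_one_left (abs_nonneg _) (h.le x)
    · rw [indicator_of_notMem hx, h.out x hx, zero_mul]

theorem ext_ineq (hs : 0 < s) {a1 a2 : E n → ℝ} {m M : ℝ} (h1 : Wt a1 m M) (h2 : Wt a2 m M)
    {x0 x1 : E n} {ρ : ℝ} (hρ : 0 < ρ) (hx : ‖x1 - x0‖ = 3 * ρ)
    {f g : E n → ℝ} (hf : Bmp x0 ρ f) (hg : Bmp x1 ρ g) (hq : a2 x0 ^ 2 < a1 x0 ^ 2) :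
    (Integrable (fun p : E n × E n => (g p.1 * a1 p.1) * (f p.2 * a1 p.2) * ker s p)
      (volume.prod volume) ∧
    Integrable (fun p : E n × E n => (g p.1 * a2 p.1) * (f p.2 * a2 p.2) * ker s p)
      (volume.prod volume)) ∧
    (a1 x0 ^ 2 - a2 x0 ^ 2) * (5 * ρ) ^ (-((n : ℝ) + 2 * s)) *
        ((1 / 2) ^ n * volume.real (closedBall (0 : E n) ρ)) ^ 2 ≤
      (Qf s a1 f g - Qf s a2 f g) + M * ρ ^ (-((n : ℝ) + 2 * s)) *
        (volume.real (closedBall (0 : E n) ρ)) ^ 2 *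
        (osc a1 (a1 x0) x1 ρ + osc a1 (a1 x0) x0 ρ + (osc a2 (a2 x0) x1 ρ +
          osc a2 (a2 x0) x0 ρ)) := by
  have hn0 : (0:ℝ) ≤ n := n.cast_nonneg
  set c1 := a1 x0 with hc1
  set c2 := a2 x0 with hc2
  set V := volume.real (closedBall (0 : E n) ρ) with hV
  set P5 := (5 * ρ) ^ (-((n : ℝ) + 2 * s)) with hP5
  set P1 := ρ ^ (-((n : ℝ) + 2 * s)) with hP1
  have hP5' : 0 < P5 := by positivity
  have hP1' : 0 < P1 := by positivity
  have hM := h1.Mpos
  -- geometry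
  have hgeo : ∀ p : E n × E n, g p.1 ≠ 0 → f p.2 ≠ 0 → ρ ≤ ‖p.1 - p.2‖ ∧ ‖p.1 - p.2‖ ≤ 5 * ρ := by
    intro p hp1 hp2
    have e1 : ‖p.1 - x1‖ ≤ ρ := by
      by_contra h
      exact hp1 (hg.out _ (by rwa [mem_closedBall, dist_eq_norm]))
    have e2 : ‖p.2 - x0‖ ≤ ρ := by
      by_contra h
      exact hp2 (hf.out _ (by rwa [mem_closedBall, dist_eq_norm]))
    have e3 : p.1 - p.2 = (x1 - x0) + ((p.1 - x1) - (p.2 - x0)) := by abel
    have e4 : ‖(p.1 - x1) - (p.2 - x0)‖ ≤ 2 * ρ := (norm_sub_le _ _).trans (by linarith)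
    constructor
    · have := norm_sub_norm_le (x1 - x0) (-((p.1 - x1) - (p.2 - x0)))
      rw [norm_neg, sub_neg_eq_add, ← e3] at this
      linarith
    · rw [e3]
      exact (norm_add_le _ _).trans (by linarith)
  -- integrability of the pairings
  have hQ : ∀ {a : E n → ℝ}, Wt a m M → Integrable (fun p : E n × E n =>
      (g p.1 * a p.1) * (f p.2 * a p.2) * ker s p) (volume.prod volume) := by
    intro a ha
    exact (Qf_bound hs ha hg.int hf.int.1 (w1 := fun _ => 0) (integrable_zero _ _ _) (T := 1)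
      (Eventually.of_forall fun y => by
        show |f y| ≤ 0 + 1
        rw [abs_of_nonneg (hf.nn y), zero_add]
        exact hf.le y) (fun _ => le_refl _) zero_le_one hρ
      (Eventually.of_forall fun p hp1 hp2 => (hgeo p hp1 hp2).1)).1
  have hQ1 := hQ h1
  have hQ2 := hQ h2
  refine ⟨⟨hQ1, hQ2⟩, ?_⟩
  -- the pointwise inequality
  have hosc : ∀ {a : E n → ℝ}, Wt a m M → ∀ p : E n × E n,
      |a p.1 * a p.2 - a x0 ^ 2| ≤ M * (|a p.1 - a x0| + |a p.2 - a x0|) := by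
    intro a ha p
    have e : a p.1 * a p.2 - a x0 ^ 2 = a p.1 * (a p.2 - a x0) + a x0 * (a p.1 - a x0) := by ring
    rw [e]
    refine (abs_add_le _ _).trans ?_
    rw [abs_mul, abs_mul, abs_of_pos (ha.nonneg _), abs_of_pos (ha.nonneg _)]
    have e1 := mul_le_mul_of_nonneg_right (ha.hi p.1) (abs_nonneg (a p.2 - a x0))
    have e2 := mul_le_mul_of_nonneg_right (ha.hi x0) (abs_nonneg (a p.1 - a x0))
    linarith
  have hpt : ∀ p : E n × E n, (c1 ^ 2 - c2 ^ 2) * P5 * (g p.1 * f p.2) ≤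
      ((g p.1 * a1 p.1) * (f p.2 * a1 p.2) * ker s p -
        (g p.1 * a2 p.1) * (f p.2 * a2 p.2) * ker s p) + M * P1 *
        (((g p.1 * |a1 p.1 - c1|) * f p.2 + g p.1 * (f p.2 * |a1 p.2 - c1|)) +
         ((g p.1 * |a2 p.1 - c2|) * f p.2 + g p.1 * (f p.2 * |a2 p.2 - c2|))) := by
    intro p
    by_cases hg0 : g p.1 = 0
    · rw [hg0]; simp
    by_cases hf0 : f p.2 = 0
    · rw [hf0]; simp
    obtain ⟨d1, d2⟩ := hgeo p hg0 hf0
    have hgf : 0 ≤ g p.1 * f p.2 := mul_nonneg (hg.nn _) (hf.nn _)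
    have k1 : ker s p ≤ P1 := Real.rpow_le_rpow_of_nonpos hρ d1 (by linarith)
    have k5 : P5 ≤ ker s p := Real.rpow_le_rpow_of_nonpos (by linarith) d2 (by linarith)
    have o1 := hosc h1 p
    have o2 := hosc h2 p
    have o1' := (abs_le.1 o1).1
    have o2' := (abs_le.1 o2).2
    set O1 := |a1 p.1 - c1| + |a1 p.2 - c1| with hO1
    set O2 := |a2 p.1 - c2| + |a2 p.2 - c2| with hO2
    have hO : 0 ≤ M * (O1 + O2) := by positivity
    have s1 : (c1 ^ 2 - c2 ^ 2) * P5 ≤ (c1 ^ 2 - c2 ^ 2) * ker s p :=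
      mul_le_mul_of_nonneg_left k5 (by linarith)
    have s2 : c1 ^ 2 - c2 ^ 2 ≤ (a1 p.1 * a1 p.2 - a2 p.1 * a2 p.2) + M * (O1 + O2) := by
      linarith
    have s3 : (c1 ^ 2 - c2 ^ 2) * ker s p ≤
        (a1 p.1 * a1 p.2 - a2 p.1 * a2 p.2) * ker s p + M * (O1 + O2) * P1 := by
      have t1 := mul_le_mul_of_nonneg_right s2 (ker_nonneg (s := s) p)
      have t2 := mul_le_mul_of_nonneg_left k1 hO
      linarith
    have s4 := mul_le_mul_of_nonneg_right (s1.trans s3) hgf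
    calc (c1 ^ 2 - c2 ^ 2) * P5 * (g p.1 * f p.2) ≤ _ := s4
      _ = _ := by rw [hO1, hO2]; ring
  obtain ⟨i11, b11⟩ := hg.osc_le hρ h1 c1
  obtain ⟨i10, b10⟩ := hf.osc_le hρ h1 c1
  obtain ⟨i21, b21⟩ := hg.osc_le hρ h2 c2
  obtain ⟨i20, b20⟩ := hf.osc_le hρ h2 c2
  have j1 : Integrable (fun p : E n × E n => (g p.1 * |a1 p.1 - c1|) * f p.2)
    (volume.prod volume) := i11.mul_prod hf.int
  have j2 : Integrable (fun p : E n × E n => g p.1 * (f p.2 * |a1 p.2 - c1|))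
    (volume.prod volume) := hg.int.mul_prod i10
  have j3 : Integrable (fun p : E n × E n => (g p.1 * |a2 p.1 - c2|) * f p.2)
    (volume.prod volume) := i21.mul_prod hf.int
  have j4 : Integrable (fun p : E n × E n => g p.1 * (f p.2 * |a2 p.2 - c2|))
    (volume.prod volume) := hg.int.mul_prod i20
  have j0 : Integrable (fun p : E n × E n => g p.1 * f p.2)
    (volume.prod volume) := hg.int.mul_prod hf.int
  have hint := integral_mono (j0.const_mul ((c1 ^ 2 - c2 ^ 2) * P5))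
    ((hQ1.sub hQ2).add (((j1.add j2).add (j3.add j4)).const_mul (M * P1))) hpt
  have eL : ∫ p : E n × E n, (c1 ^ 2 - c2 ^ 2) * P5 * (g p.1 * f p.2) ∂(volume.prod volume) =
      (c1 ^ 2 - c2 ^ 2) * P5 * ((∫ x, g x) * ∫ x, f x) := by
    rw [integral_const_mul, integral_prod_mul g f]
  have eR : ∫ p : E n × E n, ((g p.1 * a1 p.1) * (f p.2 * a1 p.2) * ker s p -
        (g p.1 * a2 p.1) * (f p.2 * a2 p.2) * ker s p) + M * P1 *
        (((g p.1 * |a1 p.1 - c1|) * f p.2 + g p.1 * (f p.2 * |a1 p.2 - c1|)) +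
         ((g p.1 * |a2 p.1 - c2|) * f p.2 + g p.1 * (f p.2 * |a2 p.2 - c2|)))
         ∂(volume.prod volume) = (Qf s a1 f g - Qf s a2 f g) + M * P1 *
      (((∫ x, g x * |a1 x - c1|) * (∫ x, f x) + (∫ x, g x) * ∫ x, f x * |a1 x - c1|) +
       ((∫ x, g x * |a2 x - c2|) * (∫ x, f x) + (∫ x, g x) * ∫ x, f x * |a2 x - c2|)) := by
    have t1 : ∫ p : E n × E n, ((g p.1 * a1 p.1) * (f p.2 * a1 p.2) * ker s p -
        (g p.1 * a2 p.1) * (f p.2 * a2 p.2) * ker s p) + M * P1 *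
        (((g p.1 * |a1 p.1 - c1|) * f p.2 + g p.1 * (f p.2 * |a1 p.2 - c1|)) +
         ((g p.1 * |a2 p.1 - c2|) * f p.2 + g p.1 * (f p.2 * |a2 p.2 - c2|)))
         ∂(volume.prod volume) =
        (∫ p : E n × E n, ((g p.1 * a1 p.1) * (f p.2 * a1 p.2) * ker s p -
        (g p.1 * a2 p.1) * (f p.2 * a2 p.2) * ker s p) ∂(volume.prod volume)) +
        ∫ p : E n × E n, M * P1 *
        (((g p.1 * |a1 p.1 - c1|) * f p.2 + g p.1 * (f p.2 * |a1 p.2 - c1|)) +
         ((g p.1 * |a2 p.1 - c2|) * f p.2 + g p.1 * (f p.2 * |a2 p.2 - c2|)))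
         ∂(volume.prod volume) :=
      integral_add (hQ1.sub hQ2) (((j1.add j2).add (j3.add j4)).const_mul (M * P1))
    have t2 : ∫ p : E n × E n, ((g p.1 * a1 p.1) * (f p.2 * a1 p.2) * ker s p -
        (g p.1 * a2 p.1) * (f p.2 * a2 p.2) * ker s p) ∂(volume.prod volume) =
        Qf s a1 f g - Qf s a2 f g := integral_sub hQ1 hQ2
    have t3 : ∫ p : E n × E n, 
        (((g p.1 * |a1 p.1 - c1|) * f p.2 + g p.1 * (f p.2 * |a1 p.2 - c1|)) +
         ((g p.1 * |a2 p.1 - c2|) * f p.2 + g p.1 * (f p.2 * |a2 p.2 - c2|)))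
         ∂(volume.prod volume) =
         (∫ p : E n × E n, ((g p.1 * |a1 p.1 - c1|) * f p.2 + g p.1 * (f p.2 * |a1 p.2 - c1|))
           ∂(volume.prod volume)) +
         ∫ p : E n × E n, ((g p.1 * |a2 p.1 - c2|) * f p.2 + g p.1 * (f p.2 * |a2 p.2 - c2|))
           ∂(volume.prod volume) := integral_add (j1.add j2) (j3.add j4)
    have t4 : ∫ p : E n × E n, ((g p.1 * |a1 p.1 - c1|) * f p.2 + g p.1 * (f p.2 * |a1 p.2 - c1|))
           ∂(volume.prod volume) = (∫ x, g x * |a1 x - c1|) * (∫ x, f x) +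
           (∫ x, g x) * ∫ x, f x * |a1 x - c1| := by
      rw [integral_add j1 j2, integral_prod_mul (fun x => g x * |a1 x - c1|) f,
        integral_prod_mul g (fun x => f x * |a1 x - c1|)]
    have t5 : ∫ p : E n × E n, ((g p.1 * |a2 p.1 - c2|) * f p.2 + g p.1 * (f p.2 * |a2 p.2 - c2|))
           ∂(volume.prod volume) = (∫ x, g x * |a2 x - c2|) * (∫ x, f x) +
           (∫ x, g x) * ∫ x, f x * |a2 x - c2| := by
      rw [integral_add j3 j4, integral_prod_mul (fun x => g x * |a2 x - c2|) f,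
        integral_prod_mul g (fun x => f x * |a2 x - c2|)]
    rw [t1, t2, integral_const_mul, t3, t4, t5]
  have hint2 : (c1 ^ 2 - c2 ^ 2) * P5 * ((∫ x, g x) * ∫ x, f x) ≤
      (Qf s a1 f g - Qf s a2 f g) + M * P1 *
      (((∫ x, g x * |a1 x - c1|) * (∫ x, f x) + (∫ x, g x) * ∫ x, f x * |a1 x - c1|) +
       ((∫ x, g x * |a2 x - c2|) * (∫ x, f x) + (∫ x, g x) * ∫ x, f x * |a2 x - c2|)) := by
    rw [← eL, ← eR]
    exact hint
  -- volumes
  have vx : ∀ x : E n, volume.real (closedBall x ρ) = V := fun x => by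
    rw [hV, vol_ball x hρ.le, vol_ball 0 hρ.le]
  have vx2 : ∀ x : E n, volume.real (closedBall x (ρ / 2)) = (1 / 2) ^ n * V := fun x => by
    rw [hV, vol_ball x (by positivity), vol_ball 0 hρ.le, div_eq_mul_one_div ρ 2, mul_pow]
    ring
  have hV0 : 0 ≤ V := measureReal_nonneg
  have f1 : ∫ x, f x ≤ V := by rw [← vx x0]; exact hf.int_le
  have g1 : ∫ x, g x ≤ V := by rw [← vx x1]; exact hg.int_le
  have f2 : (1 / 2) ^ n * V ≤ ∫ x, f x := by rw [← vx2 x0]; exact hf.le_int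
  have g2 : (1 / 2) ^ n * V ≤ ∫ x, g x := by rw [← vx2 x1]; exact hg.le_int
  rw [vx] at b11 b10 b21 b20
  have f3 : 0 ≤ ∫ x, f x := integral_nonneg hf.nn
  have g3 : 0 ≤ ∫ x, g x := integral_nonneg hg.nn
  have lhs : (c1 ^ 2 - c2 ^ 2) * P5 * ((1 / 2) ^ n * V) ^ 2 ≤
      (c1 ^ 2 - c2 ^ 2) * P5 * ((∫ x, g x) * ∫ x, f x) := by
    apply mul_le_mul_of_nonneg_left _ (mul_nonneg (by linarith) hP5'.le)
    rw [sq]
    exact mul_le_mul g2 f2 (by positivity) g3
  have o11 : 0 ≤ osc a1 c1 x1 ρ := by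
    unfold osc; rw [setAverage_eq]
    exact mul_nonneg (by positivity) (integral_nonneg fun _ => norm_nonneg _)
  have o10 : 0 ≤ osc a1 c1 x0 ρ := by
    unfold osc; rw [setAverage_eq]
    exact mul_nonneg (by positivity) (integral_nonneg fun _ => norm_nonneg _)
  have o21 : 0 ≤ osc a2 c2 x1 ρ := by
    unfold osc; rw [setAverage_eq]
    exact mul_nonneg (by positivity) (integral_nonneg fun _ => norm_nonneg _)
  have o20 : 0 ≤ osc a2 c2 x0 ρ := by
    unfold osc; rw [setAverage_eq]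
    exact mul_nonneg (by positivity) (integral_nonneg fun _ => norm_nonneg _)
  have r1 : (∫ x, g x * |a1 x - c1|) * (∫ x, f x) ≤ V * osc a1 c1 x1 ρ * V :=
    mul_le_mul b11 f1 f3 (by positivity)
  have r2 : (∫ x, g x) * (∫ x, f x * |a1 x - c1|) ≤ V * (V * osc a1 c1 x0 ρ) :=
    mul_le_mul g1 b10 (integral_nonneg fun x => mul_nonneg (hf.nn x) (abs_nonneg _)) hV0
  have r3 : (∫ x, g x * |a2 x - c2|) * (∫ x, f x) ≤ V * osc a2 c2 x1 ρ * V :=
    mul_le_mul b21 f1 f3 (by positivity)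
  have r4 : (∫ x, g x) * (∫ x, f x * |a2 x - c2|) ≤ V * (V * osc a2 c2 x0 ρ) :=
    mul_le_mul g1 b20 (integral_nonneg fun x => mul_nonneg (hf.nn x) (abs_nonneg _)) hV0
  have rr : M * P1 *
      (((∫ x, g x * |a1 x - c1|) * (∫ x, f x) + (∫ x, g x) * ∫ x, f x * |a1 x - c1|) +
       ((∫ x, g x * |a2 x - c2|) * (∫ x, f x) + (∫ x, g x) * ∫ x, f x * |a2 x - c2|)) ≤
      M * P1 * V ^ 2 * (osc a1 c1 x1 ρ + osc a1 c1 x0 ρ + (osc a2 c2 x1 ρ + osc a2 c2 x0 ρ)) := by
    have : M * P1 * V ^ 2 * (osc a1 c1 x1 ρ + osc a1 c1 x0 ρ +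
        (osc a2 c2 x1 ρ + osc a2 c2 x0 ρ)) = M * P1 * ((V * osc a1 c1 x1 ρ * V +
        V * (V * osc a1 c1 x0 ρ)) + (V * osc a2 c2 x1 ρ * V + V * (V * osc a2 c2 x0 ρ))) := by
      ring
    rw [this]
    apply mul_le_mul_of_nonneg_left _ (by positivity)
    linarith
  linarith

end Pool.Agent.H305R3.FC
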