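import Pool.Agent.H305R3.FC7

set_option autoImplicit false

open Set Filter Topology Metric MeasureTheory

namespace Pool.Agent.H305R3.FC

variable {n : ℕ} {s : ℝ}

/-- equality of the partial data, in terms of correctors -/
def DNeq (s : ℝ) (Ω W : Set (E n)) (a1 a2 : E n → ℝ) : Prop :=
  ∀ f g, TestFun W f → TestFun W g → ∀ v1 v2, Corr s Ω a1 f v1 → Corr s Ω a2 f v2 →
    Bf s a1 (fun x => f x + v1 x) g = Bf s a2 (fun x => f x + v2 x) g

/-- the standard bump -/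
theorem exists_bmp (x0 : E n) {ρ : ℝ} (hρ : 0 < ρ) :
    ∃ f : E n → ℝ, Bmp x0 ρ f ∧ ContDiff ℝ ((⊤ : ℕ∞) : WithTop ℕ∞) f ∧ HasCompactSupport f ∧
      tsupport f ⊆ closedBall x0 ρ := by
  let fb : ContDiffBump x0 := ⟨ρ / 2, ρ, by positivity, by linarith⟩
  have hts : tsupport (fb : E n → ℝ) = closedBall x0 ρ := fb.tsupport_eq
  refine ⟨fb, ⟨?_, fun x => fb.nonneg, fun x => fb.le_one, fun x hx => ?_, fun x hx => ?_⟩,
    fb.contDiff, fb.hasCompactSupport, hts.le⟩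
  · exact fb.continuous.integrable_of_hasCompactSupport fb.hasCompactSupport
  · exact fb.one_of_mem_closedBall hx
  · rw [← hts] at hx
    exact image_eq_zero_of_notMem_tsupport hx

theorem corr_exists (hn : 1 ≤ n) (hs : 0 < s) (hs1 : s < 1) {Ω : Set (E n)}
    (hb : BddOneDir Ω) {a : E n → ℝ} {m M : ℝ} (ha : Wt a m M) {f : E n → ℝ} (hf : MemHs s f) :
    ∃ v, Corr s Ω a f v := by
  obtain ⟨v, h1, h2⟩ := exists_sol_aux hn hs hs1 hb ha hf
  exact ⟨v, h1, h2⟩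

/-- for disjoint supports inside `W` -/
theorem DN_pair (hn : 1 ≤ n) (hs : 0 < s) (hs1 : s < 1) {Ω W : Set (E n)}
    (hb : BddOneDir Ω) {a1 a2 : E n → ℝ} {m M : ℝ} (h1 : Wt a1 m M) (h2 : Wt a2 m M)
    (hDN : DNeq s Ω W a1 a2) {f g : E n → ℝ} (hf : TestFun W f) (hg : TestFun W g) :
    ∃ v1 v2, Corr s Ω a1 f v1 ∧ Corr s Ω a2 f v2 ∧
      Bf s a1 f g + Bf s a1 v1 g = Bf s a2 f g + Bf s a2 v2 g := by
  have hfH := hf.memHs hn hs hs1
  have hgH := hg.memHs hn hs hs1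
  obtain ⟨v1, hv1⟩ := corr_exists hn hs hs1 hb h1 hfH
  obtain ⟨v2, hv2⟩ := corr_exists hn hs hs1 hb h2 hfH
  refine ⟨v1, v2, hv1, hv2, ?_⟩
  have := hDN f g hf hg v1 v2 hv1 hv2
  rwa [Bf_add h1 hfH hv1.ht.1 hgH, Bf_add h2 hfH hv2.ht.1 hgH] at this

theorem ext_le (hn : 1 ≤ n) (hs : 0 < s) (hs1 : s < 1) {Ω W : Set (E n)}
    (hΩ : MeasurableSet Ω) (hb : BddOneDir Ω) (hW : IsOpen W) (hWΩ : ∀ x ∈ W, x ∉ Ω)
    {a1 a2 : E n → ℝ} {m M : ℝ} (h1 : Wt a1 m M) (h2 : Wt a2 m M)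
    (hDN : DNeq s Ω W a1 a2) :
    ∀ᵐ x ∂(volume : Measure (E n)), x ∈ W → a1 x ^ 2 ≤ a2 x ^ 2 := by
  obtain ⟨CP, hP⟩ := exists_PoinC hs hb
  obtain ⟨e, -, -, he, -, -⟩ := id hb
  have hloc : ∀ {a : E n → ℝ}, Wt a m M → LocallyIntegrable a volume := by
    intro a ha
    have : MemLp a ⊤ (volume : Measure (E n)) :=
      memLp_top_of_bound ha.meas.aestronglyMeasurable M (Eventually.of_forall fun x => by
        rw [Real.norm_of_nonneg (ha.nonneg x).le]; exact ha.hi x)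
    exact this.locallyIntegrable le_top
  have L1 := IsUnifLocDoublingMeasure.ae_tendsto_average_norm_sub (volume : Measure (E n))
    (hloc h1) 3
  have L2 := IsUnifLocDoublingMeasure.ae_tendsto_average_norm_sub (volume : Measure (E n))
    (hloc h2) 3
  filter_upwards [L1, L2] with x0 l1 l2 hxW
  by_contra hq
  push Not at hq
  obtain ⟨ε, hε, hball⟩ := Metric.isOpen_iff.1 hW x0 hxW
  set d : ℝ := ε / 2 with hd
  have hdpos : 0 < d := by positivity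
  have hsepB : ∀ x ∈ ball x0 d, ∀ y ∈ Ω, d ≤ ‖x - y‖ := by
    intro x hx y hy
    rw [mem_ball, dist_eq_norm] at hx
    have hyn : ¬ (‖y - x0‖ < ε) := by
      intro h
      exact hWΩ y (hball (by rwa [mem_ball, dist_eq_norm])) hy
    push Not at hyn
    have : ‖y - x0‖ ≤ ‖x - x0‖ + ‖x - y‖ := by
      calc ‖y - x0‖ = ‖(x - x0) - (x - y)‖ := by congr 1; abel
        _ ≤ _ := norm_sub_le _ _
    linarith
  set p : ℝ := (n : ℝ) + 2 * s with hp
  have hppos : 0 < p := by positivity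
  set C : ℝ := cQ n s d m M CP with hC
  set O : ℝ → ℝ := fun ρ => osc a1 (a1 x0) (x0 + (3 * ρ) • e) ρ + osc a1 (a1 x0) x0 ρ +
    (osc a2 (a2 x0) (x0 + (3 * ρ) • e) ρ + osc a2 (a2 x0) x0 ρ) with hO
  have hMain : ∀ ρ : ℝ, 0 < ρ → 4 * ρ < d →
      (a1 x0 ^ 2 - a2 x0 ^ 2) * 5 ^ (-p) * ((1 / 2) ^ n) ^ 2 ≤ 2 * C * ρ ^ p + M * O ρ := by
    intro ρ hρ hρd
    set x1 : E n := x0 + (3 * ρ) • e with hx1
    have hx10 : ‖x1 - x0‖ = 3 * ρ := by
      rw [hx1, add_sub_cancel_left, norm_smul, he, mul_one, Real.norm_of_nonneg (by positivity)]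
    obtain ⟨f, hfb, hf1, hf2, hf3⟩ := exists_bmp x0 hρ
    obtain ⟨g, hgb, hg1, hg2, hg3⟩ := exists_bmp x1 hρ
    have hfd : closedBall x0 ρ ⊆ ball x0 d := closedBall_subset_ball (by linarith)
    have hgd : closedBall x1 ρ ⊆ ball x0 d := by
      intro x hx
      rw [mem_closedBall, dist_eq_norm] at hx
      rw [mem_ball, dist_eq_norm]
      calc ‖x - x0‖ = ‖(x - x1) + (x1 - x0)‖ := by congr 1; abel
        _ ≤ ‖x - x1‖ + ‖x1 - x0‖ := norm_add_le _ _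
        _ < d := by rw [hx10]; linarith
    have hdW : ball x0 d ⊆ W := (ball_subset_ball (by linarith)).trans hball
    have hfT : TestFun W f := ⟨hf1, hf2, hf3.trans (hfd.trans hdW)⟩
    have hgT : TestFun W g := ⟨hg1, hg2, hg3.trans (hgd.trans hdW)⟩
    have hfsep : SepD d f Ω := fun x hx => hsepB x (hfd (by
      by_contra h
      exact hx (hfb.out x h)))
    have hgsep : SepD d g Ω := fun x hx => hsepB x (hgd (by
      by_contra h
      exact hx (hgb.out x h)))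
    obtain ⟨v1, v2, hv1, hv2, heq⟩ := DN_pair hn hs hs1 hb h1 h2 hDN hfT hgT
    have htf : ∀ φ : E n → ℝ, TestFun Ω φ → MemHs s φ := fun φ hφ => hφ.memHs hn hs hs1
    have hv10 := hv1.ht.ae_zero hΩ htf
    have hv20 := hv2.ht.ae_zero hΩ htf
    have hfH := hfT.memHs hn hs hs1
    have hfabs : ∫ x, |f x| = ∫ x, f x := by
      congr 1
      funext x
      exact abs_of_nonneg (hfb.nn x)
    have hgabs : ∫ x, |g x| = ∫ x, g x := by
      congr 1
      funext x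
      exact abs_of_nonneg (hgb.nn x)
    have hω : 0 < volume.real (ball (0 : E n) 1) := by
      rw [measureReal_def]
      exact ENNReal.toReal_pos (measure_ball_pos _ _ one_pos).ne' measure_ball_lt_top.ne
    have hfpos : 0 < ∫ x, |f x| := by
      rw [hfabs]
      refine lt_of_lt_of_le ?_ hfb.le_int
      rw [vol_ball _ (by positivity)]
      positivity
    obtain ⟨q1, b1⟩ := Q_corr_bound hs hP h1 hfH hfb.int hfpos hgb.int hv1 hv10 hdpos hfsep hgsep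
    obtain ⟨q2, b2⟩ := Q_corr_bound hs hP h2 hfH hfb.int hfpos hgb.int hv2 hv20 hdpos hfsep hgsep
    obtain ⟨⟨i1, i2⟩, hineq⟩ := ext_ineq hs h1 h2 hρ hx10 hfb hgb hq
    have hfg : ∀ᵐ x ∂(volume : Measure (E n)), f x * g x = 0 := by
      refine Eventually.of_forall fun x => ?_
      by_cases hfx : f x = 0
      · rw [hfx, zero_mul]
      by_cases hgx : g x = 0
      · rw [hgx, mul_zero]
      exfalso
      have e1 : x ∈ closedBall x0 ρ := by
        by_contra h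
        exact hfx (hfb.out x h)
      have e2 : x ∈ closedBall x1 ρ := by
        by_contra h
        exact hgx (hgb.out x h)
      rw [mem_closedBall, dist_eq_norm] at e1 e2
      have : ‖x1 - x0‖ ≤ ‖x - x0‖ + ‖x - x1‖ := by
        calc ‖x1 - x0‖ = ‖(x - x0) - (x - x1)‖ := by congr 1; abel
          _ ≤ _ := norm_sub_le _ _
      linarith
    rw [q1, q2, Bf_offdiag i1 hfg, Bf_offdiag i2 hfg] at heq
    set V := volume.real (closedBall (0 : E n) ρ) with hV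
    have hVpos : 0 < V := by
      rw [hV, vol_ball _ hρ.le]
      positivity
    have hfV : ∫ x, |f x| ≤ V := by
      rw [hfabs]
      have := hfb.int_le
      rwa [vol_ball _ hρ.le, ← vol_ball 0 hρ.le] at this
    have hgV : ∫ x, |g x| ≤ V := by
      rw [hgabs]
      have := hgb.int_le
      rwa [vol_ball _ hρ.le, ← vol_ball 0 hρ.le] at this
    have hg0 : 0 ≤ ∫ x, |g x| := integral_nonneg fun x => abs_nonneg _
    have hC0 : 0 ≤ C := by
      rw [hC]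
      unfold cQ cV cD
      have := cK_nonneg (n := n) (s := s) d
      have := h1.Mpos
      positivity
    have hDb : Qf s a1 f g - Qf s a2 f g ≤ 2 * C * V ^ 2 := by
      have e1 := (abs_le.1 b1).1
      have e2 := (abs_le.1 b2).2
      have e3 : C * (∫ x, |f x|) * (∫ x, |g x|) ≤ C * V ^ 2 := by
        rw [mul_assoc, sq]
        exact mul_le_mul_of_nonneg_left (mul_le_mul hfV hgV hg0 hVpos.le) hC0
      linarith
    have hfin : (a1 x0 ^ 2 - a2 x0 ^ 2) * (5 * ρ) ^ (-p) * ((1 / 2) ^ n * V) ^ 2 ≤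
        2 * C * V ^ 2 + M * ρ ^ (-p) * V ^ 2 * O ρ := by
      refine hineq.trans ?_
      exact add_le_add hDb (le_refl _)
    rw [Real.mul_rpow (by norm_num) hρ.le] at hfin
    have hρp : 0 < ρ ^ (-p) := by positivity
    have hρp2 : ρ ^ p * ρ ^ (-p) = 1 := by
      rw [← Real.rpow_add hρ]; simp
    have e5 : (a1 x0 ^ 2 - a2 x0 ^ 2) * 5 ^ (-p) * ((1 / 2) ^ n) ^ 2 * (ρ ^ (-p) * V ^ 2) ≤
        (2 * C * ρ ^ p + M * O ρ) * (ρ ^ (-p) * V ^ 2) := by
      have e6 : (2 * C * ρ ^ p + M * O ρ) * (ρ ^ (-p) * V ^ 2) =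
          2 * C * V ^ 2 * (ρ ^ p * ρ ^ (-p)) + M * ρ ^ (-p) * V ^ 2 * O ρ := by ring
      rw [e6, hρp2, mul_one]
      refine le_trans (le_of_eq ?_) hfin
      ring
    exact le_of_mul_le_mul_right e5 (by positivity)
  -- the limit
  have hid : Tendsto (fun ρ : ℝ => ρ) (𝓝[>] 0) (𝓝[>] 0) := tendsto_id
  have hpos : ∀ᶠ ρ : ℝ in 𝓝[>] (0:ℝ), 0 < ρ := self_mem_nhdsWithin
  have t11 : Tendsto (fun ρ : ℝ => osc a1 (a1 x0) (x0 + (3 * ρ) • e) ρ) (𝓝[>] 0) (𝓝 0) := by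
    refine l1 (fun ρ : ℝ => x0 + (3 * ρ) • e) (fun ρ => ρ) hid ?_
    filter_upwards [hpos] with ρ hρ
    rw [mem_closedBall, dist_eq_norm, sub_add_cancel_left, norm_neg, norm_smul, he, mul_one,
      Real.norm_of_nonneg (by positivity)]
  have t21 : Tendsto (fun ρ : ℝ => osc a2 (a2 x0) (x0 + (3 * ρ) • e) ρ) (𝓝[>] 0) (𝓝 0) := by
    refine l2 (fun ρ : ℝ => x0 + (3 * ρ) • e) (fun ρ => ρ) hid ?_
    filter_upwards [hpos] with ρ hρ
    rw [mem_closedBall, dist_eq_norm, sub_add_cancel_left, norm_neg, norm_smul, he, mul_one,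
      Real.norm_of_nonneg (by positivity)]
  have t10 : Tendsto (fun ρ : ℝ => osc a1 (a1 x0) x0 ρ) (𝓝[>] 0) (𝓝 0) := by
    refine l1 (fun ρ : ℝ => x0) (fun ρ => ρ) hid ?_
    filter_upwards [hpos] with ρ hρ
    exact mem_closedBall_self (by positivity)
  have t20 : Tendsto (fun ρ : ℝ => osc a2 (a2 x0) x0 ρ) (𝓝[>] 0) (𝓝 0) := by
    refine l2 (fun ρ : ℝ => x0) (fun ρ => ρ) hid ?_
    filter_upwards [hpos] with ρ hρ
    exact mem_closedBall_self (by positivity)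
  have tρ : Tendsto (fun ρ : ℝ => ρ ^ p) (𝓝[>] 0) (𝓝 0) := by
    have : Tendsto (fun ρ : ℝ => ρ ^ p) (𝓝 0) (𝓝 (0 ^ p)) :=
      (Real.continuousAt_rpow_const 0 p (Or.inr hppos.le)).tendsto
    rw [Real.zero_rpow hppos.ne'] at this
    exact this.mono_left nhdsWithin_le_nhds
  have tR : Tendsto (fun ρ : ℝ => 2 * C * ρ ^ p + M * O ρ) (𝓝[>] 0) (𝓝 0) := by
    have h := (tρ.const_mul (2 * C)).add (((t11.add t10).add (t21.add t20)).const_mul M)
    simpa using h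
  have hev : ∀ᶠ ρ : ℝ in 𝓝[>] (0:ℝ),
      (a1 x0 ^ 2 - a2 x0 ^ 2) * 5 ^ (-p) * ((1 / 2) ^ n) ^ 2 ≤ 2 * C * ρ ^ p + M * O ρ := by
    filter_upwards [hpos, Ioo_mem_nhdsGT (show (0:ℝ) < d / 4 by positivity)] with ρ hρ hρ2
    exact hMain ρ hρ (by have := hρ2.2; linarith)
  have hlim := ge_of_tendsto tR hev
  have : 0 < (a1 x0 ^ 2 - a2 x0 ^ 2) * 5 ^ (-p) * ((1 / 2) ^ n) ^ 2 := by
    have : 0 < a1 x0 ^ 2 - a2 x0 ^ 2 := by linarith
    positivity
  linarith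

theorem ext_eq (hn : 1 ≤ n) (hs : 0 < s) (hs1 : s < 1) {Ω W : Set (E n)}
    (hΩ : MeasurableSet Ω) (hb : BddOneDir Ω) (hW : IsOpen W) (hWΩ : ∀ x ∈ W, x ∉ Ω)
    {a1 a2 : E n → ℝ} {m M : ℝ} (h1 : Wt a1 m M) (h2 : Wt a2 m M)
    (hDN : DNeq s Ω W a1 a2) :
    ∀ᵐ x ∂(volume : Measure (E n)), x ∈ W → a1 x = a2 x := by
  have hDN' : DNeq s Ω W a2 a1 := fun f g hf hg v1 v2 hv1 hv2 =>
    (hDN f g hf hg v2 v1 hv2 hv1).symm
  filter_upwards [ext_le hn hs hs1 hΩ hb hW hWΩ h1 h2 hDN,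
    ext_le hn hs hs1 hΩ hb hW hWΩ h2 h1 hDN'] with x e1 e2 hx
  have := le_antisymm (e1 hx) (e2 hx)
  exact (pow_left_inj₀ (h1.nonneg x).le (h2.nonneg x).le two_ne_zero).1 this

end Pool.Agent.H305R3.FC
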