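import Pool.Agent.H305R3.FC8

set_option autoImplicit false

open Set Filter Topology Metric MeasureTheory

namespace Pool.Agent.H305R3.FC

variable {n : ℕ} {s : ℝ}

/-- integrability of a section -/
theorem int_sec (hs : 0 < s) {w w1 : E n → ℝ} (hw : AEStronglyMeasurable w volume)
    (hw1 : Integrable w1 volume) {T : ℝ}
    (hww : ∀ᵐ y ∂(volume : Measure (E n)), |w y| ≤ w1 y + T)
    (hw1n : ∀ y, 0 ≤ w1 y) (hT : 0 ≤ T) {d : ℝ} (hd : 0 < d) (x : E n)
    (hsep : ∀ᵐ y ∂(volume : Measure (E n)), w y ≠ 0 → d ≤ ‖x - y‖) :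
    Integrable (fun y => w y * ‖x - y‖ ^ (-((n : ℝ) + 2 * s))) volume := by
  have hn0 : (0:ℝ) ≤ n := n.cast_nonneg
  have hk : Integrable (fun y : E n => kap n s d ‖x - y‖) volume :=
    (integrable_kap (n := n) hs hd).comp_sub_left x
  refine ((hw1.const_mul (d ^ (-((n : ℝ) + 2 * s)))).add (hk.const_mul T)).mono' ?_ ?_
  · exact hw.mul (by fun_prop : Measurable fun y : E n =>
      ‖x - y‖ ^ (-((n : ℝ) + 2 * s))).aestronglyMeasurable
  · filter_upwards [hww, hsep] with y h1 h2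
    have h0 : 0 ≤ ‖x - y‖ ^ (-((n : ℝ) + 2 * s)) := by positivity
    rw [norm_mul, Real.norm_of_nonneg h0, Real.norm_eq_abs]
    simp only [Pi.add_apply]
    by_cases hw0 : w y = 0
    · rw [hw0, abs_zero, zero_mul]
      have := kap_nonneg (n := n) (s := s) (d := d) (norm_nonneg (x - y))
      have := hw1n y
      positivity
    have hdd := h2 hw0
    have hkap : kap n s d ‖x - y‖ = ‖x - y‖ ^ (-((n : ℝ) + 2 * s)) := by
      unfold kap
      rw [if_pos hdd]
    rw [hkap]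
    have hker : ‖x - y‖ ^ (-((n : ℝ) + 2 * s)) ≤ d ^ (-((n : ℝ) + 2 * s)) :=
      Real.rpow_le_rpow_of_nonpos hd hdd (by linarith)
    calc |w y| * ‖x - y‖ ^ (-((n : ℝ) + 2 * s)) ≤ (w1 y + T) * ‖x - y‖ ^ (-((n : ℝ) + 2 * s)) :=
          mul_le_mul_of_nonneg_right h1 h0
      _ = w1 y * ‖x - y‖ ^ (-((n : ℝ) + 2 * s)) + T * ‖x - y‖ ^ (-((n : ℝ) + 2 * s)) := by ring
      _ ≤ _ := by
          have := mul_le_mul_of_nonneg_left hker (hw1n y)
          linarith

/-- the potential of `w` -/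
noncomputable def Pot (s : ℝ) (w : E n → ℝ) (x : E n) : ℝ :=
  ∫ y, w y * ‖x - y‖ ^ (-((n : ℝ) + 2 * s))

/-- the potential is integrable on a ball separated from the support -/
theorem pot_integrableOn (hs : 0 < s) {w w1 : E n → ℝ} (hw : AEStronglyMeasurable w volume)
    (hw1 : Integrable w1 volume) {T : ℝ}
    (hww : ∀ᵐ y ∂(volume : Measure (E n)), |w y| ≤ w1 y + T)
    (hw1n : ∀ y, 0 ≤ w1 y) (hT : 0 ≤ T) {d : ℝ} (hd : 0 < d) (x1 : E n) (ρ : ℝ)
    (hsep : ∀ x ∈ ball x1 ρ, ∀ᵐ y ∂(volume : Measure (E n)), w y ≠ 0 → d ≤ ‖x - y‖)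
    (hsep' : ∀ᵐ p : E n × E n ∂(volume.prod volume), p.1 ∈ ball x1 ρ → w p.2 ≠ 0 →
      d ≤ ‖p.1 - p.2‖) :
    IntegrableOn (Pot s w) (ball x1 ρ) volume := by
  have hG : Integrable ((ball x1 ρ).indicator (fun _ => (1:ℝ))) (volume : Measure (E n)) := by
    rw [integrable_indicator_iff measurableSet_ball]
    exact integrableOn_const measure_ball_lt_top.ne
  have h := (sep_bound hs hG hw hw1 hww hw1n hT hd (by
    filter_upwards [hsep'] with p hp h1 h2
    refine hp ?_ h2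
    by_contra hc
    exact h1 (indicator_of_notMem hc _))).1
  have h2 := h.integral_prod_left
  rw [← integrable_indicator_iff measurableSet_ball]
  refine h2.congr (Eventually.of_forall fun x => ?_)
  show ∫ y, (ball x1 ρ).indicator (fun _ => (1:ℝ)) x * w y * ker s (x, y) = _
  by_cases hx : x ∈ ball x1 ρ
  · rw [indicator_of_mem hx, indicator_of_mem hx]
    unfold Pot ker
    simp only [one_mul]
  · rw [indicator_of_notMem hx, indicator_of_notMem hx]
    simp

/-- from testing to vanishing of the potential -/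
theorem pot_zero_of_test {a w : E n → ℝ} {m M : ℝ} (ha : Wt a m M) {x1 : E n} {ρ : ℝ}
    (hint : IntegrableOn (Pot s w) (ball x1 ρ) volume)
    (h : ∀ g : E n → ℝ, TestFun (ball x1 ρ) g → ∫ x, g x * (a x * Pot s w x) = 0) :
    ∀ᵐ x ∂(volume : Measure (E n)), x ∈ ball x1 ρ → Pot s w x = 0 := by
  have h1 : ∀ᵐ x ∂(volume : Measure (E n)), x ∈ ball x1 ρ → a x * Pot s w x = 0 := by
    apply isOpen_ball.ae_eq_zero_of_integral_contDiff_smul_eq_zero
    · have : IntegrableOn (fun x => a x * Pot s w x) (ball x1 ρ) volume := by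
        refine Integrable.bdd_mul (c := M) hint ha.meas.aestronglyMeasurable
          (Eventually.of_forall fun x => ?_)
        rw [Real.norm_of_nonneg (ha.nonneg x).le]
        exact ha.hi x
      exact this.locallyIntegrableOn
    · intro g g1 g2 g3
      simp only [smul_eq_mul]
      exact h g ⟨g1, g2, g3⟩
  filter_upwards [h1] with x hx hxb
  exact (mul_eq_zero.1 (hx hxb)).resolve_left (ha.nonneg x).ne'

/-- Step 4: the correctors agree after weighting -/
theorem corr_agree (hn : 1 ≤ n) (hs : 0 < s) (hs1 : s < 1) {Ω W : Set (E n)}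
    (hΩ : MeasurableSet Ω) (hb : BddOneDir Ω) (hWΩ : ∀ x ∈ W, x ∉ Ω)
    {a1 a2 : E n → ℝ} {m M : ℝ} (h1 : Wt a1 m M) (h2 : Wt a2 m M)
    (hDN : DNeq s Ω W a1 a2)
    (hae : ∀ᵐ x ∂(volume : Measure (E n)), x ∈ W → a1 x = a2 x)
    {x0 : E n} {ρ : ℝ} (hρ : 0 < ρ) (hball : ball x0 (6 * ρ) ⊆ W)
    {f v1 v2 : E n → ℝ} (hf : TestFun (ball x0 ρ) f) (hv1 : Corr s Ω a1 f v1)
    (hv2 : Corr s Ω a2 f v2) :
    ∀ᵐ y ∂(volume : Measure (E n)), v1 y * a1 y = v2 y * a2 y := by
  obtain ⟨e, -, -, he, -, -⟩ := id hb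
  set x1 : E n := x0 + (3 * ρ) • e with hx1
  have hx10 : ‖x1 - x0‖ = 3 * ρ := by
    rw [hx1, add_sub_cancel_left, norm_smul, he, mul_one, Real.norm_of_nonneg (by positivity)]
  have htf : ∀ φ : E n → ℝ, TestFun Ω φ → MemHs s φ := fun φ hφ => hφ.memHs hn hs hs1
  have hv10 := hv1.ht.ae_zero hΩ htf
  have hv20 := hv2.ht.ae_zero hΩ htf
  -- geometry
  have hb1 : ball x1 ρ ⊆ ball x0 (4 * ρ) := by
    intro x hx
    rw [mem_ball, dist_eq_norm] at hx ⊢
    calc ‖x - x0‖ = ‖(x - x1) + (x1 - x0)‖ := by congr 1; abel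
      _ ≤ ‖x - x1‖ + ‖x1 - x0‖ := norm_add_le _ _
      _ < 4 * ρ := by rw [hx10]; linarith
  have hsepB : ∀ x ∈ ball x0 (4 * ρ), ∀ y ∉ W, ρ ≤ ‖x - y‖ := by
    intro x hx y hy
    rw [mem_ball, dist_eq_norm] at hx
    have hyn : ¬ (‖y - x0‖ < 6 * ρ) := fun h => hy (hball (by rwa [mem_ball, dist_eq_norm]))
    push Not at hyn
    have : ‖y - x0‖ ≤ ‖x - x0‖ + ‖x - y‖ := by
      calc ‖y - x0‖ = ‖(x - x0) - (x - y)‖ := by congr 1; abel
        _ ≤ _ := norm_sub_le _ _
    linarith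
  have hΩW : ∀ y ∈ Ω, y ∉ W := fun y hy hyW => hWΩ y hyW hy
  have hfW : TestFun W f := ⟨hf.1, hf.2.1, hf.2.2.trans ((ball_subset_ball (by linarith)).trans
    hball)⟩
  have hfH := hfW.memHs hn hs hs1
  set w : E n → ℝ := fun y => v1 y * a1 y - v2 y * a2 y with hw
  have hw0 : ∀ᵐ y ∂(volume : Measure (E n)), y ∈ W → w y = 0 := by
    filter_upwards [hv10, hv20] with y e1 e2 hy
    rw [hw]
    simp only [e1 (hWΩ y hy), e2 (hWΩ y hy), zero_mul, sub_self]
  have hwm : AEStronglyMeasurable w volume :=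
    (hv1.ht.1.1.1.mul h1.meas.aestronglyMeasurable).sub
      (hv2.ht.1.1.1.mul h2.meas.aestronglyMeasurable)
  have hM := h1.Mpos
  have hw1i : Integrable (fun y => M * (v1 y ^ 2 + v2 y ^ 2)) (volume : Measure (E n)) :=
    (hv1.ht.1.1.integrable_sq.add hv2.ht.1.1.integrable_sq).const_mul M
  have habs : ∀ t : ℝ, |t| ≤ t ^ 2 + 1 := fun t => by
    rw [← sq_abs]
    nlinarith [sq_nonneg (|t| - 1), abs_nonneg t]
  have hww : ∀ᵐ y ∂(volume : Measure (E n)), |w y| ≤ M * (v1 y ^ 2 + v2 y ^ 2) + 2 * M := by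
    refine Eventually.of_forall fun y => ?_
    rw [hw]
    have e1 : |v1 y * a1 y| ≤ M * (v1 y ^ 2 + 1) := by
      rw [abs_mul, abs_of_pos (h1.nonneg y), mul_comm]
      exact mul_le_mul (h1.hi y) (habs _) (abs_nonneg _) hM.le
    have e2 : |v2 y * a2 y| ≤ M * (v2 y ^ 2 + 1) := by
      rw [abs_mul, abs_of_pos (h2.nonneg y), mul_comm]
      exact mul_le_mul (h2.hi y) (habs _) (abs_nonneg _) hM.le
    have e3 := abs_sub (v1 y * a1 y) (v2 y * a2 y)
    show |v1 y * a1 y - v2 y * a2 y| ≤ _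
    linarith
  have hsec : ∀ x ∈ ball x0 (4 * ρ), ∀ᵐ y ∂(volume : Measure (E n)), w y ≠ 0 → ρ ≤ ‖x - y‖ := by
    intro x hx
    filter_upwards [hw0] with y hy hyn
    apply hsepB x hx
    intro hyW
    exact hyn (hy hyW)
  have hsec' : ∀ᵐ p : E n × E n ∂(volume.prod volume), p.1 ∈ ball x1 ρ → w p.2 ≠ 0 →
      ρ ≤ ‖p.1 - p.2‖ := by
    filter_upwards [ae_snd hw0] with p hp h1 h2
    exact hsepB _ (hb1 h1) _ (fun hW => h2 (hp hW))
  have hpotint := pot_integrableOn hs hwm hw1i hww (fun y => by positivity) (by positivity) hρ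
    x1 ρ (fun x hx => hsec x (hb1 hx)) hsec'
  have hpot : ∀ᵐ x ∂(volume : Measure (E n)), x ∈ ball x1 ρ → Pot s w x = 0 := by
    apply pot_zero_of_test h1 hpotint
    intro g hg
    have hgW : TestFun W g := ⟨hg.1, hg.2.1, hg.2.2.trans (hb1.trans
      ((ball_subset_ball (by linarith)).trans hball))⟩
    have hgH := hgW.memHs hn hs hs1
    have hgi : Integrable g volume := hg.1.continuous.integrable_of_hasCompactSupport hg.2.1
    have hgsep : SepD ρ g Ω := by
      intro x hx y hy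
      apply hsepB x _ y (hΩW y hy)
      apply hb1
      apply hg.2.2
      exact subset_tsupport _ hx
    have hDNe := hDN f g hfW hgW v1 v2 hv1 hv2
    rw [Bf_add h1 hfH hv1.ht.1 hgH, Bf_add h2 hfH hv2.ht.1 hgH] at hDNe
    -- `Bf a1 f g = Bf a2 f g`
    have hfg : ∀ x, f x * g x = 0 := by
      intro x
      by_cases hfx : f x = 0
      · rw [hfx, zero_mul]
      by_cases hgx : g x = 0
      · rw [hgx, mul_zero]
      exfalso
      have e1 : x ∈ ball x0 ρ := hf.2.2 (subset_tsupport _ hfx)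
      have e2 : x ∈ ball x1 ρ := hg.2.2 (subset_tsupport _ hgx)
      rw [mem_ball, dist_eq_norm] at e1 e2
      have : ‖x1 - x0‖ ≤ ‖x - x0‖ + ‖x - x1‖ := by
        calc ‖x1 - x0‖ = ‖(x - x0) - (x - x1)‖ := by congr 1; abel
          _ ≤ _ := norm_sub_le _ _
      linarith
    have hf0 : ∀ x, x ∉ W → f x = 0 := fun x hx =>
      image_eq_zero_of_notMem_tsupport fun h => hx (hfW.2.2 h)
    have hg0 : ∀ x, x ∉ W → g x = 0 := fun x hx =>
      image_eq_zero_of_notMem_tsupport fun h => hx (hgW.2.2 h)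
    have hBfeq : Bf s a1 f g = Bf s a2 f g := by
      unfold Bf
      apply integral_congr_ae
      filter_upwards [ae_fst hae, ae_snd hae] with p e1 e2
      by_cases p1 : p.1 ∈ W
      · by_cases p2 : p.2 ∈ W
        · rw [e1 p1, e2 p2]
        · rw [hf0 _ p2, hg0 _ p2]
          have := hfg p.1
          have z : (f p.1 - 0) * (g p.1 - 0) = 0 := by rw [sub_zero, sub_zero]; exact this
          rw [z]
          ring
      · rw [hf0 _ p1, hg0 _ p1]
        have := hfg p.2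
        have z : (0 - f p.2) * (0 - g p.2) = 0 := by linear_combination this
        rw [z]
        ring
    obtain ⟨i1, q1, -⟩ := corr_offdiag hs h1 hv1.ht.1 hv10 hgi hρ hgsep
    obtain ⟨i2, q2, -⟩ := corr_offdiag hs h2 hv2.ht.1 hv20 hgi hρ hgsep
    rw [hBfeq, q1, q2] at hDNe
    have hQ : Qf s a1 v1 g = Qf s a2 v2 g := by linarith
    have hQ2 : Qf s a2 v2 g = ∫ p, (g p.1 * a1 p.1) * (v2 p.2 * a2 p.2) * ker s p
        ∂(volume.prod volume) := by
      unfold Qf
      apply integral_congr_ae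
      filter_upwards [ae_fst hae] with p e1
      by_cases p1 : p.1 ∈ W
      · rw [e1 p1]
      · rw [hg0 _ p1]
        ring
    have i2' : Integrable (fun p : E n × E n => (g p.1 * a1 p.1) * (v2 p.2 * a2 p.2) * ker s p)
        (volume.prod volume) := by
      refine i2.congr ?_
      filter_upwards [ae_fst hae] with p e1
      by_cases p1 : p.1 ∈ W
      · rw [e1 p1]
      · rw [hg0 _ p1]
        ring
    have hsub : ∫ p : E n × E n, (g p.1 * a1 p.1) * w p.2 * ker s p ∂(volume.prod volume) = 0 := by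
      have : ∫ p : E n × E n, (g p.1 * a1 p.1) * w p.2 * ker s p ∂(volume.prod volume) =
          (∫ p : E n × E n, (g p.1 * a1 p.1) * (v1 p.2 * a1 p.2) * ker s p ∂(volume.prod volume)) -
          ∫ p : E n × E n, (g p.1 * a1 p.1) * (v2 p.2 * a2 p.2) * ker s p ∂(volume.prod volume) := by
        rw [← integral_sub i1 i2']
        congr 1
        funext p
        rw [hw]
        ring
      rw [this, ← hQ2, ← hQ]
      unfold Qf
      ring
    have i3 : Integrable (fun p : E n × E n => (g p.1 * a1 p.1) * w p.2 * ker s p)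
        (volume.prod volume) := by
      refine (i1.sub i2').congr (Eventually.of_forall fun p => ?_)
      simp only [Pi.sub_apply]
      rw [hw]
      ring
    rw [integral_prod _ i3] at hsub
    rw [← hsub]
    congr 1
    funext x
    unfold Pot
    rw [← mul_assoc, ← integral_const_mul]
    congr 1
    funext y
    show (g x * a1 x) * (w y * ‖x - y‖ ^ (-((n : ℝ) + 2 * s))) = (g x * a1 x) * w y * ker s (x, y)
    unfold ker
    ring
  -- antilocality
  have hfin : w =ᵐ[volume] 0 := by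
    refine antilocal (x0 := x1) (δ := ρ / 2) (p := (n : ℝ) + 2 * s) hwm (by positivity)
      (by positivity) (by linarith) ?_ ?_ ?_
    · filter_upwards [hw0] with y hy hyb
      apply hy
      apply hball
      apply ball_subset_ball (show 4 * ρ ≤ 6 * ρ by linarith)
      apply hb1
      rwa [show 2 * (ρ / 2) = ρ by ring] at hyb
    · have := int_sec hs hwm hw1i hww (fun y => by positivity) (by positivity) hρ x1
        (hsec x1 (hb1 (mem_ball_self hρ)))
      refine this.congr (Eventually.of_forall fun y => ?_)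
      show w y * ‖x1 - y‖ ^ (-((n : ℝ) + 2 * s)) = w y * ‖y - x1‖ ^ (-((n : ℝ) + 2 * s))
      rw [norm_sub_rev]
    · filter_upwards [hpot] with x hx hxb
      exact hx (ball_subset_ball (by linarith) hxb)
  filter_upwards [hfin] with y hy
  have : v1 y * a1 y - v2 y * a2 y = 0 := hy
  linarith

/-- Step 5 and conclusion for weights -/
theorem weights_eq (hn : 1 ≤ n) (hs : 0 < s) (hs1 : s < 1) {Ω W : Set (E n)}
    (hΩ : MeasurableSet Ω) (hb : BddOneDir Ω) (hW : IsOpen W) (hWne : W.Nonempty)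
    (hWΩ : ∀ x ∈ W, x ∉ Ω)
    {a1 a2 : E n → ℝ} {m M : ℝ} (h1 : Wt a1 m M) (h2 : Wt a2 m M)
    (hDN : DNeq s Ω W a1 a2) : a1 =ᵐ[volume] a2 := by
  have hae := ext_eq hn hs hs1 hΩ hb hW hWΩ h1 h2 hDN
  obtain ⟨x0, hx0⟩ := hWne
  obtain ⟨ε, hε, hball'⟩ := Metric.isOpen_iff.1 hW x0 hx0
  set ρ : ℝ := ε / 6 with hρ'
  have hρ : 0 < ρ := by positivity
  have hball : ball x0 (6 * ρ) ⊆ W := by
    rw [hρ', show 6 * (ε / 6) = ε by ring]
    exact hball'
  have hM := h1.Mpos
  have hsepB : ∀ x ∈ ball x0 (4 * ρ), ∀ y ∉ W, ρ ≤ ‖x - y‖ := by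
    intro x hx y hy
    rw [mem_ball, dist_eq_norm] at hx
    have hyn : ¬ (‖y - x0‖ < 6 * ρ) := fun h => hy (hball (by rwa [mem_ball, dist_eq_norm]))
    push Not at hyn
    have : ‖y - x0‖ ≤ ‖x - x0‖ + ‖x - y‖ := by
      calc ‖y - x0‖ = ‖(x - x0) - (x - y)‖ := by congr 1; abel
        _ ≤ _ := norm_sub_le _ _
    linarith
  have hΩW : ∀ y ∈ Ω, y ∉ W := fun y hy hyW => hWΩ y hyW hy
  have htf : ∀ φ : E n → ℝ, TestFun Ω φ → MemHs s φ := fun φ hφ => hφ.memHs hn hs hs1
  set b : E n → ℝ := fun y => a1 y - a2 y with hb'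
  have hb0 : ∀ᵐ y ∂(volume : Measure (E n)), y ∈ W → b y = 0 := by
    filter_upwards [hae] with y hy hyW
    show a1 y - a2 y = 0
    rw [hy hyW, sub_self]
  have hbm : AEStronglyMeasurable b volume := (h1.meas.sub h2.meas).aestronglyMeasurable
  have hbb : ∀ᵐ y ∂(volume : Measure (E n)), |b y| ≤ 0 + 2 * M := by
    refine Eventually.of_forall fun y => ?_
    have e3 := abs_sub (a1 y) (a2 y)
    rw [abs_of_pos (h1.nonneg y), abs_of_pos (h2.nonneg y)] at e3
    show |a1 y - a2 y| ≤ _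
    linarith [h1.hi y, h2.hi y]
  have hsec : ∀ x ∈ ball x0 (4 * ρ), ∀ᵐ y ∂(volume : Measure (E n)), b y ≠ 0 → ρ ≤ ‖x - y‖ := by
    intro x hx
    filter_upwards [hb0] with y hy hyn
    apply hsepB x hx
    intro hyW
    exact hyn (hy hyW)
  have hsec' : ∀ᵐ p : E n × E n ∂(volume.prod volume), p.1 ∈ ball x0 (4 * ρ) → b p.2 ≠ 0 →
      ρ ≤ ‖p.1 - p.2‖ := by
    filter_upwards [ae_snd hb0] with p hp h1 h2
    exact hsepB _ h1 _ (fun hW => h2 (hp hW))
  have hbρ : ball x0 (ρ / 2) ⊆ ball x0 (4 * ρ) := ball_subset_ball (by linarith)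
  have hpotint := pot_integrableOn hs hbm (w1 := fun _ => 0) (integrable_zero _ _ _) hbb
    (fun y => le_refl _) (by positivity) hρ x0 (ρ / 2) (fun x hx => hsec x (hbρ hx))
    (by filter_upwards [hsec'] with p hp h1 h2; exact hp (hbρ h1) h2)
  -- the bump
  let fb : ContDiffBump x0 := ⟨ρ / 2, 3 * ρ / 4, by positivity, by linarith⟩
  obtain ⟨f, hfd, hfc, hfts, hf1⟩ : ∃ f : E n → ℝ, ContDiff ℝ ((⊤ : ℕ∞) : WithTop ℕ∞) f ∧
      HasCompactSupport f ∧ tsupport f ⊆ closedBall x0 (3 * ρ / 4) ∧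
      ∀ x ∈ closedBall x0 (ρ / 2), f x = 1 :=
    ⟨fb, fb.contDiff, fb.hasCompactSupport, fb.tsupport_eq.le,
      fun x hx => fb.one_of_mem_closedBall hx⟩
  have hfT : TestFun (ball x0 ρ) f :=
    ⟨hfd, hfc, hfts.trans (closedBall_subset_ball (by linarith))⟩
  have hfW : TestFun W f := ⟨hfT.1, hfT.2.1, hfT.2.2.trans ((ball_subset_ball (by linarith)).trans
    hball)⟩
  have hpot : ∀ᵐ x ∂(volume : Measure (E n)), x ∈ ball x0 (ρ / 2) → Pot s b x = 0 := by
    apply pot_zero_of_test h1 hpotint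
    intro g hg
    have hgW : TestFun W g := ⟨hg.1, hg.2.1, hg.2.2.trans
      ((ball_subset_ball (by linarith)).trans hball)⟩
    have hgi : Integrable g volume := hg.1.continuous.integrable_of_hasCompactSupport hg.2.1
    have hfH := hfW.memHs hn hs hs1
    have hgH := hgW.memHs hn hs hs1
    have hgsep : SepD ρ g Ω := by
      intro x hx y hy
      apply hsepB x _ y (hΩW y hy)
      apply hbρ
      apply hg.2.2
      exact subset_tsupport _ hx
    obtain ⟨v1, v2, hv1, hv2, heq⟩ := DN_pair hn hs hs1 hb h1 h2 hDN hfW hgW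
    have hv10 := hv1.ht.ae_zero hΩ htf
    have hv20 := hv2.ht.ae_zero hΩ htf
    have hagree := corr_agree hn hs hs1 hΩ hb hWΩ h1 h2 hDN hae hρ hball hfT hv1 hv2
    obtain ⟨i1, q1, -⟩ := corr_offdiag hs h1 hv1.ht.1 hv10 hgi hρ hgsep
    obtain ⟨i2, q2, -⟩ := corr_offdiag hs h2 hv2.ht.1 hv20 hgi hρ hgsep
    have hf0 : ∀ x, x ∉ W → f x = 0 := fun x hx =>
      image_eq_zero_of_notMem_tsupport fun h => hx (hfW.2.2 h)
    have hg0 : ∀ x, x ∉ W → g x = 0 := fun x hx =>
      image_eq_zero_of_notMem_tsupport fun h => hx (hgW.2.2 h)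
    have hQ : Qf s a1 v1 g = Qf s a2 v2 g := by
      unfold Qf
      apply integral_congr_ae
      filter_upwards [ae_fst hae, ae_snd hagree] with p e1 e2
      rw [e2]
      by_cases p1 : p.1 ∈ W
      · rw [e1 p1]
      · rw [hg0 _ p1]
        ring
    rw [q1, q2, hQ] at heq
    have hBB : Bf s a1 f g - Bf s a2 f g = 0 := by linarith
    -- on the support of `g`, `f = 1`
    have hfg : ∀ x, f x * g x = g x := by
      intro x
      by_cases hgx : g x = 0
      · rw [hgx, mul_zero]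
      have e2 : x ∈ ball x0 (ρ / 2) := hg.2.2 (subset_tsupport _ hgx)
      have : f x = 1 := hf1 x (ball_subset_closedBall e2)
      rw [this, one_mul]
    have hga : Integrable (fun x => g x * a1 x) volume := h1.integrable_mul hgi
    have iH : Integrable (fun p : E n × E n => (g p.1 * a1 p.1) * b p.2 * ker s p)
        (volume.prod volume) := by
      refine (sep_bound hs hga hbm (w1 := fun _ => 0) (integrable_zero _ _ _) hbb
        (fun y => le_refl _) (by positivity) hρ ?_).1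
      filter_upwards [hsec'] with p hp k1 k2
      refine hp ?_ k2
      exact hbρ (hg.2.2 (subset_tsupport _ (left_ne_zero_of_mul k1)))
    have iH2 := integrable_swap' iH
    have eB : Bf s a1 f g - Bf s a2 f g = ∫ p : E n × E n, ((g p.1 * a1 p.1) * b p.2 * ker s p +
        (g p.swap.1 * a1 p.swap.1) * b p.swap.2 * ker s p.swap) ∂(volume.prod volume) := by
      unfold Bf
      rw [← integral_sub (integrable_Bf h1 hfH hgH) (integrable_Bf h2 hfH hgH)]
      apply integral_congr_ae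
      filter_upwards [ae_fst hae, ae_snd hae] with p e1 e2
      rw [ker_swap, Prod.fst_swap, Prod.snd_swap]
      show a1 p.1 * a1 p.2 * ((f p.1 - f p.2) * (g p.1 - g p.2)) * ker s p -
        a2 p.1 * a2 p.2 * ((f p.1 - f p.2) * (g p.1 - g p.2)) * ker s p =
        g p.1 * a1 p.1 * (a1 p.2 - a2 p.2) * ker s p +
        g p.2 * a1 p.2 * (a1 p.1 - a2 p.1) * ker s p
      have w1 := hfg p.1
      have w2 := hfg p.2
      by_cases p1 : p.1 ∈ W
      · by_cases p2 : p.2 ∈ W
        · rw [e1 p1, e2 p2]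
          ring
        · rw [e1 p1, hf0 _ p2, hg0 _ p2]
          linear_combination (a2 p.1 * (a1 p.2 - a2 p.2) * ker s p) * w1
      · by_cases p2 : p.2 ∈ W
        · rw [e2 p2, hf0 _ p1, hg0 _ p1]
          linear_combination (a2 p.2 * (a1 p.1 - a2 p.1) * ker s p) * w2
        · rw [hf0 _ p1, hg0 _ p1, hf0 _ p2, hg0 _ p2]
          ring
    have esw := integral_swap' (n := n) (H := fun p : E n × E n =>
      (g p.1 * a1 p.1) * b p.2 * ker s p)
    rw [hBB, integral_add iH iH2, esw] at eB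
    have hH0 : ∫ p : E n × E n, (g p.1 * a1 p.1) * b p.2 * ker s p ∂(volume.prod volume) = 0 := by
      linarith
    rw [integral_prod _ iH] at hH0
    rw [← hH0]
    congr 1
    funext x
    unfold Pot
    rw [← mul_assoc, ← integral_const_mul]
    congr 1
    funext y
    show (g x * a1 x) * (b y * ‖x - y‖ ^ (-((n : ℝ) + 2 * s))) = (g x * a1 x) * b y * ker s (x, y)
    unfold ker
    ring
  have hfin : b =ᵐ[volume] 0 := by
    refine antilocal (x0 := x0) (δ := ρ / 2) (p := (n : ℝ) + 2 * s) hbm (by positivity)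
      (by positivity) (by linarith) ?_ ?_ ?_
    · filter_upwards [hb0] with y hy hyb
      apply hy
      apply hball
      exact ball_subset_ball (by linarith) hyb
    · have := int_sec hs hbm (w1 := fun _ => 0) (integrable_zero _ _ _) hbb
        (fun y => le_refl _) (by positivity) hρ x0 (hsec x0 (mem_ball_self (by positivity)))
      refine this.congr (Eventually.of_forall fun y => ?_)
      show b y * ‖x0 - y‖ ^ (-((n : ℝ) + 2 * s)) = b y * ‖y - x0‖ ^ (-((n : ℝ) + 2 * s))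
      rw [norm_sub_rev]
    · exact hpot
  filter_upwards [hfin] with y hy
  have : a1 y - a2 y = 0 := hy
  linarith

theorem Wt.mono {a : E n → ℝ} {m M m' M' : ℝ} (h : Wt a m M) (h0 : 0 < m') (h1 : m' ≤ m)
    (h2 : M ≤ M') : Wt a m' M' :=
  ⟨h.meas, h0, fun x => h1.trans (h.lo x), fun x => (h.hi x).trans h2⟩

theorem fracConst_ne (hs : 0 < s) (hs1 : s < 1) : fracConst n s ≠ 0 := by
  unfold fracConst
  have hn0 : (0:ℝ) ≤ n := n.cast_nonneg
  have h1 : 0 < Real.Gamma ((n : ℝ) / 2 + s) := Real.Gamma_pos_of_pos (by positivity)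
  have h2 : Real.Gamma (-s) ≠ 0 := by
    apply Real.Gamma_ne_zero
    intro k hk
    have hk' : s = k := by linarith
    rcases Nat.eq_zero_or_pos k with h | h
    · rw [h] at hk'
      norm_num at hk'
      linarith
    · have : (1:ℝ) ≤ k := by exact_mod_cast h
      linarith
  have h3 : 0 < |Real.Gamma (-s)| := abs_pos.2 h2
  positivity

/-- Uniqueness for the inverse problem of the fractional conductivity equation with bounded
measurable conductivities. -/
theorem main (hn : 1 ≤ n) (hs : 0 < s) (hs1 : s < 1) {Ω W : Set (E n)}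
    (hΩ : IsOpen Ω) (hb : BddOneDir Ω) (hW : IsOpen W) (hWne : W.Nonempty)
    (hWΩ : W ⊆ (closure Ω)ᶜ) {γ₁ γ₂ : E n → ℝ} (h1 : Elliptic γ₁) (h2 : Elliptic γ₂)
    (hDN : ∀ f g, TestFun W f → TestFun W g → ∀ u₁ u₂, IsSol s Ω γ₁ f u₁ → IsSol s Ω γ₂ f u₂ →
      Bform s γ₁ u₁ g = Bform s γ₂ u₂ g) :
    γ₁ =ᵐ[volume] γ₂ := by
  obtain ⟨a1, m1, M1, ha1, hae1⟩ := exists_wt h1
  obtain ⟨a2, m2, M2, ha2, hae2⟩ := exists_wt h2
  have ha1' : Wt a1 (min m1 m2) (max M1 M2) :=
    ha1.mono (lt_min ha1.pos ha2.pos) (min_le_left _ _) (le_max_left _ _)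
  have ha2' : Wt a2 (min m1 m2) (max M1 M2) :=
    ha2.mono (lt_min ha1.pos ha2.pos) (min_le_right _ _) (le_max_right _ _)
  have hc := fracConst_ne (n := n) hs hs1
  have hsol : ∀ {γ a : E n → ℝ}, (∀ᵐ x ∂(volume : Measure (E n)), √(γ x) = a x) →
      ∀ {f v : E n → ℝ}, MemHs s f → Corr s Ω a f v → IsSol s Ω γ f (fun x => f x + v x) := by
    intro γ a hae f v hf hv
    refine ⟨hf.add hv.ht.1, ?_, fun φ hφ => ?_⟩
    · have : (fun x => (f x + v x) - f x) = v := by
        funext x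
        ring
      rw [this]
      exact hv.ht
    · rw [Bform_eq hae, hv.eq φ hφ, mul_zero]
  have hDN' : DNeq s Ω W a1 a2 := by
    intro f g hf hg v1 v2 hv1 hv2
    have hfH := hf.memHs hn hs hs1
    have := hDN f g hf hg _ _ (hsol hae1 hfH hv1) (hsol hae2 hfH hv2)
    rw [Bform_eq hae1, Bform_eq hae2] at this
    exact mul_left_cancel₀ (div_ne_zero hc two_ne_zero) this
  have hfin := weights_eq hn hs hs1 hΩ.measurableSet hb hW hWne
    (fun x hx hxΩ => hWΩ hx (subset_closure hxΩ)) ha1' ha2' hDN'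
  obtain ⟨-, c1, d1, hc1, -, hb1⟩ := h1
  obtain ⟨-, c2, d2, hc2, -, hb2⟩ := h2
  filter_upwards [hfin, hae1, hae2, hb1, hb2] with x e0 e1 e2 e3 e4
  rw [← e1, ← e2] at e0
  exact (Real.sqrt_inj (hc1.le.trans e3.1) (hc2.le.trans e4.1)).1 e0

end Pool.Agent.H305R3.FC
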