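import Mathlib

set_option autoImplicit false

open MeasureTheory Set

/-!
Definitions for the inverse problem of the fractional conductivity equation.
-/

namespace Pool.Agent.H305R3.FC

/-- The normalising constant `C_{n,s}` of the fractional Laplacian. -/
noncomputable def fracConst (n : ℕ) (s : ℝ) : ℝ :=
  4 ^ s * Real.Gamma ((n : ℝ) / 2 + s) / (Real.pi ^ ((n : ℝ) / 2) * |Real.Gamma (-s)|)

/-- The kernel `|x - y| ^ (-(n + 2 s))`. -/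
noncomputable def ker {n : ℕ} (s : ℝ)
    (p : EuclideanSpace ℝ (Fin n) × EuclideanSpace ℝ (Fin n)) : ℝ :=
  ‖p.1 - p.2‖ ^ (-((n : ℝ) + 2 * s))

/-- The square of the norm of `H^s(ℝ^n)`, `0 < s < 1`. -/
noncomputable def hsSq {n : ℕ} (s : ℝ) (u : EuclideanSpace ℝ (Fin n) → ℝ) : ℝ :=
  (∫ x, u x ^ 2) + ∫ p, (u p.1 - u p.2) ^ 2 * ker s p ∂(volume.prod volume)

/-- `u ∈ H^s(ℝ^n)`, `0 < s < 1`. -/
def MemHs {n : ℕ} (s : ℝ) (u : EuclideanSpace ℝ (Fin n) → ℝ) : Prop :=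
  MemLp u 2 volume ∧
    Integrable (fun p : EuclideanSpace ℝ (Fin n) × EuclideanSpace ℝ (Fin n) =>
      (u p.1 - u p.2) ^ 2 * ker s p) (volume.prod volume)

/-- `φ ∈ C_c^∞(U)`. -/
def TestFun {n : ℕ} (U : Set (EuclideanSpace ℝ (Fin n))) (φ : EuclideanSpace ℝ (Fin n) → ℝ) :
    Prop :=
  ContDiff ℝ ((⊤ : ℕ∞) : WithTop ℕ∞) φ ∧ HasCompactSupport φ ∧ tsupport φ ⊆ U

/-- `u` lies in the closure of `C_c^∞(Ω)` in `H^s(ℝ^n)`. -/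
def MemHt {n : ℕ} (s : ℝ) (Ω : Set (EuclideanSpace ℝ (Fin n)))
    (u : EuclideanSpace ℝ (Fin n) → ℝ) : Prop :=
  MemHs s u ∧ ∀ ε : ℝ, 0 < ε → ∃ φ, TestFun Ω φ ∧ hsSq s (fun x => u x - φ x) < ε

/-- The bilinear form `B_γ(u,v)`. -/
noncomputable def Bform {n : ℕ} (s : ℝ) (γ u v : EuclideanSpace ℝ (Fin n) → ℝ) : ℝ :=
  fracConst n s / 2 * ∫ p, √(γ p.1) * √(γ p.2) * ((u p.1 - u p.2) * (v p.1 - v p.2)) * ker s p
    ∂(volume.prod volume)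

/-- `γ ∈ L^∞(ℝ^n)` is uniformly elliptic. -/
def Elliptic {n : ℕ} (γ : EuclideanSpace ℝ (Fin n) → ℝ) : Prop :=
  AEStronglyMeasurable γ volume ∧
    ∃ a b : ℝ, 0 < a ∧ a < b ∧ ∀ᵐ x ∂volume, a ≤ γ x ∧ γ x ≤ b

/-- `Ω` is bounded in one direction. -/
def BddOneDir {n : ℕ} (Ω : Set (EuclideanSpace ℝ (Fin n))) : Prop :=
  ∃ (e : EuclideanSpace ℝ (Fin n)) (c r : ℝ), ‖e‖ = 1 ∧ 0 < r ∧ ∀ x ∈ Ω, |inner ℝ e x - c| ≤ r

/-- `u` solves the fractional conductivity equation in `Ω` with exterior value `f`: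
`u ∈ H^s(ℝ^n)`, `u - f` lies in the closure of `C_c^∞(Ω)` and `B_γ(u,φ) = 0` for all `φ` in that
closure. -/
def IsSol {n : ℕ} (s : ℝ) (Ω : Set (EuclideanSpace ℝ (Fin n)))
    (γ f u : EuclideanSpace ℝ (Fin n) → ℝ) : Prop :=
  MemHs s u ∧ MemHt s Ω (fun x => u x - f x) ∧ ∀ φ, MemHt s Ω φ → Bform s γ u φ = 0

end Pool.Agent.H305R3.FC
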