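import Mathlib

set_option autoImplicit false

open Set Filter Topology

namespace Pool.Agent.H305R3.Gurarij

/-- the almost isometric extension property -/
def Gur (G : Type) [NormedAddCommGroup G] [NormedSpace ℝ G] : Prop :=
  ∀ (F : Type) [NormedAddCommGroup F] [NormedSpace ℝ F] [FiniteDimensional ℝ F]
          (E : Submodule ℝ F) (T : E →ₗᵢ[ℝ] G) (ε : ℝ), 0 < ε →
          ∃ S : F →ₗ[ℝ] G, (∀ x : E, S (x : F) = T x) ∧
            ∀ x : F, (1 - ε) * ‖x‖ ≤ ‖S x‖ ∧ ‖S x‖ ≤ (1 + ε) * ‖x‖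

/-- use of the extension property for a norm given as a function -/
theorem gur_apply {G : Type} [NormedAddCommGroup G] [NormedSpace ℝ G] (hG : Gur G)
    {X : Type} [i1 : AddCommGroup X] [i2 : Module ℝ X] [i3 : FiniteDimensional ℝ X] (N : X → ℝ)
    (hadd : ∀ x y, N (x + y) ≤ N x + N y) (hsmul : ∀ (c : ℝ) x, N (c • x) = |c| * N x)
    (h0 : ∀ x, N x = 0 → x = 0) (V : Submodule ℝ G) (E : V →ₗ[ℝ] X)
    (hE : ∀ v, N (E v) = ‖v‖) {ε : ℝ} (hε : 0 < ε) :
    ∃ J : X →ₗ[ℝ] G, (∀ v : V, J (E v) = v) ∧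
      ∀ x, (1 - ε) * N x ≤ ‖J x‖ ∧ ‖J x‖ ≤ (1 + ε) * N x := by
  have hN0 : N 0 = 0 := by simpa using hsmul 0 0
  have hnn : ∀ x, 0 ≤ N x := by
    intro x
    have h := hadd x (-x)
    have h2 : N (-x) = N x := by simpa using hsmul (-1) x
    rw [add_neg_cancel, hN0, h2] at h
    linarith
  let inorm : Norm X := ⟨N⟩
  have core : NormedSpace.Core ℝ X :=
    { norm_nonneg := hnn
      norm_smul := fun c x => hsmul c x
      norm_triangle := hadd
      norm_eq_zero_iff := fun x => ⟨h0 x, fun h => by rw [h]; exact hN0⟩ }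
  let i4 : NormedAddCommGroup X := NormedAddCommGroup.ofCore core
  let i5 : NormedSpace ℝ X := NormedSpace.ofCore core
  have hinj : Function.Injective E := by
    rw [injective_iff_map_eq_zero]
    intro v hv
    have h1 := hE v
    rw [hv, hN0] at h1
    exact norm_eq_zero.1 h1.symm
  let e : V ≃ₗ[ℝ] LinearMap.range E := LinearEquiv.ofInjective E hinj
  have he : ∀ v : V, ((e v : LinearMap.range E) : X) = E v := fun v => rfl
  let T : LinearMap.range E →ₗᵢ[ℝ] G :=
    { toLinearMap := V.subtype ∘ₗ (e.symm : LinearMap.range E →ₗ[ℝ] V)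
      norm_map' := by
        intro z
        obtain ⟨v, rfl⟩ := e.surjective z
        have h1 : ‖(e v : LinearMap.range E)‖ = N (E v) := rfl
        rw [h1, hE v]
        simp }
  obtain ⟨S, hS1, hS2⟩ := hG X (LinearMap.range E) T ε hε
  refine ⟨S, ?_, hS2⟩
  intro v
  have h1 := hS1 (e v)
  rw [he v] at h1
  rw [h1]
  simp [T]

/-- A finite dimensional subspace of `G` with an almost isometric action of `K`. -/
structure Stage (G : Type) [NormedAddCommGroup G] [NormedSpace ℝ G] (K : Type) [Group K] where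
  A : Submodule ℝ G
  fin : FiniteDimensional ℝ A
  act : K → G →ₗ[ℝ] G
  δ : ℝ
  δpos : 0 < δ
  δle : δ ≤ 1
  mem : ∀ k, ∀ a ∈ A, act k a ∈ A
  one : ∀ a ∈ A, act 1 a = a
  mul : ∀ k l, ∀ a ∈ A, act (k * l) a = act k (act l a)
  bound : ∀ k, ∀ a ∈ A, ‖act k a‖ ≤ (1 + δ) * ‖a‖

/-- From a finite dimensional normed space with an isometric action of `K` and an isometric
copy of a subspace of `G` to a stage. -/
theorem exists_stage {G : Type} [NormedAddCommGroup G] [NormedSpace ℝ G] (hG : Gur G)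
    {K : Type} [Group K]
    {X : Type} [AddCommGroup X] [Module ℝ X] [FiniteDimensional ℝ X] (N : X → ℝ)
    (hadd : ∀ x y, N (x + y) ≤ N x + N y) (hsmul : ∀ (c : ℝ) x, N (c • x) = |c| * N x)
    (h0 : ∀ x, N x = 0 → x = 0) (σ : K → X →ₗ[ℝ] X) (hσ1 : ∀ x, σ 1 x = x)
    (hσm : ∀ k l x, σ (k * l) x = σ k (σ l x)) (hσN : ∀ k x, N (σ k x) = N x)
    (V : Submodule ℝ G) (E : V →ₗ[ℝ] X)
    (hE : ∀ v, N (E v) = ‖v‖) {δ : ℝ} (hδ : 0 < δ) (hδ1 : δ ≤ 1) :
    ∃ (S : Stage G K) (J : X →ₗ[ℝ] G), S.δ = δ ∧ (∀ v : V, J (E v) = v) ∧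
      (∀ x, J x ∈ S.A) ∧ (∀ k x, S.act k (J x) = J (σ k x)) ∧
      (∀ x, ‖J x‖ ≤ (1 + δ) * N x) := by
  have hN0 : N 0 = 0 := by simpa using hsmul 0 0
  have hnn : ∀ x, 0 ≤ N x := by
    intro x
    have h := hadd x (-x)
    have h2 : N (-x) = N x := by simpa using hsmul (-1) x
    rw [add_neg_cancel, hN0, h2] at h
    linarith
  set ε : ℝ := δ / 4 with hε
  have hεpos : 0 < ε := by positivity
  obtain ⟨J, hJ1, hJ2⟩ := gur_apply hG N hadd hsmul h0 V E hE hεpos
  have hinj : Function.Injective J := by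
    rw [injective_iff_map_eq_zero]
    intro x hx
    have h1 := (hJ2 x).1
    rw [hx, norm_zero] at h1
    apply h0
    have h2 : 0 < 1 - ε := by rw [hε]; linarith
    nlinarith [hnn x]
  obtain ⟨P, hP⟩ := LinearMap.exists_leftInverse_of_injective J (LinearMap.ker_eq_bot.2 hinj)
  have hPJ : ∀ x, P (J x) = x := fun x => by
    have := congrArg (fun f => f x) hP
    simpa using this
  have hact : ∀ k x, (J ∘ₗ (σ k) ∘ₗ P) (J x) = J (σ k x) := by
    intro k x
    simp [hPJ]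
  refine ⟨{ A := LinearMap.range J
            fin := inferInstance
            act := fun k => J ∘ₗ (σ k) ∘ₗ P
            δ := δ
            δpos := hδ
            δle := hδ1
            mem := ?_
            one := ?_
            mul := ?_
            bound := ?_ }, J, rfl, hJ1, fun x => LinearMap.mem_range_self J x, hact, ?_⟩
  · rintro k _ ⟨x, rfl⟩
    rw [hact]
    exact LinearMap.mem_range_self J _
  · rintro _ ⟨x, rfl⟩
    rw [hact, hσ1]
  · rintro k l _ ⟨x, rfl⟩
    rw [hact, hact, hact, hσm]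
  · rintro k _ ⟨x, rfl⟩
    rw [hact]
    have h1 := (hJ2 (σ k x)).2
    rw [hσN] at h1
    have h2 := (hJ2 x).1
    have h3 := hnn x
    calc ‖J (σ k x)‖ ≤ (1 + ε) * N x := h1
      _ ≤ (1 + δ) * ((1 - ε) * N x) := by
        have : 1 + ε ≤ (1 + δ) * (1 - ε) := by rw [hε]; nlinarith
        nlinarith
      _ ≤ (1 + δ) * ‖J x‖ := mul_le_mul_of_nonneg_left h2 (by linarith)
  · intro x
    refine (hJ2 x).2.trans ?_
    apply mul_le_mul_of_nonneg_right _ (hnn x)
    rw [hε]; linarith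

end Pool.Agent.H305R3.Gurarij
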