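import Mathlib
import Pool.Agent.H305R3.GurA

set_option autoImplicit false

open Set Filter Topology

namespace Pool.Agent.H305R3.Gurarij

/-- marginal infimum of a jointly sublinear function -/
theorem marg {X Y : Type} [AddCommGroup X] [Module ℝ X] [AddCommGroup Y] [Module ℝ Y]
    (f : X → Y → ℝ) (h0 : ∀ x y, 0 ≤ f x y)
    (hadd : ∀ x x' y y', f (x + x') (y + y') ≤ f x y + f x' y')
    (hsmul : ∀ (c : ℝ) x y, f (c • x) (c • y) = |c| * f x y) :
    (∀ x x', (⨅ y, f (x + x') y) ≤ (⨅ y, f x y) + ⨅ y, f x' y) ∧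
      ∀ (c : ℝ) x, (⨅ y, f (c • x) y) = |c| * ⨅ y, f x y := by
  have hbdd : ∀ x, BddBelow (range (f x)) := fun x => ⟨0, by rintro _ ⟨y, rfl⟩; exact h0 x y⟩
  constructor
  · intro x x'
    apply le_of_forall_pos_le_add
    intro ε hε
    obtain ⟨y, hy⟩ := exists_lt_of_ciInf_lt (show (⨅ y, f x y) < (⨅ y, f x y) + ε / 2 by linarith)
    obtain ⟨y', hy'⟩ := exists_lt_of_ciInf_lt
      (show (⨅ y, f x' y) < (⨅ y, f x' y) + ε / 2 by linarith)
    calc (⨅ y, f (x + x') y) ≤ f (x + x') (y + y') := ciInf_le (hbdd _) _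
      _ ≤ f x y + f x' y' := hadd _ _ _ _
      _ ≤ _ := by linarith
  · have key : ∀ (c : ℝ) x, (⨅ y, f (c • x) y) ≤ |c| * ⨅ y, f x y := by
      intro c x
      rw [Real.mul_iInf_of_nonneg (abs_nonneg c)]
      apply le_ciInf
      intro y
      rw [← hsmul]
      exact ciInf_le (hbdd _) _
    intro c x
    rcases eq_or_ne c 0 with rfl | hc
    · rw [abs_zero, zero_mul]
      apply le_antisymm
      · have := key 0 x
        rwa [abs_zero, zero_mul] at this
      · exact Real.iInf_nonneg fun y => h0 _ _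
    · apply le_antisymm (key c x)
      have h1 := key c⁻¹ (c • x)
      rw [smul_smul, inv_mul_cancel₀ hc, one_smul, abs_inv] at h1
      have hcpos : 0 < |c| := abs_pos.2 hc
      calc |c| * ⨅ y, f x y ≤ |c| * (|c|⁻¹ * ⨅ y, f (c • x) y) :=
            mul_le_mul_of_nonneg_left h1 hcpos.le
        _ = _ := by rw [← mul_assoc, mul_inv_cancel₀ hcpos.ne', one_mul]

section
variable {G : Type} [NormedAddCommGroup G] [NormedSpace ℝ G] {K : Type} [Group K] [Fintype K]

/-- the averaged seminorm -/
noncomputable def q (S : Stage G K) (a : G) : ℝ := (∑ k, ‖S.act k a‖) / Fintype.card K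

theorem cardpos : (0:ℝ) < Fintype.card K := by exact_mod_cast Fintype.card_pos

theorem q_nonneg (S : Stage G K) (a : G) : 0 ≤ q S a := by
  unfold q
  have := cardpos (K := K)
  positivity

theorem q_add (S : Stage G K) (a b : G) : q S (a + b) ≤ q S a + q S b := by
  unfold q
  rw [← add_div, ← Finset.sum_add_distrib]
  apply div_le_div_of_nonneg_right _ cardpos.le
  apply Finset.sum_le_sum
  intro k _
  rw [map_add]
  exact norm_add_le _ _

theorem q_smul (S : Stage G K) (c : ℝ) (a : G) : q S (c • a) = |c| * q S a := by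
  unfold q
  rw [← mul_div_assoc, Finset.mul_sum]
  congr 1
  apply Finset.sum_congr rfl
  intro k _
  rw [map_smul, norm_smul, Real.norm_eq_abs]

theorem q_zero (S : Stage G K) : q S 0 = 0 := by
  have := q_smul S 0 0
  simpa using this

theorem q_neg (S : Stage G K) (a : G) : q S (-a) = q S a := by
  have := q_smul S (-1) a
  simpa using this

theorem q_act (S : Stage G K) (l : K) {a : G} (ha : a ∈ S.A) : q S (S.act l a) = q S a := by
  unfold q
  congr 1
  apply Fintype.sum_equiv (Equiv.mulRight l)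
  intro k
  rw [Equiv.coe_mulRight, S.mul k l a ha]

theorem q_le (S : Stage G K) {a : G} (ha : a ∈ S.A) : q S a ≤ (1 + S.δ) * ‖a‖ := by
  unfold q
  rw [div_le_iff₀ cardpos]
  calc ∑ k, ‖S.act k a‖ ≤ ∑ _k : K, (1 + S.δ) * ‖a‖ :=
        Finset.sum_le_sum fun k _ => S.bound k a ha
    _ = (1 + S.δ) * ‖a‖ * Fintype.card K := by
        rw [Finset.sum_const, Finset.card_univ, nsmul_eq_mul]; ring

theorem le_q (S : Stage G K) {a : G} (ha : a ∈ S.A) : ‖a‖ ≤ (1 + S.δ) * q S a := by
  unfold q
  rw [← mul_div_assoc, le_div_iff₀ cardpos, Finset.mul_sum]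
  calc ‖a‖ * Fintype.card K = ∑ _k : K, ‖a‖ := by
        rw [Finset.sum_const, Finset.card_univ, nsmul_eq_mul]; ring
    _ ≤ ∑ k, (1 + S.δ) * ‖S.act k a‖ := by
        apply Finset.sum_le_sum
        intro k _
        have h1 : S.act k⁻¹ (S.act k a) = a := by
          rw [← S.mul _ _ a ha, inv_mul_cancel, S.one a ha]
        calc ‖a‖ = ‖S.act k⁻¹ (S.act k a)‖ := by rw [h1]
          _ ≤ _ := S.bound _ _ (S.mem k a ha)

theorem q_sum (S : Stage G K) {ι : Type} (s : Finset ι) (f : ι → G) :
    q S (∑ i ∈ s, f i) ≤ ∑ i ∈ s, q S (f i) := by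
  classical
  induction s using Finset.induction_on with
  | empty => simp [q_zero]
  | insert i s hi ih =>
    rw [Finset.sum_insert hi, Finset.sum_insert hi]
    exact (q_add S _ _).trans (by linarith)

/-- one step of the construction -/
theorem step (hG : Gur G) (S : Stage G K) (x : G) {δ' : ℝ} (hδ' : 0 < δ') (hδ'1 : δ' ≤ 1) :
    ∃ S' : Stage G K, S'.δ = δ' ∧ S.A ≤ S'.A ∧ x ∈ S'.A ∧
      ∀ k, ∀ a ∈ S.A, ‖S'.act k a - S.act k a‖ ≤ 8 * S.δ * ‖a‖ := by
  classical
  have hfin := S.fin
  set V : Submodule ℝ G := S.A ⊔ Submodule.span ℝ {x} with hV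
  have hAV : S.A ≤ V := le_sup_left
  have hxV : x ∈ V := (le_sup_right : _ ≤ V) (Submodule.mem_span_singleton_self x)
  have hVfin : FiniteDimensional ℝ V := by rw [hV]; infer_instance
  let cost : (K → V) → (K → S.A) → ℝ := fun v y =>
    q S (∑ k, S.act k (y k : G)) + ∑ k, ‖(v k : G) + (y k : G)‖ + S.δ * ∑ k, q S (y k : G)
  have hδ := S.δpos
  have hδ1 := S.δle
  have hcost0 : ∀ v y, 0 ≤ cost v y := by
    intro v y
    simp only [cost]
    have h1 := q_nonneg S (∑ k, S.act k (y k : G))
    have h2 : 0 ≤ ∑ k, ‖(v k : G) + (y k : G)‖ := Finset.sum_nonneg fun k _ => norm_nonneg _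
    have h3 : 0 ≤ ∑ k, q S (y k : G) := Finset.sum_nonneg fun k _ => q_nonneg S _
    positivity
  have hcostadd : ∀ v v' y y', cost (v + v') (y + y') ≤ cost v y + cost v' y' := by
    intro v v' y y'
    simp only [cost]
    have h1 : q S (∑ k, S.act k ((y + y') k : G)) ≤
        q S (∑ k, S.act k (y k : G)) + q S (∑ k, S.act k (y' k : G)) := by
      have : ∑ k, S.act k ((y + y') k : G) =
          (∑ k, S.act k (y k : G)) + ∑ k, S.act k (y' k : G) := by
        rw [← Finset.sum_add_distrib]
        apply Finset.sum_congr rfl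
        intro k _
        simp [Pi.add_apply]
      rw [this]
      exact q_add S _ _
    have h2 : ∑ k, ‖((v + v') k : G) + ((y + y') k : G)‖ ≤
        ∑ k, ‖(v k : G) + (y k : G)‖ + ∑ k, ‖(v' k : G) + (y' k : G)‖ := by
      rw [← Finset.sum_add_distrib]
      apply Finset.sum_le_sum
      intro k _
      have : ((v + v') k : G) + ((y + y') k : G) =
          ((v k : G) + (y k : G)) + ((v' k : G) + (y' k : G)) := by
        simp [Pi.add_apply]; abel
      rw [this]
      exact norm_add_le _ _
    have h3 : ∑ k, q S ((y + y') k : G) ≤ ∑ k, q S (y k : G) + ∑ k, q S (y' k : G) := by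
      rw [← Finset.sum_add_distrib]
      apply Finset.sum_le_sum
      intro k _
      have : ((y + y') k : G) = (y k : G) + (y' k : G) := by simp [Pi.add_apply]
      rw [this]
      exact q_add S _ _
    have h4 := mul_le_mul_of_nonneg_left h3 hδ.le
    linarith
  have hcostsmul : ∀ (c : ℝ) v y, cost (c • v) (c • y) = |c| * cost v y := by
    intro c v y
    simp only [cost]
    have h1 : ∑ k, S.act k ((c • y) k : G) = c • ∑ k, S.act k (y k : G) := by
      rw [Finset.smul_sum]
      apply Finset.sum_congr rfl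
      intro k _
      simp [Pi.smul_apply]
    have h2 : ∑ k, ‖((c • v) k : G) + ((c • y) k : G)‖ = |c| * ∑ k, ‖(v k : G) + (y k : G)‖ := by
      rw [Finset.mul_sum]
      apply Finset.sum_congr rfl
      intro k _
      have : ((c • v) k : G) + ((c • y) k : G) = c • ((v k : G) + (y k : G)) := by
        simp [Pi.smul_apply]
      rw [this, norm_smul, Real.norm_eq_abs]
    have h3 : ∑ k, q S ((c • y) k : G) = |c| * ∑ k, q S (y k : G) := by
      rw [Finset.mul_sum]
      apply Finset.sum_congr rfl
      intro k _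
      have : ((c • y) k : G) = c • (y k : G) := by simp [Pi.smul_apply]
      rw [this, q_smul]
    rw [h1, h2, h3, q_smul]
    ring
  obtain ⟨hNadd, hNsmul⟩ := marg cost hcost0 hcostadd hcostsmul
  have hbdd : ∀ v, BddBelow (range (cost v)) := fun v =>
    ⟨0, by rintro _ ⟨y, rfl⟩; exact hcost0 v y⟩
  set N : (K → V) → ℝ := fun v => ⨅ y, cost v y with hN
  -- definiteness
  have hNdef : ∀ v, N v = 0 → v = 0 := by
    intro v hv
    have h1 : ∀ y, (S.δ / (1 + S.δ)) * ∑ k, ‖(v k : G)‖ ≤ cost v y := by
      intro y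
      have h2 : ∑ k, ‖(v k : G)‖ ≤ ∑ k, ‖(v k : G) + (y k : G)‖ + (1 + S.δ) * ∑ k, q S (y k : G) := by
        rw [Finset.mul_sum, ← Finset.sum_add_distrib]
        apply Finset.sum_le_sum
        intro k _
        calc ‖(v k : G)‖ = ‖((v k : G) + (y k : G)) - (y k : G)‖ := by rw [add_sub_cancel_right]
          _ ≤ ‖(v k : G) + (y k : G)‖ + ‖(y k : G)‖ := norm_sub_le _ _
          _ ≤ _ := by have := le_q S (y k).2; linarith
      have h3 : 0 ≤ ∑ k, ‖(v k : G) + (y k : G)‖ := Finset.sum_nonneg fun k _ => norm_nonneg _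
      have h4 := q_nonneg S (∑ k, S.act k (y k : G))
      simp only [cost]
      rw [div_mul_eq_mul_div, div_le_iff₀ (by linarith)]
      have h5 : S.δ * ∑ k, ‖(v k : G)‖ ≤
          S.δ * (∑ k, ‖(v k : G) + (y k : G)‖ + (1 + S.δ) * ∑ k, q S (y k : G)) :=
        mul_le_mul_of_nonneg_left h2 hδ.le
      nlinarith
    have h2 : (S.δ / (1 + S.δ)) * ∑ k, ‖(v k : G)‖ ≤ N v := le_ciInf h1
    rw [hv] at h2
    have h3 : ∑ k, ‖(v k : G)‖ ≤ 0 := by
      have : 0 < S.δ / (1 + S.δ) := by positivity
      by_contra hcon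
      push Not at hcon
      have := mul_pos this hcon
      linarith
    have h4 : ∀ k ∈ Finset.univ, ‖(v k : G)‖ = 0 := by
      rw [← Finset.sum_eq_zero_iff_of_nonneg (fun k _ => norm_nonneg _)]
      exact le_antisymm h3 (Finset.sum_nonneg fun k _ => norm_nonneg _)
    funext k
    have h5 := h4 k (Finset.mem_univ k)
    exact Subtype.ext (norm_eq_zero.1 h5)
  -- the action
  let σ : K → (K → V) →ₗ[ℝ] (K → V) := fun k => LinearMap.funLeft ℝ V (fun j => k⁻¹ * j)
  have hσ : ∀ k v j, σ k v j = v (k⁻¹ * j) := fun k v j => rfl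
  have hσle : ∀ k v, N (σ k v) ≤ N v := by
    intro k v
    apply le_ciInf
    intro y
    refine (ciInf_le (hbdd _) (fun j => y (k⁻¹ * j))).trans (le_of_eq ?_)
    simp only [cost, hσ]
    have h1 : ∑ j, S.act j (y (k⁻¹ * j) : G) = S.act k (∑ j, S.act j (y j : G)) := by
      rw [map_sum]
      symm
      apply Fintype.sum_equiv (Equiv.mulLeft k)
      intro j
      rw [Equiv.coe_mulLeft, inv_mul_cancel_left, S.mul _ _ _ (y j).2]
    have h2 : ∑ j, ‖(v (k⁻¹ * j) : G) + (y (k⁻¹ * j) : G)‖ = ∑ j, ‖(v j : G) + (y j : G)‖ := by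
      symm
      apply Fintype.sum_equiv (Equiv.mulLeft k)
      intro j
      rw [Equiv.coe_mulLeft, inv_mul_cancel_left]
    have h3 : ∑ j, q S (y (k⁻¹ * j) : G) = ∑ j, q S (y j : G) := by
      symm
      apply Fintype.sum_equiv (Equiv.mulLeft k)
      intro j
      rw [Equiv.coe_mulLeft, inv_mul_cancel_left]
    rw [h1, h2, h3, q_act S k (Submodule.sum_mem _ fun j _ => S.mem j _ (y j).2)]
  have hσm : ∀ k l v, σ (k * l) v = σ k (σ l v) := by
    intro k l v
    funext j
    rw [hσ, hσ, hσ, mul_inv_rev, mul_assoc]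
  have hσ1 : ∀ v, σ 1 v = v := by
    intro v
    funext j
    rw [hσ, inv_one, one_mul]
  have hσN : ∀ k v, N (σ k v) = N v := by
    intro k v
    apply le_antisymm (hσle k v)
    have h1 := hσle k⁻¹ (σ k v)
    rw [← hσm, inv_mul_cancel, hσ1] at h1
    exact h1
  -- the embedding of V
  let E : V →ₗ[ℝ] (K → V) := LinearMap.single ℝ (fun _ : K => V) 1
  have hE : ∀ v, E v = Pi.single 1 v := fun v => rfl
  have hEN : ∀ v, N (E v) = ‖v‖ := by
    intro v
    apply le_antisymm
    · refine (ciInf_le (hbdd _) 0).trans (le_of_eq ?_)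
      simp only [cost, hE]
      have h1 : ∑ k, S.act k (((0 : K → S.A) k : S.A) : G) = 0 := by simp
      have h3 : ∑ k, q S (((0 : K → S.A) k : S.A) : G) = 0 := by simp [q_zero]
      rw [h1, h3, q_zero, mul_zero, zero_add, add_zero, Finset.sum_eq_single 1]
      · simp
      · intro k _ hk
        simp [Pi.single_eq_of_ne hk]
      · intro h; exact absurd (Finset.mem_univ _) h
    · apply le_ciInf
      intro y
      simp only [cost, hE]
      rw [← Finset.add_sum_erase _ _ (Finset.mem_univ (1 : K)),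
        ← Finset.add_sum_erase _ _ (Finset.mem_univ (1 : K)),
        ← Finset.add_sum_erase _ (fun k => q S (y k : G)) (Finset.mem_univ (1 : K)),
        S.one _ (y 1).2]
      have h1 : q S (y 1 : G) ≤ q S ((y 1 : G) + ∑ k ∈ Finset.univ.erase 1, S.act k (y k : G)) +
          ∑ k ∈ Finset.univ.erase 1, q S (y k : G) := by
        have e1 : (y 1 : G) = ((y 1 : G) + ∑ k ∈ Finset.univ.erase 1, S.act k (y k : G)) +
            -(∑ k ∈ Finset.univ.erase 1, S.act k (y k : G)) := by abel
        calc q S (y 1 : G) ≤ q S ((y 1 : G) + ∑ k ∈ Finset.univ.erase 1, S.act k (y k : G)) +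
            q S (-(∑ k ∈ Finset.univ.erase 1, S.act k (y k : G))) := by
              conv_lhs => rw [e1]
              exact q_add S _ _
          _ ≤ _ := by
              rw [q_neg]
              have h2 := q_sum S (Finset.univ.erase 1) (fun k => S.act k (y k : G))
              have h3 : ∑ k ∈ Finset.univ.erase 1, q S (S.act k (y k : G)) =
                  ∑ k ∈ Finset.univ.erase 1, q S (y k : G) :=
                Finset.sum_congr rfl fun k _ => q_act S k (y k).2
              rw [h3] at h2
              linarith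
      have h2 : ∑ k ∈ Finset.univ.erase 1, q S (y k : G) ≤
          ∑ k ∈ Finset.univ.erase 1, ‖((Pi.single 1 v : K → V) k : G) + (y k : G)‖ +
            S.δ * ∑ k ∈ Finset.univ.erase 1, q S (y k : G) := by
        rw [Finset.mul_sum, ← Finset.sum_add_distrib]
        apply Finset.sum_le_sum
        intro k hk
        have hk1 : k ≠ 1 := (Finset.mem_erase.1 hk).1
        rw [Pi.single_eq_of_ne hk1]
        have h3 := q_le S (y k).2
        have h4 := q_nonneg S (y k : G)
        have h5 := norm_nonneg (y k : G)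
        simp only [ZeroMemClass.coe_zero, zero_add]
        have h6 := mul_le_mul_of_nonneg_left h3 (show 0 ≤ 1 - S.δ by linarith)
        have h7 : 0 ≤ S.δ * S.δ * ‖(y k : G)‖ := by positivity
        nlinarith
      have h6 : ‖v‖ ≤ ‖((Pi.single 1 v : K → V) 1 : G) + (y 1 : G)‖ + ‖(y 1 : G)‖ := by
        have : ((Pi.single 1 v : K → V) 1 : G) = (v : G) := by simp
        rw [this]
        calc ‖v‖ = ‖((v : G) + (y 1 : G)) - (y 1 : G)‖ := by rw [add_sub_cancel_right]; rfl
          _ ≤ _ := norm_sub_le _ _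
      have h7 := le_q S (y 1).2
      nlinarith
  obtain ⟨S', J, hS'δ, hJE, hJmem, hJact, hJle⟩ := exists_stage hG N hNadd hNsmul hNdef σ hσ1 hσm
    hσN V E hEN hδ' hδ'1
  refine ⟨S', hS'δ, ?_, ?_, ?_⟩
  · intro a ha
    have h1 := hJE ⟨a, hAV ha⟩
    have h2 := hJmem (E ⟨a, hAV ha⟩)
    rw [h1] at h2
    exact h2
  · have h1 := hJE ⟨x, hxV⟩
    have h2 := hJmem (E ⟨x, hxV⟩)
    rw [h1] at h2
    exact h2
  · intro k a ha
    have h1 : S'.act k a = J (σ k (E ⟨a, hAV ha⟩)) := by
      rw [← hJact, hJE]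
    have h2 : S.act k a = J (E ⟨S.act k a, hAV (S.mem k a ha)⟩) := by rw [hJE]
    rw [h1, h2, ← map_sub]
    refine (hJle _).trans ?_
    have h3 : N (σ k (E ⟨a, hAV ha⟩) - E ⟨S.act k a, hAV (S.mem k a ha)⟩) ≤
        2 * S.δ * q S a := by
      let y : K → S.A := Pi.single 1 ⟨S.act k a, S.mem k a ha⟩ - Pi.single k ⟨a, ha⟩
      refine (ciInf_le (hbdd _) y).trans ?_
      have hy : ∀ j, (y j : G) = (((Pi.single 1 ⟨S.act k a, S.mem k a ha⟩ : K → S.A) j : S.A) : G) -
          (((Pi.single k ⟨a, ha⟩ : K → S.A) j : S.A) : G) := fun j => rfl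
      have hs1 : ∀ (i : K) (b : S.A) (j : K), (((Pi.single i b : K → S.A) j : S.A) : G) =
          if j = i then (b : G) else 0 := by
        intro i b j
        by_cases hji : j = i
        · subst hji; simp
        · simp [hji]
      have hs2 : ∀ (i : K) (b : V) (j : K), (((Pi.single i b : K → V) j : V) : G) =
          if j = i then (b : G) else 0 := by
        intro i b j
        by_cases hji : j = i
        · subst hji; simp
        · simp [hji]
      have hv : ∀ j, (((σ k (E ⟨a, hAV ha⟩) - E ⟨S.act k a, hAV (S.mem k a ha)⟩ : K → V) j : V) : G) =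
          (if j = k then a else 0) - (if j = 1 then S.act k a else 0) := by
        intro j
        rw [Pi.sub_apply, Submodule.coe_sub, hσ, hE, hE, hs2, hs2]
        simp only [inv_mul_eq_one]
        congr 1
        by_cases hjk : k = j
        · subst hjk; simp
        · rw [if_neg hjk, if_neg (fun h => hjk h.symm)]
      simp only [cost]
      have e1 : ∑ j, S.act j (y j : G) = 0 := by
        simp only [hy, hs1, map_sub]
        rw [Finset.sum_sub_distrib]
        have e2 : ∑ j, S.act j (if j = 1 then S.act k a else 0) = S.act k a := by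
          rw [Finset.sum_eq_single 1]
          · rw [if_pos rfl, S.one _ (S.mem k a ha)]
          · intro j _ hj; rw [if_neg hj, map_zero]
          · intro h; exact absurd (Finset.mem_univ _) h
        have e3 : ∑ j, S.act j (if j = k then a else 0) = S.act k a := by
          rw [Finset.sum_eq_single k]
          · rw [if_pos rfl]
          · intro j _ hj; rw [if_neg hj, map_zero]
          · intro h; exact absurd (Finset.mem_univ _) h
        rw [e2, e3, sub_self]
      have e4 : ∑ j, ‖(((σ k (E ⟨a, hAV ha⟩) - E ⟨S.act k a, hAV (S.mem k a ha)⟩ : K → V) j : V) : G)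
          + (y j : G)‖ = 0 := by
        apply Finset.sum_eq_zero
        intro j _
        rw [hv, hy, hs1, hs1]
        rw [norm_eq_zero]
        abel
      have e5 : ∑ j, q S (y j : G) ≤ 2 * q S a := by
        calc ∑ j, q S (y j : G) ≤ ∑ j, (q S (if j = 1 then S.act k a else 0) +
              q S (if j = k then a else 0)) := by
              apply Finset.sum_le_sum
              intro j _
              rw [hy, hs1, hs1, sub_eq_add_neg]
              refine (q_add S _ _).trans ?_
              rw [q_neg]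
          _ = q S (S.act k a) + q S a := by
              rw [Finset.sum_add_distrib]
              congr 1
              · rw [Finset.sum_eq_single 1]
                · rw [if_pos rfl]
                · intro j _ hj; rw [if_neg hj, q_zero]
                · intro h; exact absurd (Finset.mem_univ _) h
              · rw [Finset.sum_eq_single k]
                · rw [if_pos rfl]
                · intro j _ hj; rw [if_neg hj, q_zero]
                · intro h; exact absurd (Finset.mem_univ _) h
          _ = 2 * q S a := by rw [q_act S k ha]; ring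
      rw [e1, e4, q_zero]
      have := mul_le_mul_of_nonneg_left e5 hδ.le
      linarith
    have h4 := q_le S ha
    have h5 := q_nonneg S a
    have h6 := norm_nonneg a
    have h7 : N (σ k (E ⟨a, hAV ha⟩) - E ⟨S.act k a, hAV (S.mem k a ha)⟩) ≤
        4 * S.δ * ‖a‖ := by
      refine h3.trans ?_
      have : q S a ≤ 2 * ‖a‖ := h4.trans (by nlinarith)
      nlinarith
    have h8 : 0 ≤ 4 * S.δ * ‖a‖ := by positivity
    calc (1 + δ') * N (σ k (E ⟨a, hAV ha⟩) - E ⟨S.act k a, hAV (S.mem k a ha)⟩)
        ≤ (1 + δ') * (4 * S.δ * ‖a‖) := mul_le_mul_of_nonneg_left h7 (by linarith)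
      _ ≤ 2 * (4 * S.δ * ‖a‖) := mul_le_mul_of_nonneg_right (by linarith) h8
      _ = 8 * S.δ * ‖a‖ := by ring

end

end Pool.Agent.H305R3.Gurarij
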