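import Mathlib
import Pool.Agent.H305R3.GurB

set_option autoImplicit false

open Set Filter Topology

namespace Pool.Agent.H305R3.Gurarij

/-- An almost isometric finite dimensional action is close to an exact isometric action of `K`
on the whole space. -/
theorem exactify {G : Type} [NormedAddCommGroup G] [NormedSpace ℝ G] [CompleteSpace G]
    [TopologicalSpace.SeparableSpace G] {K : Type} [Group K] [Fintype K]
    (hG : Gur G) (S : Stage G K) :
    ∃ π : K →* (G ≃ₗᵢ[ℝ] G), ∀ k, ∀ a ∈ S.A, ‖π k a - S.act k a‖ ≤ 16 * S.δ * ‖a‖ := by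
  classical
  let x : ℕ → G := TopologicalSpace.denseSeq G
  have hx : DenseRange x := TopologicalSpace.denseRange_denseSeq G
  have hstep : ∀ (n : ℕ) (T : Stage G K), ∃ T' : Stage G K, T'.δ = T.δ / 2 ∧ T.A ≤ T'.A ∧
      x n ∈ T'.A ∧ ∀ k, ∀ a ∈ T.A, ‖T'.act k a - T.act k a‖ ≤ 8 * T.δ * ‖a‖ := by
    intro n T
    exact step hG T (x n) (by have := T.δpos; positivity) (by have := T.δle; linarith)
  choose nxt hn1 hn2 hn3 hn4 using hstep
  let st : ℕ → Stage G K := fun n => Nat.rec S (fun n T => nxt n T) n
  have hst : ∀ n, st (n + 1) = nxt n (st n) := fun n => rfl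
  have hst0 : st 0 = S := rfl
  have hδ : ∀ n, (st n).δ = S.δ / 2 ^ n := by
    intro n
    induction n with
    | zero => simp [hst0]
    | succ n ih => rw [hst, hn1, ih, pow_succ]; field_simp
  have hmono1 : ∀ n, (st n).A ≤ (st (n + 1)).A := fun n => by rw [hst]; exact hn2 n _
  have hmono : Monotone fun n => (st n).A := monotone_nat_of_le_succ hmono1
  have hdiff : ∀ k n m, n ≤ m → ∀ a ∈ (st n).A,
      ‖(st m).act k a - (st n).act k a‖ ≤ 16 * ((st n).δ - (st m).δ) * ‖a‖ := by
    intro k n m hnm a ha
    induction m, hnm using Nat.le_induction with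
    | base => simp
    | succ m hm ih =>
      have h1 := hn4 m (st m) k a (hmono hm ha)
      rw [← hst] at h1
      have h2 := hn1 m (st m)
      rw [← hst] at h2
      calc ‖(st (m + 1)).act k a - (st n).act k a‖
          = ‖((st (m + 1)).act k a - (st m).act k a) + ((st m).act k a - (st n).act k a)‖ := by
            rw [sub_add_sub_cancel]
        _ ≤ 8 * (st m).δ * ‖a‖ + 16 * ((st n).δ - (st m).δ) * ‖a‖ :=
            (norm_add_le _ _).trans (add_le_add h1 ih)
        _ = 16 * ((st n).δ - (st (m + 1)).δ) * ‖a‖ := by rw [h2]; ring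
  have hdiff' : ∀ k n m, n ≤ m → ∀ a ∈ (st n).A,
      ‖(st m).act k a - (st n).act k a‖ ≤ 16 * (st n).δ * ‖a‖ := by
    intro k n m hnm a ha
    refine (hdiff k n m hnm a ha).trans ?_
    apply mul_le_mul_of_nonneg_right _ (norm_nonneg _)
    have := (st m).δpos
    linarith
  have hδlim : Tendsto (fun n => (st n).δ) atTop (𝓝 0) := by
    have h1 : Tendsto (fun n : ℕ => S.δ * (1 / 2 : ℝ) ^ n) atTop (𝓝 (S.δ * 0)) :=
      (tendsto_pow_atTop_nhds_zero_of_lt_one (by norm_num) (by norm_num)).const_mul _
    rw [mul_zero] at h1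
    refine h1.congr ?_
    intro n
    rw [hδ n, one_div, inv_pow, div_eq_mul_inv]
  let D : Submodule ℝ G := ⨆ n, (st n).A
  have hmemD : ∀ a, a ∈ D ↔ ∃ n, a ∈ (st n).A := fun a =>
    Submodule.mem_iSup_of_directed _ hmono.directed_le
  have hDdense : Dense (D : Set G) := by
    refine hx.mono ?_
    rintro _ ⟨n, rfl⟩
    refine (hmemD _).2 ⟨n + 1, ?_⟩
    rw [hst]
    exact hn3 n _
  have hDR : DenseRange D.subtype := by
    rw [DenseRange]
    have : range D.subtype = (D : Set G) := by simp
    rw [this]
    exact hDdense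
  -- limits
  have hex : ∀ (k : K) (a : D), ∃ v : G, Tendsto (fun n => (st n).act k (a : G)) atTop (𝓝 v) := by
    intro k a
    obtain ⟨m, hm⟩ := (hmemD a).1 a.2
    apply cauchySeq_tendsto_of_complete
    apply cauchySeq_of_le_tendsto_0' (fun n => 16 * (st n).δ * ‖(a : G)‖ + if n < m then
      (∑ i ∈ Finset.range m, ∑ j ∈ Finset.range m, ‖(st i).act k (a : G) - (st j).act k (a : G)‖)
        + (∑ i ∈ Finset.range m, ‖(st i).act k (a : G) - (st m).act k (a : G)‖)
        + 16 * (st m).δ * ‖(a : G)‖ else 0)
    · intro n n' hnn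
      by_cases hn : n < m
      · rw [if_pos hn, dist_eq_norm]
        have p1 : 0 ≤ 16 * (st n).δ * ‖(a : G)‖ := by have := (st n).δpos; positivity
        have p2 : 0 ≤ 16 * (st m).δ * ‖(a : G)‖ := by have := (st m).δpos; positivity
        have p3 : 0 ≤ ∑ i ∈ Finset.range m, ∑ j ∈ Finset.range m,
            ‖(st i).act k (a : G) - (st j).act k (a : G)‖ :=
          Finset.sum_nonneg fun i _ => Finset.sum_nonneg fun j _ => norm_nonneg _
        have p4 : 0 ≤ ∑ i ∈ Finset.range m, ‖(st i).act k (a : G) - (st m).act k (a : G)‖ :=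
          Finset.sum_nonneg fun i _ => norm_nonneg _
        by_cases hn' : n' < m
        · have h1 : ‖(st n).act k (a : G) - (st n').act k (a : G)‖ ≤
              ∑ j ∈ Finset.range m, ‖(st n).act k (a : G) - (st j).act k (a : G)‖ :=
            Finset.single_le_sum (f := fun j => ‖(st n).act k (a : G) - (st j).act k (a : G)‖)
              (fun j _ => norm_nonneg _) (Finset.mem_range.2 hn')
          have h2 : ∑ j ∈ Finset.range m, ‖(st n).act k (a : G) - (st j).act k (a : G)‖ ≤
              ∑ i ∈ Finset.range m, ∑ j ∈ Finset.range m,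
                ‖(st i).act k (a : G) - (st j).act k (a : G)‖ :=
            Finset.single_le_sum (f := fun i => ∑ j ∈ Finset.range m,
              ‖(st i).act k (a : G) - (st j).act k (a : G)‖)
              (fun i _ => Finset.sum_nonneg fun j _ => norm_nonneg _) (Finset.mem_range.2 hn)
          linarith
        · push Not at hn'
          have h1 : ‖(st n).act k (a : G) - (st m).act k (a : G)‖ ≤
              ∑ i ∈ Finset.range m, ‖(st i).act k (a : G) - (st m).act k (a : G)‖ :=
            Finset.single_le_sum (f := fun i => ‖(st i).act k (a : G) - (st m).act k (a : G)‖)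
              (fun j _ => norm_nonneg _) (Finset.mem_range.2 hn)
          have h2 := hdiff' k m n' hn' a hm
          have h3 : ‖(st n).act k (a : G) - (st n').act k (a : G)‖ ≤
              ‖(st n).act k (a : G) - (st m).act k (a : G)‖ +
              ‖(st n').act k (a : G) - (st m).act k (a : G)‖ := by
            rw [norm_sub_rev ((st n').act k (a : G))]
            calc _ = ‖((st n).act k (a : G) - (st m).act k (a : G)) +
                ((st m).act k (a : G) - (st n').act k (a : G))‖ := by rw [sub_add_sub_cancel]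
              _ ≤ _ := norm_add_le _ _
          linarith
      · rw [if_neg hn, add_zero, dist_eq_norm, norm_sub_rev]
        push Not at hn
        exact hdiff' k n n' hnn a (hmono hn hm)
    · have h1 : Tendsto (fun n => 16 * (st n).δ * ‖(a : G)‖) atTop (𝓝 0) := by
        have := (hδlim.const_mul 16).mul_const ‖(a : G)‖
        simpa using this
      refine h1.congr' ?_
      filter_upwards [eventually_ge_atTop m] with n hn
      rw [if_neg (not_lt.2 hn), add_zero]
  choose u hu using hex
  let U : K → D →ₗ[ℝ] G := fun k =>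
    { toFun := u k
      map_add' := by
        intro a b
        have h1 := (hu k a).add (hu k b)
        refine tendsto_nhds_unique (hu k (a + b)) (h1.congr fun n => ?_)
        rw [← map_add]; rfl
      map_smul' := by
        intro c a
        have h1 := (hu k a).const_smul c
        refine tendsto_nhds_unique (hu k (c • a)) (h1.congr fun n => ?_)
        rw [← map_smul]; rfl }
  have hU : ∀ k (a : D), Tendsto (fun n => (st n).act k (a : G)) atTop (𝓝 (U k a)) := hu
  have hUest : ∀ k n (a : D), (a : G) ∈ (st n).A →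
      ‖U k a - (st n).act k (a : G)‖ ≤ 16 * (st n).δ * ‖(a : G)‖ := by
    intro k n a ha
    have h1 : Tendsto (fun m => ‖(st m).act k (a : G) - (st n).act k (a : G)‖) atTop
        (𝓝 ‖U k a - (st n).act k (a : G)‖) := ((hU k a).sub_const _).norm
    refine le_of_tendsto h1 ?_
    filter_upwards [eventually_ge_atTop n] with m hm
    exact hdiff' k n m hm a ha
  have hUnorm : ∀ k (a : D), ‖U k a‖ = ‖(a : G)‖ := by
    intro k a
    obtain ⟨m, hm⟩ := (hmemD a).1 a.2
    have h1 : Tendsto (fun n => ‖(st n).act k (a : G)‖) atTop (𝓝 ‖U k a‖) := (hU k a).norm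
    have h2 : Tendsto (fun n => (1 + (st n).δ) * ‖(a : G)‖) atTop (𝓝 ‖(a : G)‖) := by
      have := (hδlim.const_add 1).mul_const ‖(a : G)‖
      simpa using this
    have h3 : Tendsto (fun n => (1 + (st n).δ) * ‖(st n).act k (a : G)‖) atTop (𝓝 ‖U k a‖) := by
      have := (hδlim.const_add 1).mul h1
      simpa using this
    apply le_antisymm
    · refine le_of_tendsto_of_tendsto h1 h2 ?_
      filter_upwards [eventually_ge_atTop m] with n hn
      exact (st n).bound k a (hmono hn hm)
    · refine ge_of_tendsto h3 ?_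
      filter_upwards [eventually_ge_atTop m] with n hn
      have hmem : (a : G) ∈ (st n).A := hmono hn hm
      have h4 : (st n).act k⁻¹ ((st n).act k (a : G)) = a := by
        rw [← (st n).mul _ _ _ hmem, inv_mul_cancel, (st n).one _ hmem]
      calc ‖(a : G)‖ = ‖(st n).act k⁻¹ ((st n).act k (a : G))‖ := by rw [h4]
        _ ≤ _ := (st n).bound _ _ ((st n).mem k _ hmem)
  -- composition
  have hcomp : ∀ k l (a : D) (Ψ : G → G), Continuous Ψ → (∀ b : D, Ψ b = U k b) →
      Ψ (U l a) = U (k * l) a := by
    intro k l a Ψ hΨ hΨU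
    obtain ⟨m, hm⟩ := (hmemD a).1 a.2
    have h1 : Tendsto (fun n => Ψ ((st n).act l (a : G))) atTop (𝓝 (Ψ (U l a))) :=
      (hΨ.tendsto _).comp (hU l a)
    have h2 : Tendsto (fun n => (st n).act (k * l) (a : G)) atTop (𝓝 (U (k * l) a)) :=
      hU (k * l) a
    have h3 : Tendsto (fun n => Ψ ((st n).act l (a : G)) - (st n).act (k * l) (a : G)) atTop
        (𝓝 0) := by
      rw [tendsto_zero_iff_norm_tendsto_zero]
      have h4 : Tendsto (fun n => 16 * (st n).δ * (2 * ‖(a : G)‖)) atTop (𝓝 0) := by
        have := (hδlim.const_mul 16).mul_const (2 * ‖(a : G)‖)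
        simpa using this
      refine squeeze_zero' (Eventually.of_forall fun n => norm_nonneg _) ?_ h4
      filter_upwards [eventually_ge_atTop m] with n hn
      have hmem : (a : G) ∈ (st n).A := hmono hn hm
      have hmem2 : (st n).act l (a : G) ∈ (st n).A := (st n).mem l _ hmem
      have hmem3 : (st n).act l (a : G) ∈ D := (hmemD _).2 ⟨n, hmem2⟩
      have h5 := hΨU ⟨_, hmem3⟩
      have h6 := hUest k n ⟨_, hmem3⟩ hmem2
      rw [← h5] at h6
      rw [(st n).mul k l _ hmem]
      refine h6.trans ?_
      apply mul_le_mul_of_nonneg_left _ (by have := (st n).δpos; positivity)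
      refine ((st n).bound l _ hmem).trans ?_
      apply mul_le_mul_of_nonneg_right _ (norm_nonneg _)
      have := (st n).δle
      linarith
    have h4 := h1.sub h2
    have h5 := tendsto_nhds_unique h4 h3
    exact sub_eq_zero.1 h5
  have hDU : ∀ k, DenseRange (U k) := by
    intro k
    have hsub : (D : Set G) ⊆ closure (range (U k)) := by
      intro a ha
      obtain ⟨m, hm⟩ := (hmemD a).1 ha
      -- a is the limit of U k (act_n k⁻¹ a)
      have hone : ∀ n, m ≤ n → (st n).act k ((st n).act k⁻¹ a) = a := by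
        intro n hn
        have hmem : a ∈ (st n).A := hmono hn hm
        rw [← (st n).mul _ _ _ hmem, mul_inv_cancel, (st n).one _ hmem]
      rw [Metric.mem_closure_iff]
      intro ε hε
      have h4 : Tendsto (fun n => 16 * (st n).δ * (2 * ‖a‖)) atTop (𝓝 0) := by
        have := (hδlim.const_mul 16).mul_const (2 * ‖a‖)
        simpa using this
      obtain ⟨n, hn1, hn2⟩ := ((h4.eventually (gt_mem_nhds hε)).and
        (eventually_ge_atTop m)).exists
      have hmem : a ∈ (st n).A := hmono hn2 hm
      have hmem2 : (st n).act k⁻¹ a ∈ (st n).A := (st n).mem _ _ hmem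
      have hmem3 : (st n).act k⁻¹ a ∈ D := (hmemD _).2 ⟨n, hmem2⟩
      refine ⟨U k ⟨_, hmem3⟩, ⟨_, rfl⟩, ?_⟩
      have h6 := hUest k n ⟨_, hmem3⟩ hmem2
      rw [hone n hn2] at h6
      rw [dist_comm, dist_eq_norm]
      refine lt_of_le_of_lt (h6.trans ?_) hn1
      apply mul_le_mul_of_nonneg_left _ (by have := (st n).δpos; positivity)
      refine ((st n).bound _ _ hmem).trans ?_
      apply mul_le_mul_of_nonneg_right _ (norm_nonneg _)
      have := (st n).δle
      linarith
    have h2 : closure (D : Set G) ⊆ closure (range (U k)) :=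
      closure_minimal hsub isClosed_closure
    rw [hDdense.closure_eq] at h2
    rw [DenseRange, dense_iff_closure_eq]
    exact eq_univ_of_univ_subset h2
  let P : K → (G ≃ₗᵢ[ℝ] G) := fun k =>
    (LinearEquiv.refl ℝ D).extendOfIsometry D.subtype (U k) hDR (hDU k)
      (fun a => by simpa using hUnorm k a)
  have hP : ∀ k (a : D), P k (a : G) = U k a := by
    intro k a
    exact LinearEquiv.extendOfIsometry_eq (LinearEquiv.refl ℝ D) D.subtype (U k) hDR (hDU k)
      (fun a => by simpa using hUnorm k a) a
  have hPmul : ∀ k l, P (k * l) = P k * P l := by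
    intro k l
    ext y
    have hcont1 : Continuous (P (k * l)) := (P (k * l)).continuous
    have hcont2 : Continuous (P k * P l : G ≃ₗᵢ[ℝ] G) := (P k * P l : G ≃ₗᵢ[ℝ] G).continuous
    have : (P (k * l) : G → G) = (P k * P l : G ≃ₗᵢ[ℝ] G) := by
      apply hcont1.ext_on hDdense hcont2
      intro a ha
      have h1 := hP (k * l) ⟨a, ha⟩
      have h2 := hcomp k l ⟨a, ha⟩ (P k) (P k).continuous (hP k)
      have h3 := hP l ⟨a, ha⟩
      show P (k * l) a = P k (P l a)
      rw [show P l a = U l ⟨a, ha⟩ from h3, h2]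
      exact h1
    exact congrFun this y
  refine ⟨MonoidHom.mk' P hPmul, ?_⟩
  intro k a ha
  have haD : a ∈ D := (hmemD a).2 ⟨0, ha⟩
  have h1 := hUest k 0 ⟨a, haD⟩ ha
  have h2 := hP k ⟨a, haD⟩
  show ‖P k a - S.act k a‖ ≤ _
  rw [show P k a = U k ⟨a, haD⟩ from h2]
  exact h1

end Pool.Agent.H305R3.Gurarij
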