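import Mathlib
import Pool.Agent.H305R3.GurC

set_option autoImplicit false

open Set Filter Topology

namespace Pool.Agent.H305R3.Gurarij

section balls
variable {I : Type} [Group I]

/-- balls of the group generated by `P` and `g`, with the elements of `P` of length zero -/
def ball (P : Subgroup I) (g : I) : ℕ → Set I
  | 0 => (P : Set I)
  | n + 1 => ball P g n ∪ ((fun q : I × I => q.1 * g * q.2) '' ((P : Set I) ×ˢ ball P g n) ∪
      (fun q : I × I => q.1 * g⁻¹ * q.2) '' ((P : Set I) ×ˢ ball P g n))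

theorem ball_finite (P : Subgroup I) (g : I) (hP : (P : Set I).Finite) (n : ℕ) :
    (ball P g n).Finite := by
  induction n with
  | zero => exact hP
  | succ n ih => exact ih.union (((hP.prod ih).image _).union ((hP.prod ih).image _))

theorem ball_mono (P : Subgroup I) (g : I) : Monotone (ball P g) :=
  monotone_nat_of_le_succ fun _ => subset_union_left

theorem mul_mem_ball (P : Subgroup I) (g : I) (n : ℕ) {p γ : I} (hp : p ∈ P)
    (hγ : γ ∈ ball P g n) : p * γ ∈ ball P g n := by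
  induction n with
  | zero => exact P.mul_mem hp hγ
  | succ n ih =>
    rcases hγ with h | ⟨⟨a, b⟩, ⟨ha, hb⟩, rfl⟩ | ⟨⟨a, b⟩, ⟨ha, hb⟩, rfl⟩
    · exact Or.inl (ih h)
    · exact Or.inr (Or.inl ⟨(p * a, b), ⟨P.mul_mem hp ha, hb⟩, by simp [mul_assoc]⟩)
    · exact Or.inr (Or.inr ⟨(p * a, b), ⟨P.mul_mem hp ha, hb⟩, by simp [mul_assoc]⟩)

theorem gmul_mem_ball (P : Subgroup I) (g : I) (n : ℕ) {γ : I} (hγ : γ ∈ ball P g n) :
    g * γ ∈ ball P g (n + 1) :=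
  Or.inr (Or.inl ⟨(1, γ), ⟨P.one_mem, hγ⟩, by simp⟩)

theorem ginv_mul_mem_ball (P : Subgroup I) (g : I) (n : ℕ) {γ : I} (hγ : γ ∈ ball P g n) :
    g⁻¹ * γ ∈ ball P g (n + 1) :=
  Or.inr (Or.inr ⟨(1, γ), ⟨P.one_mem, hγ⟩, by simp⟩)

open Classical in
/-- the weight -/
noncomputable def wt (P : Subgroup I) (g : I) (L : ℕ) (γ : I) : ℝ :=
  (∑ n ∈ Finset.range L, if γ ∈ ball P g n then (1:ℝ) else 0) / L

theorem wt_nonneg (P : Subgroup I) (g : I) (L : ℕ) (γ : I) : 0 ≤ wt P g L γ := by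
  unfold wt
  apply div_nonneg _ (Nat.cast_nonneg L)
  apply Finset.sum_nonneg
  intro n _
  split_ifs <;> norm_num

theorem wt_le_one (P : Subgroup I) (g : I) {L : ℕ} (hL : 0 < L) (γ : I) : wt P g L γ ≤ 1 := by
  classical
  unfold wt
  have hL' : (0:ℝ) < L := by exact_mod_cast hL
  rw [div_le_one hL']
  calc (∑ n ∈ Finset.range L, if γ ∈ ball P g n then (1:ℝ) else 0)
      ≤ ∑ _n ∈ Finset.range L, (1:ℝ) := by
        apply Finset.sum_le_sum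
        intro n _
        split_ifs <;> norm_num
    _ = L := by simp

theorem wt_one (P : Subgroup I) (g : I) {L : ℕ} (hL : 0 < L) : wt P g L 1 = 1 := by
  classical
  unfold wt
  have hL' : (0:ℝ) < L := by exact_mod_cast hL
  have h1 : ∀ n, (1 : I) ∈ ball P g n := fun n => ball_mono P g (Nat.zero_le n) P.one_mem
  rw [div_eq_one_iff_eq hL'.ne']
  simp [h1]

theorem wt_mul (P : Subgroup I) (g : I) (L : ℕ) {p : I} (hp : p ∈ P) (γ : I) :
    wt P g L (p * γ) = wt P g L γ := by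
  classical
  unfold wt
  congr 1
  apply Finset.sum_congr rfl
  intro n _
  have : p * γ ∈ ball P g n ↔ γ ∈ ball P g n := by
    constructor
    · intro h
      have := mul_mem_ball P g n (P.inv_mem hp) h
      rwa [inv_mul_cancel_left] at this
    · exact mul_mem_ball P g n hp
  simp only [this]

theorem wt_zero (P : Subgroup I) (g : I) (M : ℕ) {γ : I} (hγ : γ ∉ ball P g M) :
    wt P g (M + 1) γ = 0 := by
  classical
  unfold wt
  rw [Finset.sum_eq_zero, zero_div]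
  intro n hn
  rw [if_neg]
  intro h
  exact hγ (ball_mono P g (Nat.lt_succ_iff.1 (Finset.mem_range.1 hn)) h)

theorem cnt_le (P : Subgroup I) (g : I) (L : ℕ) (γ γ' : I)
    (h : ∀ n, γ ∈ ball P g n → γ' ∈ ball P g (n + 1)) :
    wt P g L γ ≤ wt P g L γ' + 1 / L := by
  classical
  unfold wt
  rw [← add_div]
  apply div_le_div_of_nonneg_right _ (Nat.cast_nonneg L)
  have h1 : (∑ n ∈ Finset.range L, if γ ∈ ball P g n then (1:ℝ) else 0) ≤
      ∑ n ∈ Finset.range L, if γ' ∈ ball P g (n + 1) then (1:ℝ) else 0 := by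
    apply Finset.sum_le_sum
    intro n _
    by_cases hn : γ ∈ ball P g n
    · rw [if_pos hn, if_pos (h n hn)]
    · rw [if_neg hn]; split_ifs <;> norm_num
  have h2 := Finset.sum_range_succ' (fun n => if γ' ∈ ball P g n then (1:ℝ) else 0) L
  have h3 := Finset.sum_range_succ (fun n => if γ' ∈ ball P g n then (1:ℝ) else 0) L
  have h4 : (0:ℝ) ≤ if γ' ∈ ball P g 0 then (1:ℝ) else 0 := by split_ifs <;> norm_num
  have h5 : (if γ' ∈ ball P g L then (1:ℝ) else 0) ≤ 1 := by split_ifs <;> norm_num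
  linarith

theorem wt_lip (P : Subgroup I) (g : I) (L : ℕ) (γ : I) :
    |wt P g L (g * γ) - wt P g L γ| ≤ 1 / L := by
  have h1 := cnt_le P g L γ (g * γ) fun n hn => gmul_mem_ball P g n hn
  have h2 := cnt_le P g L (g * γ) γ fun n hn => by
    have := ginv_mul_mem_ball P g n hn
    rwa [inv_mul_cancel_left] at this
  rw [abs_le]
  constructor <;> linarith

end balls

/-- Approximation of a finite group of isometries and one more isometry by a finite group. -/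
theorem approx {G : Type} [NormedAddCommGroup G] [NormedSpace ℝ G] [CompleteSpace G]
    [TopologicalSpace.SeparableSpace G] (hG : Gur G)
    (P : Subgroup (G ≃ₗᵢ[ℝ] G)) (hP : (P : Set (G ≃ₗᵢ[ℝ] G)).Finite) (g : G ≃ₗᵢ[ℝ] G)
    (s : Finset G) {ε : ℝ} (hε : 0 < ε) :
    ∃ (P' : Subgroup (G ≃ₗᵢ[ℝ] G)) (f : (G ≃ₗᵢ[ℝ] G) → (G ≃ₗᵢ[ℝ] G)),
      (P' : Set (G ≃ₗᵢ[ℝ] G)).Finite ∧ (∀ p ∈ P, f p ∈ P') ∧
      (∀ p ∈ P, ∀ q ∈ P, f (p * q) = f p * f q) ∧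
      (∀ p ∈ P, ∀ x ∈ s, ‖f p x - p x‖ ≤ ε) ∧
      ∃ k ∈ P', ∀ x ∈ s, ‖k x - g x‖ ≤ ε := by
  classical
  -- parameters
  set R : ℝ := (∑ x ∈ s, ‖x‖) + 1 with hR
  have hRpos : 0 < R := by
    have : 0 ≤ ∑ x ∈ s, ‖x‖ := Finset.sum_nonneg fun x _ => norm_nonneg x
    linarith
  have hxR : ∀ x ∈ s, ‖x‖ ≤ R := by
    intro x hx
    have := Finset.single_le_sum (f := fun x : G => ‖x‖) (fun x _ => norm_nonneg x) hx
    linarith
  obtain ⟨M, hM⟩ := exists_nat_gt (4 * R / ε)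
  set δ : ℝ := min 1 (ε / (32 * R)) with hδ
  have hδpos : 0 < δ := by rw [hδ]; positivity
  have hδ1 : δ ≤ 1 := min_le_left _ _
  have hδ2 : 16 * δ * R ≤ ε / 2 := by
    have : δ ≤ ε / (32 * R) := min_le_right _ _
    calc 16 * δ * R ≤ 16 * (ε / (32 * R)) * R := by gcongr
      _ = ε / 2 := by field_simp; ring
  have hM2 : 2 * (1 / ((M + 1 : ℕ) : ℝ) * R) ≤ ε / 2 := by
    have hM1 : (0:ℝ) < ((M + 1 : ℕ) : ℝ) := by positivity
    have h1 : 4 * R / ε < ((M + 1 : ℕ) : ℝ) := by push_cast; linarith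
    rw [div_lt_iff₀ hε] at h1
    have h2 : 1 / ((M + 1 : ℕ) : ℝ) * R = R / ((M + 1 : ℕ) : ℝ) := by ring
    rw [h2]
    have h3 : R / ((M + 1 : ℕ) : ℝ) ≤ ε / 4 := by
      rw [div_le_iff₀ hM1]
      linarith
    linarith
  -- the finite set
  let B := ball P g
  let w := wt P g (M + 1)
  have hBfin : ∀ n, (B n).Finite := ball_finite P g hP
  let Ω := ↥(B (M + 1))
  have : Fintype Ω := (hBfin (M + 1)).fintype
  -- left multiplication by elements of P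
  let ι : P →* Equiv.Perm Ω := MonoidHom.mk' (fun p =>
    { toFun := fun ω => ⟨(p : G ≃ₗᵢ[ℝ] G) * ω, mul_mem_ball P g _ p.2 ω.2⟩
      invFun := fun ω => ⟨(p : G ≃ₗᵢ[ℝ] G)⁻¹ * ω, mul_mem_ball P g _ (P.inv_mem p.2) ω.2⟩
      left_inv := fun ω => Subtype.ext (inv_mul_cancel_left _ _)
      right_inv := fun ω => Subtype.ext (mul_inv_cancel_left _ _) }) (by
        intro p q
        ext ω
        simp [mul_assoc])
  have hι : ∀ (p : P) (ω : Ω), (((ι p)⁻¹ ω : Ω) : G ≃ₗᵢ[ℝ] G) =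
      (p : G ≃ₗᵢ[ℝ] G)⁻¹ * (ω : G ≃ₗᵢ[ℝ] G) := fun p ω => rfl
  -- the permutation extending left multiplication by g
  let pr : Ω → Prop := fun ω => (ω : G ≃ₗᵢ[ℝ] G) ∈ B M
  let qr : Ω → Prop := fun ω => g⁻¹ * (ω : G ≃ₗᵢ[ℝ] G) ∈ B M
  let e : {ω : Ω // pr ω} ≃ {ω : Ω // qr ω} :=
    { toFun := fun ω => ⟨⟨g * (ω.1 : G ≃ₗᵢ[ℝ] G), gmul_mem_ball P g M ω.2⟩, by
        show g⁻¹ * (g * (ω.1 : G ≃ₗᵢ[ℝ] G)) ∈ B M
        rw [inv_mul_cancel_left]; exact ω.2⟩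
      invFun := fun ω => ⟨⟨g⁻¹ * (ω.1 : G ≃ₗᵢ[ℝ] G), ball_mono P g (Nat.le_succ M) ω.2⟩, ω.2⟩
      left_inv := fun ω => Subtype.ext (Subtype.ext (inv_mul_cancel_left _ _))
      right_inv := fun ω => Subtype.ext (Subtype.ext (mul_inv_cancel_left _ _)) }
  let κ : Equiv.Perm Ω := e.extendSubtype
  have hκ : ∀ ω : Ω, pr ω → ((κ ω : Ω) : G ≃ₗᵢ[ℝ] G) = g * (ω : G ≃ₗᵢ[ℝ] G) := by
    intro ω hω
    have h1 : κ ω = e ⟨ω, hω⟩ := e.extendSubtype_apply_of_mem ω hω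
    rw [h1]
    rfl
  -- finite dimensional spaces
  have hPfin : Fintype P := hP.fintype
  let s' : Finset G := (s ∪ s.image (fun x => g x)) ∪
    (Finset.univ : Finset P).biUnion fun p => s.image (fun x => (p : G ≃ₗᵢ[ℝ] G) x)
  let F' : Submodule ℝ G := Submodule.span ℝ (s' : Set G)
  have hs1 : ∀ x ∈ s, x ∈ F' := fun x hx => Submodule.subset_span (by
    simp only [s', Finset.coe_union]
    exact Or.inl (Or.inl hx))
  have hs2 : ∀ x ∈ s, g x ∈ F' := fun x hx => Submodule.subset_span (by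
    simp only [s', Finset.coe_union]
    exact Or.inl (Or.inr (Finset.mem_coe.2 (Finset.mem_image_of_mem _ hx))))
  have hs3 : ∀ x ∈ s, ∀ p ∈ P, p x ∈ F' := fun x hx p hp => Submodule.subset_span (by
    simp only [s', Finset.coe_union]
    refine Or.inr (Finset.mem_coe.2 ?_)
    rw [Finset.mem_biUnion]
    exact ⟨⟨p, hp⟩, Finset.mem_univ _, Finset.mem_image_of_mem _ hx⟩)
  have hF'fin : FiniteDimensional ℝ F' := FiniteDimensional.span_finset ℝ s'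
  let F'' : Submodule ℝ G := ⨆ ω : Ω,
    F'.map (((ω : G ≃ₗᵢ[ℝ] G)⁻¹ : G ≃ₗᵢ[ℝ] G).toLinearEquiv : G →ₗ[ℝ] G)
  have hF''fin : FiniteDimensional ℝ F'' := by
    simp only [F'']
    infer_instance
  have hF'' : ∀ (ω : Ω) (x : G), x ∈ F' → ((ω : G ≃ₗᵢ[ℝ] G)⁻¹ : G ≃ₗᵢ[ℝ] G) x ∈ F'' := by
    intro ω x hx
    exact (le_iSup (fun ω : Ω =>
      F'.map (((ω : G ≃ₗᵢ[ℝ] G)⁻¹ : G ≃ₗᵢ[ℝ] G).toLinearEquiv : G →ₗ[ℝ] G)) ω)
      (Submodule.mem_map_of_mem hx)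
  -- the embedding
  let E : F' →ₗ[ℝ] (Ω → F'') :=
    { toFun := fun v ω => ⟨w ω • ((ω : G ≃ₗᵢ[ℝ] G)⁻¹ : G ≃ₗᵢ[ℝ] G) (v : G),
        F''.smul_mem _ (hF'' ω v v.2)⟩
      map_add' := by
        intro a b
        funext ω
        apply Subtype.ext
        simp
      map_smul' := by
        intro c a
        funext ω
        apply Subtype.ext
        simp [smul_comm c] }
  have hE : ∀ v ω, ((E v ω : F'') : G) = w ω • ((ω : G ≃ₗᵢ[ℝ] G)⁻¹ : G ≃ₗᵢ[ℝ] G) (v : G) :=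
    fun v ω => rfl
  have hEN : ∀ v, ‖E v‖ = ‖v‖ := by
    intro v
    apply le_antisymm
    · rw [pi_norm_le_iff_of_nonneg (norm_nonneg _)]
      intro ω
      have h1 : ‖E v ω‖ = ‖w ω • ((ω : G ≃ₗᵢ[ℝ] G)⁻¹ : G ≃ₗᵢ[ℝ] G) (v : G)‖ := rfl
      rw [h1, norm_smul, LinearIsometryEquiv.norm_map, Real.norm_eq_abs,
        abs_of_nonneg (wt_nonneg P g _ _)]
      calc w ω * ‖(v : G)‖ ≤ 1 * ‖(v : G)‖ :=
            mul_le_mul_of_nonneg_right (wt_le_one P g (Nat.succ_pos M) _) (norm_nonneg _)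
        _ = ‖v‖ := by rw [one_mul]; rfl
    · let ω1 : Ω := ⟨1, ball_mono P g (Nat.zero_le _) P.one_mem⟩
      have h1 : ‖E v ω1‖ = ‖v‖ := by
        have h2 : ‖E v ω1‖ = ‖w ω1 • ((ω1 : G ≃ₗᵢ[ℝ] G)⁻¹ : G ≃ₗᵢ[ℝ] G) (v : G)‖ := rfl
        have h3 : w (ω1 : G ≃ₗᵢ[ℝ] G) = 1 := wt_one P g (Nat.succ_pos M)
        rw [h2, h3, one_smul, LinearIsometryEquiv.norm_map]
        rfl
      rw [← h1]
      exact norm_le_pi_norm (E v) ω1
  let σ : Equiv.Perm Ω → (Ω → F'') →ₗ[ℝ] (Ω → F'') := fun k =>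
    LinearMap.funLeft ℝ F'' (fun ω => k⁻¹ ω)
  have hσ : ∀ k v ω, σ k v ω = v (k⁻¹ ω) := fun k v ω => rfl
  have hσN : ∀ k v, ‖σ k v‖ = ‖v‖ := by
    intro k v
    have key : ∀ k v, ‖σ k v‖ ≤ ‖v‖ := by
      intro k v
      rw [pi_norm_le_iff_of_nonneg (norm_nonneg _)]
      intro ω
      exact norm_le_pi_norm v _
    apply le_antisymm (key k v)
    have h1 := key k⁻¹ (σ k v)
    have h2 : σ k⁻¹ (σ k v) = v := by
      funext ω
      rw [hσ, hσ]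
      simp
    rwa [h2] at h1
  obtain ⟨S, J, hSδ, hJE, hJmem, hJact, hJle⟩ := exists_stage hG (K := Equiv.Perm Ω)
    (fun f : Ω → F'' => ‖f‖) (fun x y => norm_add_le x y)
    (fun c x => by rw [norm_smul, Real.norm_eq_abs]) (fun x hx => norm_eq_zero.1 hx) σ
    (fun x => by funext ω; rw [hσ]; simp)
    (fun k l x => by funext ω; rw [hσ, hσ, hσ]; simp [mul_inv_rev])
    hσN F' E hEN hδpos hδ1
  obtain ⟨π, hπ⟩ := exactify hG S
  have hSA : ∀ x ∈ F', x ∈ S.A := by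
    intro x hx
    have h1 := hJmem (E ⟨x, hx⟩)
    rwa [hJE ⟨x, hx⟩] at h1
  let f : (G ≃ₗᵢ[ℝ] G) → (G ≃ₗᵢ[ℝ] G) := fun p => if h : p ∈ P then π (ι ⟨p, h⟩) else 1
  have hf : ∀ p (h : p ∈ P), f p = π (ι ⟨p, h⟩) := fun p h => dif_pos h
  refine ⟨π.range, f, ?_, ?_, ?_, ?_, ?_⟩
  · have : ((π.range : Subgroup _) : Set (G ≃ₗᵢ[ℝ] G)) = range π := MonoidHom.coe_range π
    rw [this]
    exact Set.finite_range π
  · intro p hp
    rw [hf p hp]
    exact ⟨_, rfl⟩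
  · intro p hp q hq
    rw [hf p hp, hf q hq, hf _ (P.mul_mem hp hq), ← map_mul, ← map_mul]
    rfl
  · intro p hp x hx
    rw [hf p hp]
    have hxF := hs1 x hx
    have hpx := hs3 x hx p hp
    have h1 := hπ (ι ⟨p, hp⟩) x (hSA x hxF)
    have h2 : S.act (ι ⟨p, hp⟩) x = p x := by
      have e1 : σ (ι ⟨p, hp⟩) (E ⟨x, hxF⟩) = E ⟨p x, hpx⟩ := by
        funext ω
        apply Subtype.ext
        rw [hσ, hE, hE, hι]
        have e2 : w ((p : G ≃ₗᵢ[ℝ] G)⁻¹ * (ω : G ≃ₗᵢ[ℝ] G)) = w ω :=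
          wt_mul P g (M + 1) (P.inv_mem hp) _
        rw [e2, mul_inv_rev, inv_inv]
        rfl
      have e3 := hJact (ι ⟨p, hp⟩) (E ⟨x, hxF⟩)
      rw [e1, hJE, hJE] at e3
      exact e3
    rw [h2] at h1
    refine h1.trans ?_
    rw [hSδ]
    have h3 := hxR x hx
    calc 16 * δ * ‖x‖ ≤ 16 * δ * R := by gcongr
      _ ≤ ε := by linarith
  · refine ⟨π κ, ⟨κ, rfl⟩, ?_⟩
    intro x hx
    have hxF := hs1 x hx
    have hgx := hs2 x hx
    have h1 := hπ κ x (hSA x hxF)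
    have h2 : ‖S.act κ x - g x‖ ≤ 2 * (1 / ((M + 1 : ℕ) : ℝ) * ‖x‖) := by
      have e3 := hJact κ (E ⟨x, hxF⟩)
      have e4 := hJE ⟨g x, hgx⟩
      rw [hJE] at e3
      have e5 : S.act κ x - g x = J (σ κ (E ⟨x, hxF⟩) - E ⟨g x, hgx⟩) := by
        rw [map_sub, e4, ← e3]
      rw [e5]
      have e6 : ‖σ κ (E ⟨x, hxF⟩) - E ⟨g x, hgx⟩‖ ≤ 1 / ((M + 1 : ℕ) : ℝ) * ‖x‖ := by
        rw [pi_norm_le_iff_of_nonneg (by positivity)]
        intro ω
        have e7 : ‖(σ κ (E ⟨x, hxF⟩) - E ⟨g x, hgx⟩) ω‖ =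
            ‖w ((κ⁻¹ ω : Ω) : G ≃ₗᵢ[ℝ] G) • (((κ⁻¹ ω : Ω) : G ≃ₗᵢ[ℝ] G)⁻¹ : G ≃ₗᵢ[ℝ] G) x -
              w ω • ((ω : G ≃ₗᵢ[ℝ] G)⁻¹ : G ≃ₗᵢ[ℝ] G) (g x)‖ := rfl
        rw [e7]
        set η : Ω := κ⁻¹ ω with hη
        have hκη : κ η = ω := by rw [hη]; simp
        by_cases hpη : pr η
        · have e8 : (ω : G ≃ₗᵢ[ℝ] G) = g * (η : G ≃ₗᵢ[ℝ] G) := by
            rw [← hκη]; exact hκ η hpη
          have e9 : ((ω : G ≃ₗᵢ[ℝ] G)⁻¹ : G ≃ₗᵢ[ℝ] G) (g x) =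
              ((η : G ≃ₗᵢ[ℝ] G)⁻¹ : G ≃ₗᵢ[ℝ] G) x := by
            have : ((ω : G ≃ₗᵢ[ℝ] G)⁻¹ : G ≃ₗᵢ[ℝ] G) (g x) =
              ((ω : G ≃ₗᵢ[ℝ] G)⁻¹ * g : G ≃ₗᵢ[ℝ] G) x := rfl
            rw [this, e8, mul_inv_rev, inv_mul_cancel_right]
          rw [e9, ← sub_smul, norm_smul, LinearIsometryEquiv.norm_map, Real.norm_eq_abs]
          apply mul_le_mul_of_nonneg_right _ (norm_nonneg _)
          rw [e8, abs_sub_comm]
          exact wt_lip P g (M + 1) _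
        · have e8 : w (η : G ≃ₗᵢ[ℝ] G) = 0 := wt_zero P g M hpη
          have e9 : g⁻¹ * (ω : G ≃ₗᵢ[ℝ] G) ∉ B M := by
            intro hcon
            let η' : Ω := ⟨g⁻¹ * (ω : G ≃ₗᵢ[ℝ] G), ball_mono P g (Nat.le_succ M) hcon⟩
            have h5 : κ η' = ω := by
              apply Subtype.ext
              rw [hκ η' hcon]
              show g * (g⁻¹ * (ω : G ≃ₗᵢ[ℝ] G)) = _
              rw [mul_inv_cancel_left]
            have h6 : η = η' := by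
              apply κ.injective
              rw [hκη, h5]
            apply hpη
            rw [h6]
            exact hcon
          have e10 : w (g⁻¹ * (ω : G ≃ₗᵢ[ℝ] G)) = 0 := wt_zero P g M e9
          have e11 := wt_lip P g (M + 1) (g⁻¹ * (ω : G ≃ₗᵢ[ℝ] G))
          rw [mul_inv_cancel_left] at e11
          have e12 : |w ω| ≤ 1 / ((M + 1 : ℕ) : ℝ) := by
            have : w ω = wt P g (M + 1) ω - wt P g (M + 1) (g⁻¹ * (ω : G ≃ₗᵢ[ℝ] G)) := by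
              have h7 : wt P g (M + 1) (g⁻¹ * (ω : G ≃ₗᵢ[ℝ] G)) = 0 := e10
              rw [h7, sub_zero]
            rw [this]
            exact e11
          rw [e8, zero_smul, zero_sub, norm_neg, norm_smul, LinearIsometryEquiv.norm_map,
            LinearIsometryEquiv.norm_map, Real.norm_eq_abs]
          exact mul_le_mul_of_nonneg_right e12 (norm_nonneg _)
      refine (hJle _).trans ?_
      calc (1 + δ) * ‖σ κ (E ⟨x, hxF⟩) - E ⟨g x, hgx⟩‖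
          ≤ 2 * ‖σ κ (E ⟨x, hxF⟩) - E ⟨g x, hgx⟩‖ :=
            mul_le_mul_of_nonneg_right (by linarith) (norm_nonneg _)
        _ ≤ _ := by linarith
    have h3 := hxR x hx
    rw [hSδ] at h1
    have h4 : 16 * δ * ‖x‖ ≤ 16 * δ * R := by gcongr
    have h5 : 2 * (1 / ((M + 1 : ℕ) : ℝ) * ‖x‖) ≤ 2 * (1 / ((M + 1 : ℕ) : ℝ) * R) := by
      gcongr
    calc ‖π κ x - g x‖ = ‖(π κ x - S.act κ x) + (S.act κ x - g x)‖ := by
          rw [sub_add_sub_cancel]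
      _ ≤ ‖π κ x - S.act κ x‖ + ‖S.act κ x - g x‖ := norm_add_le _ _
      _ ≤ ε := by linarith

end Pool.Agent.H305R3.Gurarij
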