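import Mathlib
import Pool.Agent.H305R3.GurD

set_option autoImplicit false

open Set Filter Topology

namespace Pool.Agent.H305R3.Gurarij

section
variable {G : Type} [NormedAddCommGroup G] [NormedSpace ℝ G]

/-- a sequence of isometries that is dense for pointwise convergence -/
theorem denseIso [TopologicalSpace.SeparableSpace G] (x : ℕ → G) :
    ∃ g : ℕ → (G ≃ₗᵢ[ℝ] G), ∀ (h : G ≃ₗᵢ[ℝ] G) (n : ℕ) (ε : ℝ), 0 < ε →
      ∃ j, ∀ i ≤ n, ‖g j (x i) - h (x i)‖ < ε := by
  have : SecondCountableTopology G := UniformSpace.secondCountable_of_separable G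
  let Φ : (G ≃ₗᵢ[ℝ] G) → (ℕ → G) := fun h i => h (x i)
  have hne : Nonempty (range Φ) := ⟨⟨Φ 1, mem_range_self _⟩⟩
  obtain ⟨u, hu⟩ := TopologicalSpace.exists_dense_seq (range Φ)
  choose g hg using fun j => (u j).2
  refine ⟨g, ?_⟩
  intro h n ε hε
  have hopen : IsOpen {y : range Φ | ∀ i ∈ Finset.range (n + 1), ‖y.1 i - h (x i)‖ < ε} := by
    have h1 : {y : range Φ | ∀ i ∈ Finset.range (n + 1), ‖y.1 i - h (x i)‖ < ε} =
        ⋂ i ∈ Finset.range (n + 1), {y : range Φ | ‖y.1 i - h (x i)‖ < ε} := by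
      ext y
      simp
    rw [h1]
    apply isOpen_biInter_finset
    intro i _
    apply isOpen_lt _ continuous_const
    have h2 : Continuous fun y : range Φ => y.1 i := (continuous_apply i).comp continuous_subtype_val
    exact (h2.sub continuous_const).norm
  obtain ⟨j, hj⟩ := hu.exists_mem_open hopen ⟨⟨Φ h, mem_range_self _⟩, by
    intro i _
    simp [Φ, hε]⟩
  refine ⟨j, fun i hi => ?_⟩
  have h3 := hj i (Finset.mem_range.2 (Nat.lt_succ_of_le hi))
  rw [← hg j] at h3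
  exact h3

/-- pointwise limits of isometries -/
theorem exists_limit [CompleteSpace G] (u : ℕ → (G ≃ₗᵢ[ℝ] G))
    (h1 : ∀ y, CauchySeq fun j => u j y) (h2 : ∀ y, CauchySeq fun j => (u j)⁻¹ y) :
    ∃ U : G ≃ₗᵢ[ℝ] G, ∀ y, Tendsto (fun j => u j y) atTop (𝓝 (U y)) := by
  choose a ha using fun y => cauchySeq_tendsto_of_complete (h1 y)
  choose b hb using fun y => cauchySeq_tendsto_of_complete (h2 y)
  have hab : ∀ y, a (b y) = y := by
    intro y
    have e1 : Tendsto (fun j => u j (b y) - y) atTop (𝓝 (a (b y) - y)) := (ha (b y)).sub_const y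
    have e2 : Tendsto (fun j => u j (b y) - y) atTop (𝓝 0) := by
      rw [tendsto_zero_iff_norm_tendsto_zero]
      have e3 : Tendsto (fun j => ‖(u j)⁻¹ y - b y‖) atTop (𝓝 0) := by
        rw [← tendsto_iff_norm_sub_tendsto_zero]
        exact hb y
      refine e3.congr fun j => ?_
      have e4 : y = u j ((u j)⁻¹ y) := by
        have : (u j * (u j)⁻¹ : G ≃ₗᵢ[ℝ] G) y = y := by rw [mul_inv_cancel]; rfl
        exact this.symm
      calc ‖(u j)⁻¹ y - b y‖ = ‖b y - (u j)⁻¹ y‖ := norm_sub_rev _ _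
        _ = ‖u j (b y - (u j)⁻¹ y)‖ := ((u j).norm_map _).symm
        _ = ‖u j (b y) - y‖ := by rw [map_sub, ← e4]
    exact sub_eq_zero.1 (tendsto_nhds_unique e1 e2)
  have hba : ∀ y, b (a y) = y := by
    intro y
    have e1 : Tendsto (fun j => (u j)⁻¹ (a y) - y) atTop (𝓝 (b (a y) - y)) :=
      (hb (a y)).sub_const y
    have e2 : Tendsto (fun j => (u j)⁻¹ (a y) - y) atTop (𝓝 0) := by
      rw [tendsto_zero_iff_norm_tendsto_zero]
      have e3 : Tendsto (fun j => ‖u j y - a y‖) atTop (𝓝 0) := by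
        rw [← tendsto_iff_norm_sub_tendsto_zero]
        exact ha y
      refine e3.congr fun j => ?_
      have e4 : (u j)⁻¹ (u j y) = y := by
        have : ((u j)⁻¹ * u j : G ≃ₗᵢ[ℝ] G) y = y := by rw [inv_mul_cancel]; rfl
        exact this
      calc ‖u j y - a y‖ = ‖a y - u j y‖ := norm_sub_rev _ _
        _ = ‖(u j)⁻¹ (a y - u j y)‖ := (((u j)⁻¹ : G ≃ₗᵢ[ℝ] G).norm_map _).symm
        _ = ‖(u j)⁻¹ (a y) - y‖ := by rw [map_sub, e4]
    exact sub_eq_zero.1 (tendsto_nhds_unique e1 e2)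
  let U : G ≃ₗᵢ[ℝ] G :=
    { toFun := a
      invFun := b
      left_inv := hba
      right_inv := hab
      map_add' := by
        intro y z
        refine tendsto_nhds_unique (ha (y + z)) (((ha y).add (ha z)).congr fun j => ?_)
        rw [map_add]
      map_smul' := by
        intro c y
        refine tendsto_nhds_unique (ha (c • y)) (((ha y).const_smul c).congr fun j => ?_)
        rw [map_smul]
      norm_map' := by
        intro y
        refine tendsto_nhds_unique ((ha y).norm) ?_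
        have : (fun j => ‖u j y‖) = fun _ => ‖y‖ := by
          funext j
          exact (u j).norm_map y
        rw [this]
        exact tendsto_const_nhds }
  exact ⟨U, ha⟩

theorem cauchy_of_dense {x : ℕ → G} (hx : DenseRange x) (u : ℕ → (G ≃ₗᵢ[ℝ] G))
    (h : ∀ i, CauchySeq fun j => u j (x i)) (y : G) : CauchySeq fun j => u j y := by
  rw [Metric.cauchySeq_iff]
  intro ε hε
  obtain ⟨i, hi⟩ := hx.exists_dist_lt y (show 0 < ε / 3 by linarith)
  obtain ⟨N, hN⟩ := Metric.cauchySeq_iff.1 (h i) (ε / 3) (by linarith)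
  refine ⟨N, fun m hm n hn => ?_⟩
  have h1 := hN m hm n hn
  have h2 : dist (u m y) (u m (x i)) = dist y (x i) := (u m).dist_map _ _
  have h3 : dist (u n (x i)) (u n y) = dist y (x i) := by
    rw [dist_comm]; exact (u n).dist_map _ _
  have h4 := dist_triangle4 (u m y) (u m (x i)) (u n (x i)) (u n y)
  linarith

end

/-- The main theorem. -/
theorem main {G : Type} [NormedAddCommGroup G] [NormedSpace ℝ G] [CompleteSpace G]
    [TopologicalSpace.SeparableSpace G] (hG : Gur G) :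
    ∃ H : Subgroup (G ≃ₗᵢ[ℝ] G),
      (∀ s : Finset (G ≃ₗᵢ[ℝ] G),
          (↑s : Set (G ≃ₗᵢ[ℝ] G)) ⊆ (H : Set (G ≃ₗᵢ[ℝ] G)) →
          ((Subgroup.closure (↑s : Set (G ≃ₗᵢ[ℝ] G)) : Subgroup (G ≃ₗᵢ[ℝ] G)) :
            Set (G ≃ₗᵢ[ℝ] G)).Finite) ∧
      (∀ g : G ≃ₗᵢ[ℝ] G, ∀ s : Finset G, ∀ ε : ℝ, 0 < ε →
          ∃ h ∈ H, ∀ x ∈ s, ‖h x - g x‖ < ε) := by
  classical
  let x : ℕ → G := TopologicalSpace.denseSeq G
  have hx : DenseRange x := TopologicalSpace.denseRange_denseSeq G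
  obtain ⟨g, hg⟩ := denseIso (G := G) x
  let sn : ℕ → Finset G := fun n => (Finset.range (n + 1)).image x
  have hsn : ∀ n i, i ≤ n → x i ∈ sn n := fun n i hi =>
    Finset.mem_image_of_mem _ (Finset.mem_range.2 (Nat.lt_succ_of_le hi))
  have hstep : ∀ (n : ℕ) (P : {P : Subgroup (G ≃ₗᵢ[ℝ] G) // (P : Set (G ≃ₗᵢ[ℝ] G)).Finite}),
      ∃ (P' : {P : Subgroup (G ≃ₗᵢ[ℝ] G) // (P : Set (G ≃ₗᵢ[ℝ] G)).Finite})
        (f : (G ≃ₗᵢ[ℝ] G) → (G ≃ₗᵢ[ℝ] G)),
      (∀ p ∈ P.1, f p ∈ P'.1) ∧ (∀ p ∈ P.1, ∀ q ∈ P.1, f (p * q) = f p * f q) ∧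
      (∀ p ∈ P.1, ∀ y ∈ sn n, ‖f p y - p y‖ ≤ (1 / 2) ^ n) ∧
      ∃ k ∈ P'.1, ∀ y ∈ sn n, ‖k y - g n.unpair.1 y‖ ≤ (1 / 2) ^ n := by
    intro n P
    obtain ⟨P', f, h1, h2, h3, h4, h5⟩ := approx hG P.1 P.2 (g n.unpair.1) (sn n)
      (show (0:ℝ) < (1 / 2) ^ n by positivity)
    exact ⟨⟨P', h1⟩, f, h2, h3, h4, h5⟩
  choose nxt f hf1 hf2 hf3 hf4 using hstep
  let P : ℕ → {P : Subgroup (G ≃ₗᵢ[ℝ] G) // (P : Set (G ≃ₗᵢ[ℝ] G)).Finite} := fun n =>
    Nat.rec ⟨⊥, by simp⟩ (fun n Q => nxt n Q) n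
  have hPs : ∀ n, P (n + 1) = nxt n (P n) := fun n => rfl
  let F : ℕ → (G ≃ₗᵢ[ℝ] G) → (G ≃ₗᵢ[ℝ] G) := fun n => f n (P n)
  have hF1 : ∀ n, ∀ p ∈ (P n).1, F n p ∈ (P (n + 1)).1 := fun n p hp => hf1 n (P n) p hp
  have hF2 : ∀ n, ∀ p ∈ (P n).1, ∀ q ∈ (P n).1, F n (p * q) = F n p * F n q :=
    fun n p hp q hq => hf2 n (P n) p hp q hq
  have hF3 : ∀ n, ∀ p ∈ (P n).1, ∀ i ≤ n, ‖F n p (x i) - p (x i)‖ ≤ (1 / 2) ^ n :=
    fun n p hp i hi => hf3 n (P n) p hp (x i) (hsn n i hi)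
  have hF4 : ∀ n, ∃ k ∈ (P (n + 1)).1, ∀ i ≤ n,
      ‖k (x i) - g n.unpair.1 (x i)‖ ≤ (1 / 2) ^ n := by
    intro n
    obtain ⟨k, hk, hk2⟩ := hf4 n (P n)
    exact ⟨k, hk, fun i hi => hk2 (x i) (hsn n i hi)⟩
  -- transition maps
  let tr : ℕ → ℕ → (G ≃ₗᵢ[ℝ] G) → (G ≃ₗᵢ[ℝ] G) := fun n j p =>
    Nat.rec p (fun j q => F (n + j) q) j
  have htr0 : ∀ n p, tr n 0 p = p := fun n p => rfl
  have htrs : ∀ n j p, tr n (j + 1) p = F (n + j) (tr n j p) := fun n j p => rfl
  have htrmem : ∀ n j p, p ∈ (P n).1 → tr n j p ∈ (P (n + j)).1 := by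
    intro n j p hp
    induction j with
    | zero => exact hp
    | succ j ih => rw [htrs]; exact hF1 _ _ ih
  have htrmul : ∀ n j p q, p ∈ (P n).1 → q ∈ (P n).1 →
      tr n j (p * q) = tr n j p * tr n j q := by
    intro n j p q hp hq
    induction j with
    | zero => rfl
    | succ j ih => rw [htrs, htrs, htrs, ih, hF2 _ _ (htrmem n j p hp) _ (htrmem n j q hq)]
  have htrone : ∀ n j, tr n j 1 = 1 := by
    intro n j
    have h := htrmul n j 1 1 (P n).1.one_mem (P n).1.one_mem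
    rw [mul_one] at h
    exact (left_eq_mul.1 h)
  have htrinv : ∀ n j p, p ∈ (P n).1 → tr n j p⁻¹ = (tr n j p)⁻¹ := by
    intro n j p hp
    have h := htrmul n j p⁻¹ p ((P n).1.inv_mem hp) hp
    rw [inv_mul_cancel, htrone] at h
    exact (eq_inv_of_mul_eq_one_left h.symm)
  have htradd : ∀ n i j p, tr (n + i) j (tr n i p) = tr n (i + j) p := by
    intro n i j p
    induction j with
    | zero => rfl
    | succ j ih =>
      rw [htrs, ih, ← Nat.add_assoc, htrs, Nat.add_assoc]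
  have htrest : ∀ n j p, p ∈ (P n).1 → ∀ i ≤ n + j,
      ‖tr n (j + 1) p (x i) - tr n j p (x i)‖ ≤ (1 / 2) ^ (n + j) := by
    intro n j p hp i hi
    rw [htrs]
    exact hF3 _ _ (htrmem n j p hp) i hi
  have hcau : ∀ n p, p ∈ (P n).1 → ∀ i, CauchySeq fun j => tr n j p (x i) := by
    intro n p hp i
    -- shift by i to be in the good range
    have h1 : CauchySeq fun j => tr n (j + i) p (x i) := by
      apply cauchySeq_of_le_geometric (1 / 2) 1 (by norm_num)
      intro j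
      rw [dist_eq_norm, norm_sub_rev, one_mul]
      have h2 := htrest n (j + i) p hp i (by omega)
      have h3 : j + i + 1 = j + 1 + i := by omega
      rw [h3] at h2
      refine h2.trans ?_
      apply pow_le_pow_of_le_one (by norm_num) (by norm_num)
      omega
    exact (cauchySeq_shift i).1 h1
  have hcau2 : ∀ n p, p ∈ (P n).1 → ∀ y, CauchySeq fun j => tr n j p y := by
    intro n p hp y
    exact cauchy_of_dense hx (fun j => tr n j p) (hcau n p hp) y
  have hlim : ∀ n p, p ∈ (P n).1 → ∃ U : G ≃ₗᵢ[ℝ] G, ∀ y,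
      Tendsto (fun j => tr n j p y) atTop (𝓝 (U y)) := by
    intro n p hp
    apply exists_limit (fun j => tr n j p) (hcau2 n p hp)
    intro y
    have h1 := hcau2 n p⁻¹ ((P n).1.inv_mem hp) y
    have h2 : (fun j => tr n j p⁻¹ y) = fun j => (tr n j p)⁻¹ y := by
      funext j
      rw [htrinv n j p hp]
    rw [h2] at h1
    exact h1
  let L : ℕ → (G ≃ₗᵢ[ℝ] G) → (G ≃ₗᵢ[ℝ] G) → Prop := fun n p U =>
    ∀ y, Tendsto (fun j => tr n j p y) atTop (𝓝 (U y))
  have hLshift : ∀ n i p U, L n p U → L (n + i) (tr n i p) U := by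
    intro n i p U h y
    have h1 := (h y).comp (tendsto_add_atTop_nat i)
    refine h1.congr fun j => ?_
    simp only [Function.comp]
    rw [htradd, Nat.add_comm j i]
  have hLmul : ∀ n p q U V, p ∈ (P n).1 → q ∈ (P n).1 → L n p U → L n q V →
      L n (p * q) (U * V) := by
    intro n p q U V hp hq hU hV y
    have e1 : ∀ j, tr n j (p * q) y = tr n j p (tr n j q y) := by
      intro j
      rw [htrmul n j p q hp hq]
      rfl
    simp only [e1]
    rw [tendsto_iff_norm_sub_tendsto_zero]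
    have e2 : Tendsto (fun j => ‖tr n j q y - V y‖ + ‖tr n j p (V y) - U (V y)‖) atTop (𝓝 0) := by
      have h1 := (tendsto_iff_norm_sub_tendsto_zero.1 (hV y)).add
        (tendsto_iff_norm_sub_tendsto_zero.1 (hU (V y)))
      simpa using h1
    refine squeeze_zero (fun j => norm_nonneg _) (fun j => ?_) e2
    have e3 : (U * V) y = U (V y) := rfl
    rw [e3]
    calc ‖tr n j p (tr n j q y) - U (V y)‖
        = ‖(tr n j p (tr n j q y) - tr n j p (V y)) + (tr n j p (V y) - U (V y))‖ := by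
          rw [sub_add_sub_cancel]
      _ ≤ ‖tr n j p (tr n j q y) - tr n j p (V y)‖ + ‖tr n j p (V y) - U (V y)‖ :=
          norm_add_le _ _
      _ = _ := by rw [← map_sub, LinearIsometryEquiv.norm_map]
  have hLinv : ∀ n p U, p ∈ (P n).1 → L n p U → L n p⁻¹ U⁻¹ := by
    intro n p U hp hU y
    have e1 : ∀ j, tr n j p⁻¹ y = (tr n j p)⁻¹ y := fun j => by rw [htrinv n j p hp]
    simp only [e1]
    rw [tendsto_iff_norm_sub_tendsto_zero]
    have e2 := tendsto_iff_norm_sub_tendsto_zero.1 (hU (U⁻¹ y))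
    refine e2.congr fun j => ?_
    have e3 : U (U⁻¹ y) = y := by
      have : (U * U⁻¹ : G ≃ₗᵢ[ℝ] G) y = y := by rw [mul_inv_cancel]; rfl
      exact this
    have e4 : tr n j p ((tr n j p)⁻¹ y) = y := by
      have : (tr n j p * (tr n j p)⁻¹ : G ≃ₗᵢ[ℝ] G) y = y := by rw [mul_inv_cancel]; rfl
      exact this
    rw [e3]
    calc ‖tr n j p (U⁻¹ y) - y‖ = ‖tr n j p (U⁻¹ y) - tr n j p ((tr n j p)⁻¹ y)‖ := by rw [e4]
      _ = ‖U⁻¹ y - (tr n j p)⁻¹ y‖ := by rw [← map_sub, LinearIsometryEquiv.norm_map]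
      _ = _ := norm_sub_rev _ _
  have hLone : ∀ n, L n 1 1 := by
    intro n y
    have : (fun j => tr n j 1 y) = fun _ => y := by
      funext j
      rw [htrone]
      rfl
    rw [this]
    exact tendsto_const_nhds
  let DN : ℕ → Subgroup (G ≃ₗᵢ[ℝ] G) := fun n =>
    { carrier := {U | ∃ p ∈ (P n).1, L n p U}
      mul_mem' := by
        rintro U V ⟨p, hp, hU⟩ ⟨q, hq, hV⟩
        exact ⟨p * q, (P n).1.mul_mem hp hq, hLmul n p q U V hp hq hU hV⟩
      one_mem' := ⟨1, (P n).1.one_mem, hLone n⟩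
      inv_mem' := by
        rintro U ⟨p, hp, hU⟩
        exact ⟨p⁻¹, (P n).1.inv_mem hp, hLinv n p U hp hU⟩ }
  have hDNmem : ∀ n U, U ∈ DN n ↔ ∃ p ∈ (P n).1, L n p U := fun n U => Iff.rfl
  have hDNmono : Monotone DN := by
    apply monotone_nat_of_le_succ
    intro n U hU
    obtain ⟨p, hp, hU⟩ := hU
    exact ⟨tr n 1 p, htrmem n 1 p hp, hLshift n 1 p U hU⟩
  have hDNfin : ∀ n, (DN n : Set (G ≃ₗᵢ[ℝ] G)).Finite := by
    intro n
    let lm : (G ≃ₗᵢ[ℝ] G) → (G ≃ₗᵢ[ℝ] G) := fun p => if h : ∃ U, L n p U then h.choose else 1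
    refine ((P n).2.image lm).subset ?_
    rintro U ⟨p, hp, hU⟩
    refine ⟨p, hp, ?_⟩
    have hex : ∃ U, L n p U := ⟨U, hU⟩
    have h1 : lm p = hex.choose := dif_pos hex
    rw [h1]
    ext y
    exact tendsto_nhds_unique (hex.choose_spec y) (hU y)
  have hDmem : ∀ U, U ∈ (⨆ n, DN n) ↔ ∃ n, U ∈ DN n := fun U =>
    Subgroup.mem_iSup_of_directed hDNmono.directed_le
  refine ⟨⨆ n, DN n, ?_, ?_⟩
  · intro s hs
    have h1 : ∃ N, ∀ U ∈ s, U ∈ DN N := by
      have h2 : ∀ U : (G ≃ₗᵢ[ℝ] G), ∃ n, U ∈ s → U ∈ DN n := by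
        intro U
        by_cases hU : U ∈ s
        · obtain ⟨n, hn⟩ := (hDmem U).1 (hs hU)
          exact ⟨n, fun _ => hn⟩
        · exact ⟨0, fun h => absurd h hU⟩
      choose nU hnU using h2
      refine ⟨s.sup nU, fun U hU => ?_⟩
      exact hDNmono (Finset.le_sup (f := nU) hU) (hnU U hU)
    obtain ⟨N, hN⟩ := h1
    refine (hDNfin N).subset ?_
    have h3 : Subgroup.closure (s : Set (G ≃ₗᵢ[ℝ] G)) ≤ DN N := by
      rw [Subgroup.closure_le]
      intro U hU
      exact hN U hU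
    exact h3
  · intro h s ε hε
    -- indices approximating the elements of s
    have h1 : ∀ y : G, ∃ i, ‖x i - y‖ < ε / 8 := by
      intro y
      obtain ⟨i, hi⟩ := hx.exists_dist_lt y (show 0 < ε / 8 by linarith)
      exact ⟨i, by rwa [dist_comm, dist_eq_norm] at hi⟩
    choose iy hiy using h1
    set m := s.sup iy with hm
    obtain ⟨j, hj⟩ := hg h m (ε / 8) (by linarith)
    obtain ⟨M, hM⟩ := exists_pow_lt_of_lt_one (show 0 < ε / 8 by linarith)
      (show (1 / 2 : ℝ) < 1 by norm_num)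
    set n := Nat.pair j (max m M) with hn
    have hn1 : n.unpair.1 = j := by rw [hn, Nat.unpair_pair]
    have hnm : max m M ≤ n := Nat.right_le_pair j _
    have hεn : (1 / 2 : ℝ) ^ n < ε / 8 := by
      refine lt_of_le_of_lt ?_ hM
      exact pow_le_pow_of_le_one (by norm_num) (by norm_num) (le_trans (le_max_right _ _) hnm)
    obtain ⟨k, hk, hk2⟩ := hF4 n
    rw [hn1] at hk2
    obtain ⟨U, hU⟩ := hlim (n + 1) k hk
    refine ⟨U, (hDmem U).2 ⟨n + 1, k, hk, hU⟩, ?_⟩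
    intro y hy
    have hi : iy y ≤ m := Finset.le_sup (f := iy) hy
    have hin : iy y ≤ n := hi.trans ((le_max_left _ _).trans hnm)
    -- limit versus k
    have hUk : ‖U (x (iy y)) - k (x (iy y))‖ ≤ (1 / 2) ^ n := by
      have hpart : ∀ l, ‖tr (n + 1) l k (x (iy y)) - k (x (iy y))‖ ≤
          (1 / 2) ^ n - (1 / 2) ^ (n + l) := by
        intro l
        induction l with
        | zero => simp [htr0]
        | succ l ih =>
          have h2 := htrest (n + 1) l k hk (iy y) (by omega)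
          have h3 : ((1:ℝ) / 2) ^ (n + 1 + l) = (1 / 2) ^ (n + l) - (1 / 2) ^ (n + (l + 1)) := by
            have e1 : n + 1 + l = (n + l) + 1 := by omega
            have e2 : n + (l + 1) = (n + l) + 1 := by omega
            rw [e1, e2, pow_succ]
            ring
          rw [h3] at h2
          calc ‖tr (n + 1) (l + 1) k (x (iy y)) - k (x (iy y))‖
              = ‖(tr (n + 1) (l + 1) k (x (iy y)) - tr (n + 1) l k (x (iy y))) +
                (tr (n + 1) l k (x (iy y)) - k (x (iy y)))‖ := by rw [sub_add_sub_cancel]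
            _ ≤ _ := norm_add_le _ _
            _ ≤ _ := by linarith
      have h4 : Tendsto (fun l => ‖tr (n + 1) l k (x (iy y)) - k (x (iy y))‖) atTop
          (𝓝 ‖U (x (iy y)) - k (x (iy y))‖) := ((hU (x (iy y))).sub_const _).norm
      refine le_of_tendsto h4 (Eventually.of_forall fun l => (hpart l).trans ?_)
      have : (0:ℝ) ≤ (1 / 2) ^ (n + l) := by positivity
      linarith
    have hkg := hk2 (iy y) hin
    have hgh := hj (iy y) hi
    have hUy : ‖U y - U (x (iy y))‖ < ε / 8 := by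
      rw [← map_sub, LinearIsometryEquiv.norm_map, norm_sub_rev]
      exact hiy y
    have hhy : ‖h (x (iy y)) - h y‖ < ε / 8 := by
      rw [← map_sub, LinearIsometryEquiv.norm_map]
      exact hiy y
    have e : U y - h y = (U y - U (x (iy y))) + (U (x (iy y)) - k (x (iy y))) +
        (k (x (iy y)) - g j (x (iy y))) + (g j (x (iy y)) - h (x (iy y))) +
        (h (x (iy y)) - h y) := by abel
    rw [e]
    calc _ ≤ ‖U y - U (x (iy y))‖ + ‖U (x (iy y)) - k (x (iy y))‖ +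
        ‖k (x (iy y)) - g j (x (iy y))‖ + ‖g j (x (iy y)) - h (x (iy y))‖ +
        ‖h (x (iy y)) - h y‖ := by
          refine (norm_add_le _ _).trans ?_
          gcongr
          refine (norm_add_le _ _).trans ?_
          gcongr
          refine (norm_add_le _ _).trans ?_
          gcongr
          exact norm_add_le _ _
      _ < ε := by linarith

end Pool.Agent.H305R3.Gurarij
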