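import Mathlib

set_option autoImplicit false

open Set Filter Topology Metric

namespace Pool.Agent.H305R3.Interp

/-- the weight -/
noncomputable def rho (z : ℂ) : ℝ := |z.im| + Real.log (1 + ‖z‖ ^ 2)

theorem rho_nonneg (z : ℂ) : 0 ≤ rho z := by
  unfold rho
  have h : 0 ≤ Real.log (1 + ‖z‖ ^ 2) := Real.log_nonneg (by nlinarith [sq_nonneg ‖z‖])
  have := abs_nonneg z.im
  linarith

theorem continuous_rho : Continuous rho := by
  unfold rho
  refine (Complex.continuous_im.abs).add (Continuous.log (by fun_prop) ?_)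
  intro z
  have := sq_nonneg ‖z‖
  positivity

theorem rho_le (z : ℂ) : rho z ≤ 3 * ‖z‖ := by
  unfold rho
  have h1 : |z.im| ≤ ‖z‖ := Complex.abs_im_le_norm z
  have h2 : Real.log (1 + ‖z‖ ^ 2) ≤ 2 * ‖z‖ := by
    have h3 : Real.log (1 + ‖z‖ ^ 2) ≤ Real.log ((1 + ‖z‖) ^ 2) := by
      apply Real.log_le_log (by positivity)
      nlinarith [norm_nonneg z]
    rw [Real.log_pow] at h3
    have h4 : Real.log (1 + ‖z‖) ≤ ‖z‖ := by
      have := Real.log_le_sub_one_of_pos (show 0 < 1 + ‖z‖ by positivity)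
      linarith
    push_cast at h3
    linarith
  linarith

theorem one_add_norm_le (z : ℂ) : 1 + ‖z‖ ≤ 2 * Real.exp (rho z) := by
  have h1 : 1 + ‖z‖ ^ 2 ≤ Real.exp (rho z) := by
    have h2 : Real.log (1 + ‖z‖ ^ 2) ≤ rho z := by
      unfold rho
      have := abs_nonneg z.im
      linarith
    have h3 := Real.exp_le_exp.2 h2
    rwa [Real.exp_log (by positivity)] at h3
  nlinarith [sq_nonneg (‖z‖ - 1), norm_nonneg z]

theorem contDiff_of_entire {f : ℂ → ℂ} (hf : Differentiable ℂ f) (n : WithTop ℕ∞) :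
    ContDiff ℂ n f := hf.contDiff

theorem differentiable_iteratedDeriv {f : ℂ → ℂ} (hf : Differentiable ℂ f) (k : ℕ) :
    Differentiable ℂ (iteratedDeriv k f) := by
  have h : ContDiff ℂ ((k + 1 : ℕ) : WithTop ℕ∞) f := hf.contDiff
  refine h.differentiable_iteratedDeriv k ?_
  exact_mod_cast Nat.lt_succ_self k

/-- Montel for entire functions along an ultrafilter, with all derivatives. -/
theorem montel_entire {ι : Type*} (𝒰 : Ultrafilter ι) (F : ι → ℂ → ℂ) (G : ℂ → ℝ)
    (hG : Continuous G) (hF : ∀ i, Differentiable ℂ (F i)) (hb : ∀ i z, ‖F i z‖ ≤ G z) :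
    ∃ Φ : ℂ → ℂ, Differentiable ℂ Φ ∧ (∀ z, ‖Φ z‖ ≤ G z) ∧
      ∀ (k : ℕ) (z : ℂ),
        Tendsto (fun i => iteratedDeriv k (F i) z) 𝒰 (𝓝 (iteratedDeriv k Φ z)) := by
  have h1 : ∀ z, ∃ v : ℂ, ‖v‖ ≤ G z ∧ Tendsto (fun n => F n z) 𝒰 (𝓝 v) := by
    intro z
    have hcomp := isCompact_closedBall (0 : ℂ) (G z)
    have hle : ((𝒰.map (fun n => F n z) : Ultrafilter ℂ) : Filter ℂ) ≤
        𝓟 (closedBall 0 (G z)) := by
      rw [le_principal_iff, Ultrafilter.coe_map, Filter.mem_map]
      refine Filter.mem_of_superset Filter.univ_mem ?_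
      intro n _
      show F n z ∈ closedBall 0 (G z)
      rw [mem_closedBall_zero_iff]
      exact hb n z
    obtain ⟨v, hv1, hv⟩ := hcomp.ultrafilter_le_nhds _ hle
    exact ⟨v, by simpa using hv1, hv⟩
  choose Φ hΦ1 hΦ using h1
  have hlu : TendstoLocallyUniformlyOn F Φ (𝒰 : Filter ι) univ := by
    rw [Metric.tendstoLocallyUniformlyOn_iff]
    intro ε hε x _
    -- bound on the ball of radius one
    obtain ⟨M, hM⟩ := (isCompact_closedBall x 1).bddAbove_image hG.continuousOn
    have hM' : ∀ i, ∀ z ∈ closedBall x 1, ‖F i z‖ ≤ M := fun i z hz =>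
      (hb i z).trans (hM ⟨z, hz, rfl⟩)
    have hx1 : x ∈ closedBall x (1 : ℝ) := mem_closedBall_self zero_le_one
    have hG0 : 0 ≤ G x := (norm_nonneg _).trans (hΦ1 x)
    have hM0 : 0 ≤ M := hG0.trans (hM ⟨x, hx1, rfl⟩)
    have hc : 0 < (2 * M + 1) / 1 := by positivity
    have h2 : ∀ᶠ y in 𝓝 x, ∀ n, dist (F n y) (F n x) < ε / 4 := by
      have h1 : ∀ᶠ y in 𝓝 x, dist y x < min 1 ((ε / 4) / ((2 * M + 1) / 1)) :=
        Metric.ball_mem_nhds x (by positivity)
      filter_upwards [h1] with y hy n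
      have hy1 : y ∈ ball x 1 := lt_of_lt_of_le hy (min_le_left _ _)
      have hy2 : dist y x < (ε / 4) / ((2 * M + 1) / 1) := lt_of_lt_of_le hy (min_le_right _ _)
      have hmaps : MapsTo (F n) (ball x 1) (ball (F n x) (2 * M + 1)) := by
        intro w hw
        rw [mem_ball, dist_eq_norm]
        calc ‖F n w - F n x‖ ≤ ‖F n w‖ + ‖F n x‖ := norm_sub_le _ _
          _ ≤ M + M := add_le_add (hM' n w (ball_subset_closedBall hw)) (hM' n x hx1)
          _ < 2 * M + 1 := by linarith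
      have h2 := Complex.dist_le_div_mul_dist_of_mapsTo_ball ((hF n).differentiableOn)
        (hmaps.mono_right ball_subset_closedBall) hy1
      refine lt_of_le_of_lt h2 ?_
      rw [lt_div_iff₀ hc] at hy2
      linarith
    refine ⟨{y | ∀ n, dist (F n y) (F n x) < ε / 4}, ?_, ?_⟩
    · exact mem_nhdsWithin_of_mem_nhds h2
    · have h3 : ∀ᶠ n in (𝒰 : Filter ι), dist (F n x) (Φ x) < ε / 4 :=
        (hΦ x) (Metric.ball_mem_nhds _ (by linarith))
      filter_upwards [h3] with n hn y hy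
      have h4 : dist (Φ y) (Φ x) ≤ ε / 4 := by
        refine le_of_tendsto ((hΦ y).dist (hΦ x)) ?_
        exact Eventually.of_forall fun m => (hy m).le
      have h5 := hy n
      calc dist (Φ y) (F n y) ≤ dist (Φ y) (Φ x) + dist (Φ x) (F n x) + dist (F n x) (F n y) :=
            dist_triangle4 _ _ _ _
        _ < ε := by
            rw [dist_comm (Φ x), dist_comm (F n x) (F n y)]
            linarith
  have hΦd : Differentiable ℂ Φ := by
    rw [← differentiableOn_univ]
    exact hlu.differentiableOn (Eventually.of_forall fun i => (hF i).differentiableOn) isOpen_univ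
  refine ⟨Φ, hΦd, hΦ1, ?_⟩
  have key : ∀ k : ℕ, TendstoLocallyUniformlyOn (fun i => iteratedDeriv k (F i))
      (iteratedDeriv k Φ) (𝒰 : Filter ι) univ := by
    intro k
    induction k with
    | zero => simpa using hlu
    | succ k ih =>
      have h := ih.deriv (Eventually.of_forall fun i =>
        (differentiable_iteratedDeriv (hF i) k).differentiableOn) isOpen_univ
      have e1 : (deriv ∘ fun i => iteratedDeriv k (F i)) = fun i => iteratedDeriv (k + 1) (F i) := by
        funext i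
        simp only [Function.comp]
        rw [iteratedDeriv_succ]
      rw [e1, ← iteratedDeriv_succ] at h
      exact h
  intro k z
  exact (key k).tendsto_at (mem_univ z)

/-- Interpolation of unit data with uniform bounds, from universal interpolation (Baire). -/
theorem uniform_interp (a : ℕ → ℂ) (p : ℕ → ℕ)
    (h : ∀ lam : ℕ → ℕ → ℂ,
      (∃ A > (0:ℝ), ∃ B > (0:ℝ), ∀ n, ∀ κ < p n,
        ‖lam n κ‖ ≤ A * Real.exp (B * rho (a n))) →
      ∃ g : ℂ → ℂ, (Differentiable ℂ g ∧
      ∃ A > (0:ℝ), ∃ B > (0:ℝ), ∀ z : ℂ, ‖g z‖ ≤ A * Real.exp (B * rho z)) ∧ ∀ n, ∀ κ < p n,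
        iteratedDeriv κ g (a n) / (κ.factorial : ℂ) = lam n κ) :
    ∃ J : ℕ, ∀ n, ∃ f : ℂ → ℂ, Differentiable ℂ f ∧
      (∀ z, ‖f z‖ ≤ J * Real.exp (J * rho z)) ∧
      ∀ m, ∀ κ < p m, iteratedDeriv κ f (a m) / (κ.factorial : ℂ) =
        if m = n ∧ κ = p m - 1 then 1 else 0 := by
  classical
  -- arrays attached to 0-1 sequences
  let lamS : (ℕ → Bool) → ℕ → ℕ → ℂ := fun s n κ => if s n = true ∧ κ = p n - 1 then 1 else 0
  let S : ℕ → Set (ℕ → Bool) := fun j => {s | ∃ g : ℂ → ℂ, Differentiable ℂ g ∧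
    (∀ z, ‖g z‖ ≤ j * Real.exp (j * rho z)) ∧
    ∀ n, ∀ κ < p n, iteratedDeriv κ g (a n) / (κ.factorial : ℂ) = lamS s n κ}
  -- monotonicity of the bound
  have hmono : ∀ (A B : ℝ) (j : ℕ), A ≤ j → B ≤ j → ∀ z : ℂ,
      A * Real.exp (B * rho z) ≤ j * Real.exp (j * rho z) := by
    intro A B j hA hB z
    have h1 : Real.exp (B * rho z) ≤ Real.exp (j * rho z) :=
      Real.exp_le_exp.2 (mul_le_mul_of_nonneg_right hB (rho_nonneg z))
    calc A * Real.exp (B * rho z) ≤ j * Real.exp (B * rho z) :=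
          mul_le_mul_of_nonneg_right hA (Real.exp_pos _).le
      _ ≤ j * Real.exp (j * rho z) := mul_le_mul_of_nonneg_left h1 (Nat.cast_nonneg j)
  have hunit : ∀ (lam : ℕ → ℕ → ℂ), (∀ n κ, ‖lam n κ‖ ≤ 1) → ∃ (j : ℕ) (g : ℂ → ℂ),
      Differentiable ℂ g ∧ (∀ z, ‖g z‖ ≤ j * Real.exp (j * rho z)) ∧
      ∀ n, ∀ κ < p n, iteratedDeriv κ g (a n) / (κ.factorial : ℂ) = lam n κ := by
    intro lam hlam
    obtain ⟨g, ⟨hg, A, hA, B, hB, hb⟩, hint⟩ := h lam ⟨1, one_pos, 1, one_pos, fun n κ _ => by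
      refine (hlam n κ).trans ?_
      rw [one_mul, one_mul]
      exact Real.one_le_exp (rho_nonneg _)⟩
    obtain ⟨j, hj⟩ := exists_nat_ge (max A B)
    exact ⟨j, g, hg, fun z => (hb z).trans (hmono A B j ((le_max_left _ _).trans hj)
      ((le_max_right _ _).trans hj) z), hint⟩
  have hlamS : ∀ s n κ, ‖lamS s n κ‖ ≤ 1 := by
    intro s n κ
    simp only [lamS]
    split_ifs <;> simp
  have hcover : (⋃ j, S j) = univ := by
    rw [eq_univ_iff_forall]
    intro s
    obtain ⟨j, g, hg, hb, hint⟩ := hunit (lamS s) (hlamS s)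
    exact mem_iUnion.2 ⟨j, g, hg, hb, hint⟩
  have hclosed : ∀ j, IsClosed (S j) := by
    intro j
    rw [isClosed_iff_ultrafilter]
    intro s u hu hSu
    let F : (ℕ → Bool) → ℂ → ℂ := fun t => if ht : t ∈ S j then ht.choose else fun _ => 0
    have hF1 : ∀ t, Differentiable ℂ (F t) := by
      intro t
      by_cases ht : t ∈ S j
      · have : F t = ht.choose := dif_pos ht
        rw [this]; exact ht.choose_spec.1
      · have : F t = fun _ => 0 := dif_neg ht
        rw [this]; exact differentiable_const 0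
    have hF2 : ∀ t z, ‖F t z‖ ≤ j * Real.exp (j * rho z) := by
      intro t z
      by_cases ht : t ∈ S j
      · have : F t = ht.choose := dif_pos ht
        rw [this]; exact ht.choose_spec.2.1 z
      · have : F t = fun _ => 0 := dif_neg ht
        rw [this]; simp only [norm_zero]; positivity
    have hF3 : ∀ t ∈ S j, ∀ n, ∀ κ < p n,
        iteratedDeriv κ (F t) (a n) / (κ.factorial : ℂ) = lamS t n κ := by
      intro t ht
      have : F t = ht.choose := dif_pos ht
      rw [this]; exact ht.choose_spec.2.2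
    obtain ⟨Φ, hΦ1, hΦ2, hΦ3⟩ := montel_entire u F (fun z => j * Real.exp (j * rho z))
      (by have := continuous_rho; fun_prop) hF1 hF2
    refine ⟨Φ, hΦ1, hΦ2, ?_⟩
    intro n κ hκ
    have hlim : Tendsto (fun t => iteratedDeriv κ (F t) (a n) / (κ.factorial : ℂ)) u
        (𝓝 (iteratedDeriv κ Φ (a n) / (κ.factorial : ℂ))) := (hΦ3 κ (a n)).div_const _
    have hlim2 : Tendsto (fun t => iteratedDeriv κ (F t) (a n) / (κ.factorial : ℂ)) u
        (𝓝 (lamS s n κ)) := by
      have hev : ∀ᶠ t in (u : Filter (ℕ → Bool)), t n = s n := by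
        have : {t : ℕ → Bool | t n = s n} ∈ 𝓝 s := by
          have hcont : Continuous (fun t : ℕ → Bool => t n) := continuous_apply n
          exact (hcont.isOpen_preimage {s n} (isOpen_discrete _)).mem_nhds rfl
        exact hu this
      refine tendsto_const_nhds.congr' ?_
      filter_upwards [hev, hSu] with t ht1 ht2
      rw [hF3 t ht2 n κ hκ]
      simp only [lamS, ht1]
    exact tendsto_nhds_unique hlim hlim2
  obtain ⟨j, s0, hs0⟩ := nonempty_interior_of_iUnion_of_closed hclosed hcover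
  obtain ⟨I, u, hIu, hsub⟩ := isOpen_pi_iff.1 isOpen_interior s0 hs0
  -- data for indices in the finite set I
  have hfin : ∀ n, ∃ (jn : ℕ) (g : ℂ → ℂ), Differentiable ℂ g ∧
      (∀ z, ‖g z‖ ≤ jn * Real.exp (jn * rho z)) ∧
      ∀ m, ∀ κ < p m, iteratedDeriv κ g (a m) / (κ.factorial : ℂ) =
        if m = n ∧ κ = p m - 1 then 1 else 0 := by
    intro n
    exact hunit (fun m κ => if m = n ∧ κ = p m - 1 then 1 else 0)
      (fun m κ => by split_ifs <;> simp)
  choose jn gn hgn1 hgn2 hgn3 using hfin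
  refine ⟨max (2 * j) (I.sup jn), ?_⟩
  intro n
  by_cases hn : n ∈ I
  · refine ⟨gn n, hgn1 n, fun z => (hgn2 n z).trans ?_, hgn3 n⟩
    have hle : jn n ≤ max (2 * j) (I.sup jn) :=
      (Finset.le_sup (f := jn) hn).trans (le_max_right _ _)
    exact hmono _ _ _ (by exact_mod_cast hle) (by exact_mod_cast hle) z
  · have hmem : ∀ b : Bool, Function.update s0 n b ∈ S j := by
      intro b
      apply interior_subset (s := S j)
      apply hsub
      intro i hi
      have hin : i ≠ n := by rintro rfl; exact hn hi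
      rw [Function.update_of_ne hin]
      exact (hIu i hi).2
    obtain ⟨g1, hg1, hb1, hi1⟩ := hmem true
    obtain ⟨g2, hg2, hb2, hi2⟩ := hmem false
    refine ⟨fun z => g1 z - g2 z, hg1.sub hg2, ?_, ?_⟩
    · intro z
      have h1 : ‖g1 z - g2 z‖ ≤ (2 * j : ℕ) * Real.exp (j * rho z) := by
        calc ‖g1 z - g2 z‖ ≤ ‖g1 z‖ + ‖g2 z‖ := norm_sub_le _ _
          _ ≤ j * Real.exp (j * rho z) + j * Real.exp (j * rho z) := add_le_add (hb1 z) (hb2 z)
          _ = (2 * j : ℕ) * Real.exp (j * rho z) := by push_cast; ring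
      refine h1.trans (hmono _ _ _ ?_ ?_ z)
      · exact_mod_cast le_max_left _ _
      · have : j ≤ max (2 * j) (I.sup jn) := le_trans (by omega) (le_max_left _ _)
        exact_mod_cast this
    · intro m κ hκ
      have e : iteratedDeriv κ (fun z => g1 z - g2 z) (a m) =
          iteratedDeriv κ g1 (a m) - iteratedDeriv κ g2 (a m) :=
        iteratedDeriv_sub hg1.contDiff.contDiffAt hg2.contDiff.contDiffAt
      rw [e, sub_div, hi1 m κ hκ, hi2 m κ hκ]
      simp only [lamS]
      by_cases hmn : m = n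
      · subst hmn
        simp
      · simp [Function.update_of_ne hmn, hmn]

end Pool.Agent.H305R3.Interp
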