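import Mathlib
import Pool.Agent.H305R3.InterpA

set_option autoImplicit false

open Set Filter Topology Metric

namespace Pool.Agent.H305R3.Interp

/-- factoring out finitely many distinct zeros -/
theorem factor_zeros (a : ℕ → ℂ) (ha : Function.Injective a) {F : ℂ → ℂ}
    (hF : Differentiable ℂ F) (hz : ∀ n, F (a n) = 0) (s : Finset ℕ) :
    ∃ G : ℂ → ℂ, Differentiable ℂ G ∧ ∀ z, F z = (∏ n ∈ s, (z - a n)) * G z := by
  classical
  induction s using Finset.induction_on with
  | empty => exact ⟨F, hF, fun z => by simp⟩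
  | insert n s hn ih =>
    obtain ⟨G, hG, hFG⟩ := ih
    have hprod : (∏ m ∈ s, (a n - a m)) ≠ 0 := by
      rw [Finset.prod_ne_zero_iff]
      intro m hm
      rw [sub_ne_zero]
      intro h
      exact hn ((ha h) ▸ hm)
    have hGn : G (a n) = 0 := by
      have h := hFG (a n)
      rw [hz n] at h
      rcases mul_eq_zero.1 h.symm with h | h
      · exact absurd h hprod
      · exact h
    refine ⟨dslope G (a n), ?_, ?_⟩
    · rw [← differentiableOn_univ]
      exact (Complex.differentiableOn_dslope univ_mem).2 hG.differentiableOn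
    · intro z
      have h1 : G z = (z - a n) * dslope G (a n) z := by
        have := sub_smul_dslope G (a n) z
        rw [hGn, sub_zero, smul_eq_mul] at this
        exact this.symm
      rw [Finset.prod_insert hn, hFG z, h1]
      ring

/-- number of zeros in a disc -/
theorem count_zeros (a : ℕ → ℂ) (ha : Function.Injective a) {F : ℂ → ℂ}
    (hF : Differentiable ℂ F) (hz : ∀ n, F (a n) = 0) {A B : ℝ} (hA : 0 < A) (hB : 0 < B)
    (hb : ∀ z, ‖F z‖ ≤ A * Real.exp (B * rho z)) {z0 : ℂ} (h0 : F z0 ≠ 0) :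
    ∃ C : ℝ, 0 < C ∧ ∀ (R : ℝ), 0 ≤ R → ∀ s : Finset ℕ, (∀ n ∈ s, ‖a n‖ ≤ R) →
      (s.card : ℝ) ≤ C * (1 + R) := by
  have hF0 : 0 < ‖F z0‖ := norm_pos_iff.2 h0
  set K : ℝ := max (Real.log (A / ‖F z0‖)) 0 with hK
  have hK0 : 0 ≤ K := le_max_right _ _
  set D : ℝ := K + 3 * B * (4 * ‖z0‖ + 3) + 9 * B with hD
  have hDpos : 0 < D := by
    have := norm_nonneg z0
    have : 0 ≤ 3 * B * (4 * ‖z0‖ + 3) := by positivity
    linarith
  have hlog2 : 0 < Real.log 2 := Real.log_pos (by norm_num)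
  refine ⟨D / Real.log 2, by positivity, ?_⟩
  intro R hR s hs
  obtain ⟨G, hG, hFG⟩ := factor_zeros a ha hF hz s
  set r : ℝ := R + ‖z0‖ + 1 with hr
  have hrpos : 0 < r := by have := norm_nonneg z0; linarith
  have hdist : ∀ n ∈ s, ‖a n - z0‖ ≤ r := by
    intro n hn
    calc ‖a n - z0‖ ≤ ‖a n‖ + ‖z0‖ := norm_sub_le _ _
      _ ≤ r := by have := hs n hn; linarith
  set Mx : ℝ := A * Real.exp (B * (3 * (‖z0‖ + 3 * r))) with hMx
  have hMxpos : 0 < Mx := by positivity
  -- bound of G at the centre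
  have hGb : ‖G z0‖ ≤ Mx / (2 * r) ^ s.card := by
    have hdc : DiffContOnCl ℂ G (ball z0 (3 * r)) := hG.diffContOnCl
    refine Complex.norm_le_of_forall_mem_frontier_norm_le isBounded_ball hdc ?_
      (subset_closure (mem_ball_self (by positivity)))
    intro z hzf
    rw [frontier_ball z0 (by positivity), mem_sphere, dist_eq_norm] at hzf
    have hzn : ‖z‖ ≤ ‖z0‖ + 3 * r := by
      calc ‖z‖ = ‖(z - z0) + z0‖ := by ring_nf
        _ ≤ ‖z - z0‖ + ‖z0‖ := norm_add_le _ _
        _ = ‖z0‖ + 3 * r := by rw [hzf]; ring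
    have hFz : ‖F z‖ ≤ Mx := by
      refine (hb z).trans ?_
      rw [hMx]
      apply mul_le_mul_of_nonneg_left _ hA.le
      apply Real.exp_le_exp.2
      apply mul_le_mul_of_nonneg_left _ hB.le
      refine (rho_le z).trans ?_
      linarith
    have hprod : (2 * r) ^ s.card ≤ ‖∏ n ∈ s, (z - a n)‖ := by
      rw [norm_prod, ← Finset.prod_const]
      apply Finset.prod_le_prod
      · intro n _; positivity
      · intro n hn
        have h1 : ‖z - z0‖ ≤ ‖z - a n‖ + ‖a n - z0‖ := by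
          calc ‖z - z0‖ = ‖(z - a n) + (a n - z0)‖ := by ring_nf
            _ ≤ _ := norm_add_le _ _
        have h2 := hdist n hn
        rw [hzf] at h1
        linarith
    have h3 : ‖F z‖ = ‖∏ n ∈ s, (z - a n)‖ * ‖G z‖ := by rw [hFG z, norm_mul]
    rw [le_div_iff₀ (by positivity)]
    calc ‖G z‖ * (2 * r) ^ s.card ≤ ‖G z‖ * ‖∏ n ∈ s, (z - a n)‖ :=
          mul_le_mul_of_nonneg_left hprod (norm_nonneg _)
      _ = ‖F z‖ := by rw [h3]; ring
      _ ≤ Mx := hFz
  have hF0b : ‖F z0‖ ≤ r ^ s.card * (Mx / (2 * r) ^ s.card) := by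
    rw [hFG z0, norm_mul]
    apply mul_le_mul _ hGb (norm_nonneg _) (by positivity)
    rw [norm_prod, ← Finset.prod_const]
    apply Finset.prod_le_prod
    · intro n _; positivity
    · intro n hn
      rw [norm_sub_rev]
      exact hdist n hn
  have hF0c : 2 ^ s.card * ‖F z0‖ ≤ Mx := by
    have : r ^ s.card * (Mx / (2 * r) ^ s.card) = Mx / 2 ^ s.card := by
      rw [mul_pow]
      field_simp
    rw [this, le_div_iff₀ (by positivity)] at hF0b
    linarith
  have h5 : (s.card : ℝ) * Real.log 2 ≤ Real.log (A / ‖F z0‖) + B * (3 * (‖z0‖ + 3 * r)) := by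
    have h6 : (2:ℝ) ^ s.card ≤ (A / ‖F z0‖) * Real.exp (B * (3 * (‖z0‖ + 3 * r))) := by
      rw [div_mul_eq_mul_div, le_div_iff₀ hF0]
      exact hF0c
    have h7 := Real.log_le_log (by positivity) h6
    rw [Real.log_pow, Real.log_mul (by positivity) (by positivity), Real.log_exp] at h7
    exact h7
  rw [div_mul_eq_mul_div, le_div_iff₀ hlog2]
  have h8 : Real.log (A / ‖F z0‖) ≤ K := le_max_left _ _
  have h9 : K + B * (3 * (‖z0‖ + 3 * r)) ≤ D * (1 + R) := by
    rw [hD, hr]
    have e1 := norm_nonneg z0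
    have e2 : 0 ≤ K * R := by positivity
    have e3 : 0 ≤ B * R := by positivity
    have e4 : 0 ≤ B * ‖z0‖ * R := by positivity
    nlinarith
  linarith

/-- the zeros satisfy a summability condition -/
theorem sum_bound (a : ℕ → ℂ) {C : ℝ} (hC : 0 < C)
    (hcount : ∀ (R : ℝ), 0 ≤ R → ∀ s : Finset ℕ, (∀ n ∈ s, ‖a n‖ ≤ R) →
      (s.card : ℝ) ≤ C * (1 + R)) :
    ∃ T : ℝ, 0 < T ∧ ∀ s : Finset ℕ, ∑ n ∈ s, 1 / (1 + ‖a n‖) ^ 3 ≤ T := by
  classical
  have hsum : Summable (fun k : ℕ => 1 / ((k : ℝ) + 1) ^ 2) := by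
    have h := (summable_nat_add_iff 1).2 (Real.summable_one_div_nat_pow.2 (show 1 < 2 by norm_num))
    simpa using h
  refine ⟨2 * C * (∑' k : ℕ, 1 / ((k : ℝ) + 1) ^ 2) + 1, ?_, ?_⟩
  · have : 0 ≤ ∑' k : ℕ, 1 / ((k : ℝ) + 1) ^ 2 := tsum_nonneg fun k => by positivity
    positivity
  intro s
  set K : ℕ := (s.sup fun n => ⌊‖a n‖⌋₊) + 1 with hK
  have hmaps : ∀ n ∈ s, ⌊‖a n‖⌋₊ ∈ Finset.range K := by
    intro n hn
    rw [Finset.mem_range, hK]
    exact Nat.lt_succ_of_le (Finset.le_sup (f := fun n => ⌊‖a n‖⌋₊) hn)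
  rw [← Finset.sum_fiberwise_of_maps_to hmaps]
  have hfib : ∀ k ∈ Finset.range K,
      ∑ n ∈ s with ⌊‖a n‖⌋₊ = k, 1 / (1 + ‖a n‖) ^ 3 ≤ 2 * C * (1 / ((k : ℝ) + 1) ^ 2) := by
    intro k _
    have hterm : ∀ n ∈ s.filter (fun n => ⌊‖a n‖⌋₊ = k),
        1 / (1 + ‖a n‖) ^ 3 ≤ 1 / ((k : ℝ) + 1) ^ 3 := by
      intro n hn
      have hk := (Finset.mem_filter.1 hn).2
      have h1 : (k : ℝ) ≤ ‖a n‖ := by
        rw [← hk]; exact Nat.floor_le (norm_nonneg _)
      apply one_div_le_one_div_of_le (by positivity)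
      apply pow_le_pow_left₀ (by positivity)
      linarith
    have hcard : ((s.filter (fun n => ⌊‖a n‖⌋₊ = k)).card : ℝ) ≤ C * (1 + (k + 1)) := by
      apply hcount (k + 1) (by positivity)
      intro n hn
      have hk := (Finset.mem_filter.1 hn).2
      rw [← hk]
      exact (Nat.lt_floor_add_one _).le
    calc ∑ n ∈ s with ⌊‖a n‖⌋₊ = k, 1 / (1 + ‖a n‖) ^ 3
        ≤ (s.filter (fun n => ⌊‖a n‖⌋₊ = k)).card • (1 / ((k : ℝ) + 1) ^ 3) :=
          Finset.sum_le_card_nsmul _ _ _ hterm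
      _ = ((s.filter (fun n => ⌊‖a n‖⌋₊ = k)).card : ℝ) * (1 / ((k : ℝ) + 1) ^ 3) := by
          rw [nsmul_eq_mul]
      _ ≤ (C * (1 + (k + 1))) * (1 / ((k : ℝ) + 1) ^ 3) :=
          mul_le_mul_of_nonneg_right hcard (by positivity)
      _ ≤ (2 * C * (k + 1)) * (1 / ((k : ℝ) + 1) ^ 3) := by
          apply mul_le_mul_of_nonneg_right _ (by positivity)
          have : (0:ℝ) ≤ k := Nat.cast_nonneg k
          nlinarith
      _ = 2 * C * (1 / ((k : ℝ) + 1) ^ 2) := by
          have : ((k : ℝ) + 1) ≠ 0 := by positivity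
          field_simp
  calc ∑ k ∈ Finset.range K, ∑ n ∈ s with ⌊‖a n‖⌋₊ = k, 1 / (1 + ‖a n‖) ^ 3
      ≤ ∑ k ∈ Finset.range K, 2 * C * (1 / ((k : ℝ) + 1) ^ 2) := Finset.sum_le_sum hfib
    _ = 2 * C * ∑ k ∈ Finset.range K, (1 / ((k : ℝ) + 1) ^ 2) := by rw [Finset.mul_sum]
    _ ≤ 2 * C * ∑' k : ℕ, 1 / ((k : ℝ) + 1) ^ 2 := by
        apply mul_le_mul_of_nonneg_left _ (by positivity)
        exact hsum.sum_le_tsum _ (fun k _ => by positivity)
    _ ≤ _ := by linarith

/-- choice of coefficients by counting -/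
theorem choose_coeff {ι : Type*} [Fintype ι] [DecidableEq ι] (L : ι → ι → ℂ)
    (hL : ∀ n, L n n = 1) (r : ι → ℝ) (hr : ∀ n, 0 < r n) (M : ι → ℕ) (hM : ∀ n, 0 < M n)
    (hsum : ∑ n, 1 / (M n : ℝ) < 1) :
    ∃ c : ι → ℝ, (∀ n, 0 ≤ c n ∧ c n ≤ r n) ∧
      ∀ n, r n / (2 * M n) ≤ ‖∑ m, (c m : ℂ) * L n m‖ := by
  classical
  have hMpos : ∀ n, (0:ℝ) < M n := fun n => by exact_mod_cast hM n
  let cf : ((m : ι) → Fin (M m)) → ι → ℝ := fun ω m => r m * (ω m : ℕ) / M m
  let Bad : ι → Finset ((m : ι) → Fin (M m)) := fun n =>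
    Finset.univ.filter fun ω => ‖∑ m, (cf ω m : ℂ) * L n m‖ < r n / (2 * M n)
  have hΩ : 0 < Fintype.card ((m : ι) → Fin (M m)) := by
    rw [Fintype.card_pi]
    apply Finset.prod_pos
    intro i _
    simpa using hM i
  have hbad : ∀ n, (Bad n).card * M n ≤ Fintype.card ((m : ι) → Fin (M m)) := by
    intro n
    have h1 : ((Bad n) ×ˢ (Finset.univ : Finset (Fin (M n)))).card ≤
        (Finset.univ : Finset ((m : ι) → Fin (M m))).card := by
      apply Finset.card_le_card_of_injOn (fun q => Function.update q.1 n q.2)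
      · intro q _; exact Finset.mem_coe.2 (Finset.mem_univ _)
      · rintro ⟨ω, i⟩ h1 ⟨ω', i'⟩ h2 heq
        simp only at heq
        have hω : ω ∈ Bad n := (Finset.mem_product.1 (Finset.mem_coe.1 h1)).1
        have hω' : ω' ∈ Bad n := (Finset.mem_product.1 (Finset.mem_coe.1 h2)).1
        have hi : i = i' := by
          have := congrFun heq n
          simpa using this
        have hoff : ∀ m, m ≠ n → ω m = ω' m := by
          intro m hm
          have := congrFun heq m
          simpa [Function.update_of_ne hm] using this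
        have hdiff : (∑ m, (cf ω m : ℂ) * L n m) - (∑ m, (cf ω' m : ℂ) * L n m) =
            ((cf ω n - cf ω' n : ℝ) : ℂ) := by
          rw [← Finset.sum_sub_distrib, Finset.sum_eq_single n]
          · rw [hL n]; push_cast; ring
          · intro m _ hm
            have : cf ω m = cf ω' m := by simp only [cf, hoff m hm]
            rw [this]; ring
          · intro h; exact absurd (Finset.mem_univ n) h
        have h3 : |cf ω n - cf ω' n| < r n / M n := by
          have e : |cf ω n - cf ω' n| = ‖((cf ω n - cf ω' n : ℝ) : ℂ)‖ := by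
            rw [Complex.norm_real, Real.norm_eq_abs]
          rw [e, ← hdiff]
          have b1 := (Finset.mem_filter.1 hω).2
          have b2 := (Finset.mem_filter.1 hω').2
          calc _ ≤ ‖∑ m, (cf ω m : ℂ) * L n m‖ + ‖∑ m, (cf ω' m : ℂ) * L n m‖ := norm_sub_le _ _
            _ < r n / (2 * M n) + r n / (2 * M n) := add_lt_add b1 b2
            _ = r n / M n := by
              have := (hMpos n).ne'
              field_simp
              ring
        have h4 : |((ω n : ℕ) : ℝ) - ((ω' n : ℕ) : ℝ)| < 1 := by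
          have e : cf ω n - cf ω' n = (r n / M n) * (((ω n : ℕ) : ℝ) - ((ω' n : ℕ) : ℝ)) := by
            simp only [cf]; ring
          have hpos : 0 < r n / M n := div_pos (hr n) (hMpos n)
          rw [e, abs_mul, abs_of_pos hpos] at h3
          by_contra hcon
          push Not at hcon
          have := mul_le_mul_of_nonneg_left hcon hpos.le
          linarith
        have h5 : (ω n : ℕ) = (ω' n : ℕ) := by
          have h6 : |((ω n : ℕ) : ℤ) - ((ω' n : ℕ) : ℤ)| < 1 := by exact_mod_cast h4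
          have h7 := Int.abs_lt_one_iff.1 h6
          omega
        have h8 : ω = ω' := by
          funext m
          by_cases hm : m = n
          · subst hm; exact Fin.ext h5
          · exact hoff m hm
        rw [h8, hi]
    rw [Finset.card_product, Finset.card_univ, Fintype.card_fin, Finset.card_univ] at h1
    exact h1
  have hunion : ((Finset.univ.biUnion Bad).card : ℝ) <
      Fintype.card ((m : ι) → Fin (M m)) := by
    have h1 : ((Finset.univ.biUnion Bad).card : ℝ) ≤ ∑ n, ((Bad n).card : ℝ) := by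
      exact_mod_cast Finset.card_biUnion_le
    have h2 : ∑ n, ((Bad n).card : ℝ) ≤
        ∑ n, (Fintype.card ((m : ι) → Fin (M m)) : ℝ) * (1 / (M n : ℝ)) := by
      apply Finset.sum_le_sum
      intro n _
      rw [mul_one_div, le_div_iff₀ (hMpos n)]
      exact_mod_cast hbad n
    rw [← Finset.mul_sum] at h2
    have h3 : (0:ℝ) < Fintype.card ((m : ι) → Fin (M m)) := by exact_mod_cast hΩ
    have h4 := mul_lt_mul_of_pos_left hsum h3
    linarith
  have hex : ∃ ω, ω ∉ Finset.univ.biUnion Bad := by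
    by_contra hcon
    push Not at hcon
    have : Finset.univ.biUnion Bad = Finset.univ := Finset.eq_univ_iff_forall.2 hcon
    rw [this, Finset.card_univ] at hunion
    exact lt_irrefl _ hunion
  obtain ⟨ω, hω⟩ := hex
  refine ⟨cf ω, fun n => ⟨?_, ?_⟩, ?_⟩
  · simp only [cf]
    have := hr n
    positivity
  · simp only [cf]
    rw [div_le_iff₀ (hMpos n)]
    apply mul_le_mul_of_nonneg_left _ (hr n).le
    exact_mod_cast (ω n).2.le
  · intro n
    by_contra hcon
    push Not at hcon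
    apply hω
    rw [Finset.mem_biUnion]
    exact ⟨n, Finset.mem_univ n, Finset.mem_filter.2 ⟨Finset.mem_univ _, hcon⟩⟩

end Pool.Agent.H305R3.Interp
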