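import Mathlib
import Pool.Agent.H305R3.InterpB

set_option autoImplicit false

open Set Filter Topology Metric

namespace Pool.Agent.H305R3.Interp

theorem iteratedDeriv_linear_mul {f : ℂ → ℂ} (hf : Differentiable ℂ f) (a : ℂ) (k : ℕ) :
    iteratedDeriv k (fun z => (z - a) * f z) =
      fun z => (z - a) * iteratedDeriv k f z + k * iteratedDeriv (k - 1) f z := by
  induction k with
  | zero => funext z; simp
  | succ k ih =>
    rw [iteratedDeriv_succ, ih]
    funext z
    have h1 : HasDerivAt (iteratedDeriv k f) (iteratedDeriv (k + 1) f z) z := by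
      rw [iteratedDeriv_succ]
      exact (differentiable_iteratedDeriv hf k z).hasDerivAt
    have h2 : HasDerivAt (fun z : ℂ => z - a) 1 z := (hasDerivAt_id z).sub_const a
    rcases Nat.eq_zero_or_pos k with hk | hk
    · subst hk
      have h3 : HasDerivAt (fun z : ℂ => (z - a) * iteratedDeriv 0 f z)
          (1 * iteratedDeriv 0 f z + (z - a) * iteratedDeriv (0 + 1) f z) z := h2.mul h1
      have e : (fun z : ℂ => (z - a) * iteratedDeriv 0 f z +
          ((0:ℕ) : ℂ) * iteratedDeriv (0 - 1) f z) = fun z => (z - a) * iteratedDeriv 0 f z := by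
        funext w; simp
      rw [e]
      rw [h3.deriv]
      simp
      ring
    · obtain ⟨j, rfl⟩ : ∃ j, k = j + 1 := ⟨k - 1, by omega⟩
      have h4 : HasDerivAt (iteratedDeriv (j + 1 - 1) f) (iteratedDeriv (j + 1) f z) z := by
        have : j + 1 - 1 = j := by omega
        rw [this, iteratedDeriv_succ]
        exact (differentiable_iteratedDeriv hf j z).hasDerivAt
      have h3 := (h2.mul h1).add (h4.const_mul ((j + 1 : ℕ) : ℂ))
      have h5 := h3.deriv
      have e : (j + 1 + 1 - 1) = j + 1 := by omega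
      rw [e]
      have e2 : (((fun z : ℂ => z - a) * iteratedDeriv (j + 1) f +
          fun y => ((j + 1 : ℕ) : ℂ) * iteratedDeriv (j + 1 - 1) f y)) =
          (fun z : ℂ => (z - a) * iteratedDeriv (j + 1) f z +
          ((j + 1 : ℕ) : ℂ) * iteratedDeriv (j + 1 - 1) f z) := by
        funext w; simp [Pi.add_apply, Pi.mul_apply]
      rw [e2] at h5
      rw [h5]
      push_cast
      ring

/-- main theorem in terms of `rho` -/
theorem main (a : ℕ → ℂ) (p : ℕ → ℕ) (ha : Function.Injective a) (hp : ∀ n, 1 ≤ p n)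
    (hF : ∃ F : ℂ → ℂ, (Differentiable ℂ F ∧
      ∃ A > (0:ℝ), ∃ B > (0:ℝ), ∀ z : ℂ, ‖F z‖ ≤ A * Real.exp (B * rho z)) ∧ (∃ z, F z ≠ 0) ∧
      ∀ n, ∀ k < p n, iteratedDeriv k F (a n) = 0)
    (h : ∀ lam : ℕ → ℕ → ℂ,
      (∃ A > (0:ℝ), ∃ B > (0:ℝ), ∀ n, ∀ κ < p n,
        ‖lam n κ‖ ≤ A * Real.exp (B * rho (a n))) →
      ∃ g : ℂ → ℂ, (Differentiable ℂ g ∧
      ∃ A > (0:ℝ), ∃ B > (0:ℝ), ∀ z : ℂ, ‖g z‖ ≤ A * Real.exp (B * rho z)) ∧ ∀ n, ∀ κ < p n,
        iteratedDeriv κ g (a n) / (κ.factorial : ℂ) = lam n κ) :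
    ∃ f : ℂ → ℂ, (Differentiable ℂ f ∧
      ∃ A > (0:ℝ), ∃ B > (0:ℝ), ∀ z : ℂ, ‖f z‖ ≤ A * Real.exp (B * rho z)) ∧ (∃ z, f z ≠ 0) ∧
      (∀ n, ∀ k < p n, iteratedDeriv k f (a n) = 0) ∧
      ∃ ε > (0:ℝ), ∃ c > (0:ℝ), ∀ n,
        ε * Real.exp (-(c * rho (a n))) ≤
          ‖iteratedDeriv (p n) f (a n)‖ / ((p n).factorial : ℝ) := by
  classical
  obtain ⟨F0, ⟨hF0d, A0, hA0, B0, hB0, hF0b⟩, ⟨z0, hz0⟩, hF0v⟩ := hF
  have hF0z : ∀ n, F0 (a n) = 0 := fun n => by simpa using hF0v n 0 (hp n)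
  obtain ⟨C, hC, hcount⟩ := count_zeros a ha hF0d hF0z hA0 hB0 hF0b hz0
  obtain ⟨T, hT, hTs⟩ := sum_bound a hC hcount
  obtain ⟨J, hJ⟩ := uniform_interp a p h
  choose fn hfd hfb hfi using hJ
  -- the functions vanishing on the variety
  let Fn : ℕ → ℂ → ℂ := fun m z => (z - a m) * fn m z
  have hFnd : ∀ m, Differentiable ℂ (Fn m) := fun m =>
    (differentiable_id.sub_const (a m)).mul (hfd m)
  have hfv : ∀ m n, ∀ κ < p n, iteratedDeriv κ (fn m) (a n) =
      if n = m ∧ κ = p n - 1 then (κ.factorial : ℂ) else 0 := by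
    intro m n κ hκ
    have h1 := hfi m n κ hκ
    have hfac : (κ.factorial : ℂ) ≠ 0 := by exact_mod_cast Nat.factorial_ne_zero κ
    rw [div_eq_iff hfac] at h1
    rw [h1]
    split_ifs <;> simp
  have hFnv : ∀ m n, ∀ k < p n, iteratedDeriv k (Fn m) (a n) = 0 := by
    intro m n k hk
    have h1 : iteratedDeriv k (Fn m) (a n) =
        (a n - a m) * iteratedDeriv k (fn m) (a n) + k * iteratedDeriv (k - 1) (fn m) (a n) :=
      congrFun (iteratedDeriv_linear_mul (hfd m) (a m) k) (a n)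
    rw [h1]
    have h2 : (a n - a m) * iteratedDeriv k (fn m) (a n) = 0 := by
      rw [hfv m n k hk]
      by_cases hnm : n = m
      · subst hnm; simp
      · simp [hnm]
    have h3 : (k : ℂ) * iteratedDeriv (k - 1) (fn m) (a n) = 0 := by
      rcases Nat.eq_zero_or_pos k with hk0 | hk0
      · subst hk0; simp
      · rw [hfv m n (k - 1) (by omega)]
        have : ¬ (n = m ∧ k - 1 = p n - 1) := by
          rintro ⟨_, h4⟩
          omega
        rw [if_neg this, mul_zero]
    rw [h2, h3, add_zero]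
  have hFnl : ∀ n, iteratedDeriv (p n) (Fn n) (a n) = ((p n).factorial : ℂ) := by
    intro n
    have h1 : iteratedDeriv (p n) (Fn n) (a n) =
        (a n - a n) * iteratedDeriv (p n) (fn n) (a n) +
          (p n : ℂ) * iteratedDeriv (p n - 1) (fn n) (a n) :=
      congrFun (iteratedDeriv_linear_mul (hfd n) (a n) (p n)) (a n)
    have hpn := hp n
    rw [h1, hfv n n (p n - 1) (by omega), if_pos ⟨rfl, rfl⟩, sub_self, zero_mul, zero_add]
    have := Nat.mul_factorial_pred (show p n ≠ 0 by omega)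
    exact_mod_cast this
  -- weights
  let w : ℕ → ℝ := fun n => 1 / (1 + ‖a n‖) ^ 3
  have hwpos : ∀ n, 0 < w n := fun n => by simp only [w]; positivity
  have hwle : ∀ n, w n ≤ 1 := fun n => by
    simp only [w]
    rw [div_le_one (by positivity)]
    exact one_le_pow₀ (by have := norm_nonneg (a n); linarith)
  let r : ℕ → ℝ := fun n => w n / (1 + ‖a n‖)
  have hrpos : ∀ n, 0 < r n := fun n => by
    have := hwpos n
    simp only [r]; positivity
  let M : ℕ → ℕ := fun n => ⌈(T + 1) / w n⌉₊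
  have hMpos : ∀ n, 0 < M n := fun n => by
    simp only [M]
    rw [Nat.ceil_pos]
    have := hwpos n
    positivity
  have hM1 : ∀ n, 1 / (M n : ℝ) ≤ w n / (T + 1) := fun n => by
    have h1 : (T + 1) / w n ≤ M n := Nat.le_ceil _
    have h2 : 0 < (T + 1) / w n := div_pos (by linarith) (hwpos n)
    calc 1 / (M n : ℝ) ≤ 1 / ((T + 1) / w n) := one_div_le_one_div_of_le h2 h1
      _ = w n / (T + 1) := by rw [one_div_div]
  have hM2 : ∀ n, (M n : ℝ) ≤ (T + 2) / w n := fun n => by
    have h1 : (M n : ℝ) < (T + 1) / w n + 1 := Nat.ceil_lt_add_one (by have := hwpos n; positivity)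
    have h2 : 1 ≤ 1 / w n := by rw [le_div_iff₀ (hwpos n), one_mul]; exact hwle n
    calc (M n : ℝ) ≤ (T + 1) / w n + 1 / w n := by linarith
      _ = (T + 2) / w n := by rw [← add_div]; ring_nf
  -- coefficients for each finite stage
  have hstage : ∀ N : ℕ, ∃ c : Fin N → ℝ, (∀ n, 0 ≤ c n ∧ c n ≤ r n) ∧
      ∀ n : Fin N, r n / (2 * M n) ≤ ‖∑ m : Fin N, (c m : ℂ) *
        (iteratedDeriv (p n) (Fn m) (a n) / ((p n).factorial : ℂ))‖ := by
    intro N
    refine choose_coeff (ι := Fin N)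
      (fun n m => iteratedDeriv (p n) (Fn m) (a n) / ((p n).factorial : ℂ)) ?_
      (fun n => r n) (fun n => hrpos n) (fun n => M n) (fun n => hMpos n) ?_
    · intro n
      have hfac : (((p n).factorial : ℕ) : ℂ) ≠ 0 := by
        exact_mod_cast Nat.factorial_ne_zero (p n)
      show iteratedDeriv (p n) (Fn n) (a n) / ((p n).factorial : ℂ) = 1
      rw [hFnl n, div_self hfac]
    · have h1 : ∑ n : Fin N, 1 / (M n : ℝ) ≤ ∑ n : Fin N, w n / (T + 1) :=
        Finset.sum_le_sum fun n _ => hM1 n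
      have h2 : ∑ n : Fin N, w n / (T + 1) = (∑ n ∈ Finset.range N, w n) / (T + 1) := by
        rw [Finset.sum_div]
        exact (Finset.sum_range (fun n => w n / (T + 1))).symm
      have h3 : (∑ n ∈ Finset.range N, w n) / (T + 1) < 1 := by
        rw [div_lt_one (by linarith)]
        have := hTs (Finset.range N)
        linarith
      linarith
  choose c hc1 hc2 using hstage
  let g : ℕ → ℂ → ℂ := fun N z => ∑ m : Fin N, (c N m : ℂ) * Fn m z
  have hgd : ∀ N, Differentiable ℂ (g N) := by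
    intro N
    exact Differentiable.fun_sum fun m _ => (hFnd m).const_mul _
  have hgb : ∀ N z, ‖g N z‖ ≤ (2 * T * (J + 1)) * Real.exp ((J + 1) * rho z) := by
    intro N z
    have hterm : ∀ m : Fin N, ‖(c N m : ℂ) * Fn m z‖ ≤
        w m * ((1 + ‖z‖) * (J * Real.exp (J * rho z))) := by
      intro m
      rw [norm_mul, Complex.norm_real, Real.norm_eq_abs, abs_of_nonneg (hc1 N m).1]
      have h1 : ‖Fn m z‖ ≤ ((1 + ‖a m‖) * (1 + ‖z‖)) * (J * Real.exp (J * rho z)) := by
        simp only [Fn, norm_mul]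
        apply mul_le_mul _ (hfb m z) (norm_nonneg _) (by positivity)
        calc ‖z - a m‖ ≤ ‖z‖ + ‖a m‖ := norm_sub_le _ _
          _ ≤ (1 + ‖a m‖) * (1 + ‖z‖) := by
            nlinarith [norm_nonneg z, norm_nonneg (a m),
              mul_nonneg (norm_nonneg z) (norm_nonneg (a m))]
      calc c N m * ‖Fn m z‖ ≤ r m * (((1 + ‖a m‖) * (1 + ‖z‖)) * (J * Real.exp (J * rho z))) :=
            mul_le_mul (hc1 N m).2 h1 (norm_nonneg _) (hrpos m).le
        _ = w m * ((1 + ‖z‖) * (J * Real.exp (J * rho z))) := by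
            simp only [r]
            have : (1 + ‖a m‖) ≠ 0 := by positivity
            field_simp
    calc ‖g N z‖ ≤ ∑ m : Fin N, ‖(c N m : ℂ) * Fn m z‖ := norm_sum_le _ _
      _ ≤ ∑ m : Fin N, w m * ((1 + ‖z‖) * (J * Real.exp (J * rho z))) :=
          Finset.sum_le_sum fun m _ => hterm m
      _ = (∑ m ∈ Finset.range N, w m) * ((1 + ‖z‖) * (J * Real.exp (J * rho z))) := by
          rw [← Finset.sum_mul, ← Finset.sum_range (fun n => w n)]
      _ ≤ T * ((1 + ‖z‖) * (J * Real.exp (J * rho z))) :=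
          mul_le_mul_of_nonneg_right (hTs _) (by positivity)
      _ ≤ T * ((2 * Real.exp (rho z)) * ((J + 1) * Real.exp (J * rho z))) := by
          apply mul_le_mul_of_nonneg_left _ hT.le
          apply mul_le_mul (one_add_norm_le z) _ (by positivity) (by positivity)
          apply mul_le_mul_of_nonneg_right _ (Real.exp_pos _).le
          linarith
      _ = (2 * T * (J + 1)) * Real.exp ((J + 1) * rho z) := by
          have e : Real.exp ((J + 1) * rho z) = Real.exp (J * rho z) * Real.exp (rho z) := by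
            rw [add_mul, Real.exp_add, one_mul]
          rw [e]; ring
  have hgit : ∀ N k x, iteratedDeriv k (g N) x =
      ∑ m : Fin N, (c N m : ℂ) * iteratedDeriv k (Fn m) x := by
    intro N k x
    simp only [g]
    rw [iteratedDeriv_fun_sum (f := fun (m : Fin N) z => (c N m : ℂ) * Fn m z)
      (fun m _ => ((hFnd m).const_mul _).contDiff.contDiffAt)]
    apply Finset.sum_congr rfl
    intro m _
    exact iteratedDeriv_const_mul_field (c N m : ℂ) (Fn m)
  obtain ⟨Φ, hΦd, hΦb, hΦl⟩ := montel_entire (Filter.hyperfilter ℕ) g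
    (fun z => (2 * T * (J + 1)) * Real.exp ((J + 1) * rho z))
    (by have := continuous_rho; fun_prop) hgd hgb
  have hlow : ∀ n, r n / (2 * M n) ≤ ‖iteratedDeriv (p n) Φ (a n)‖ / ((p n).factorial : ℝ) := by
    intro n
    have hfac : (0:ℝ) < ((p n).factorial : ℝ) := by exact_mod_cast Nat.factorial_pos (p n)
    have h1 : Tendsto (fun N => ‖iteratedDeriv (p n) (g N) (a n)‖ / ((p n).factorial : ℝ))
        (Filter.hyperfilter ℕ) (𝓝 (‖iteratedDeriv (p n) Φ (a n)‖ / ((p n).factorial : ℝ))) :=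
      (hΦl (p n) (a n)).norm.div_const _
    refine ge_of_tendsto h1 ?_
    have h2 : ∀ᶠ N in (Filter.hyperfilter ℕ : Filter ℕ), n < N := by
      have h3 : ∀ᶠ N in (Filter.cofinite : Filter ℕ), n < N := by
        rw [Nat.cofinite_eq_atTop]
        exact eventually_gt_atTop n
      exact Filter.hyperfilter_le_cofinite h3
    filter_upwards [h2] with N hN
    have h4 := hc2 N ⟨n, hN⟩
    refine h4.trans (le_of_eq ?_)
    rw [hgit N (p n) (a n)]
    have h5 : ∑ m : Fin N, (c N m : ℂ) *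
        (iteratedDeriv (p n) (Fn m) (a n) / ((p n).factorial : ℂ)) =
        (∑ m : Fin N, (c N m : ℂ) * iteratedDeriv (p n) (Fn m) (a n)) /
          ((p n).factorial : ℂ) := by
      rw [Finset.sum_div]
      apply Finset.sum_congr rfl
      intro m _
      ring
    show ‖∑ m : Fin N, (c N m : ℂ) *
        (iteratedDeriv (p n) (Fn m) (a n) / ((p n).factorial : ℂ))‖ = _
    rw [h5, norm_div, Complex.norm_natCast]
  refine ⟨Φ, ⟨hΦd, 2 * T * (J + 1), by positivity, J + 1, by positivity, hΦb⟩, ?_, ?_, ?_⟩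
  · by_contra hcon
    push Not at hcon
    have h0 : Φ = fun _ => 0 := funext hcon
    have h1 := hlow 0
    rw [h0] at h1
    have h2 : iteratedDeriv (p 0) (fun _ : ℂ => (0:ℂ)) (a 0) = 0 := iteratedDeriv_fun_const_zero
    rw [h2] at h1
    have h3 : 0 < r 0 / (2 * M 0) := by
      have := hrpos 0
      have h4 : (0:ℝ) < M 0 := by exact_mod_cast hMpos 0
      positivity
    simp at h1
    linarith
  · intro n k hk
    have h1 := hΦl k (a n)
    have h2 : ∀ N, iteratedDeriv k (g N) (a n) = 0 := by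
      intro N
      rw [hgit N k (a n)]
      apply Finset.sum_eq_zero
      intro m _
      rw [hFnv m n k hk, mul_zero]
    have h3 : Tendsto (fun N => iteratedDeriv k (g N) (a n)) (Filter.hyperfilter ℕ) (𝓝 0) := by
      simp only [h2]
      exact tendsto_const_nhds
    exact tendsto_nhds_unique h1 h3
  · refine ⟨1 / (256 * (T + 2)), by positivity, 7, by norm_num, ?_⟩
    intro n
    refine le_trans ?_ (hlow n)
    have hM0 : (0:ℝ) < M n := by exact_mod_cast hMpos n
    have h1 : (M n : ℝ) ≤ (T + 2) * (1 + ‖a n‖) ^ 3 := by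
      have := hM2 n
      simp only [w] at this
      rwa [div_div_eq_mul_div, div_one] at this
    have h2 : r n = 1 / (1 + ‖a n‖) ^ 4 := by
      simp only [r, w]
      rw [div_div, ← pow_succ]
    have h3 : 1 / (2 * (T + 2) * (1 + ‖a n‖) ^ 7) ≤ r n / (2 * M n) := by
      rw [h2, div_div]
      apply one_div_le_one_div_of_le (by positivity)
      calc (1 + ‖a n‖) ^ 4 * (2 * (M n : ℝ))
          ≤ (1 + ‖a n‖) ^ 4 * (2 * ((T + 2) * (1 + ‖a n‖) ^ 3)) := by
            apply mul_le_mul_of_nonneg_left _ (by positivity)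
            linarith
        _ = 2 * (T + 2) * (1 + ‖a n‖) ^ 7 := by ring
    refine le_trans ?_ h3
    have h4 : (1 + ‖a n‖) ^ 7 ≤ 128 * Real.exp (7 * rho (a n)) := by
      have h5 := pow_le_pow_left₀ (by positivity) (one_add_norm_le (a n)) 7
      have h6 : (2 * Real.exp (rho (a n))) ^ 7 = 128 * Real.exp (7 * rho (a n)) := by
        rw [mul_pow, ← Real.exp_nat_mul]
        norm_num
      rwa [h6] at h5
    rw [Real.exp_neg, ← one_div, one_div_mul_one_div]
    apply one_div_le_one_div_of_le (by positivity)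
    calc 2 * (T + 2) * (1 + ‖a n‖) ^ 7 ≤ 2 * (T + 2) * (128 * Real.exp (7 * rho (a n))) :=
          mul_le_mul_of_nonneg_left h4 (by positivity)
      _ = 256 * (T + 2) * Real.exp (7 * rho (a n)) := by ring

end Pool.Agent.H305R3.Interp
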